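import Pool.Agent.TH30.MK.Index

/-!
# Galois coverings: descent for every finite group, and invariance when the Picard numbers agree
-/

namespace Pool.Agent.TH30.MK.Pres

open Set

set_option linter.unusedSectionVars false

/-- For every `θ`, the homomorphisms `ψ : G → A` with `ψ(g)` acting as `θ(g)` form finitely many
classes under conjugation by elements acting trivially. -/
def FinClasses (X : Variety) (G : Subgroup X.A) : Prop :=
  ∀ θ : G → X.N → X.N, ∃ T : Set (G → X.A), T.Finite ∧
    ∀ ψ : G →* X.A, (∀ g x, mv X.act (ψ g) x = θ g x) →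
      ∃ ψ' ∈ T, ∃ k : X.A, Triv X.act k ∧ ∀ g, ψ g = k⁻¹ * ψ' g * k

/-- The covering criterion: `P` is a finitely generated group, `H` a normal subgroup of finite
index, `out b` (for `b` in the group of `Y`) an automorphism of `P`, multiplicative up to
conjugations, and every `b` for which `out b` preserves `H` lifts to an element `a` of the group of
`X`. -/
structure Lifting (X Y : Variety) (pull : Y.N → X.N) (P : Type) [Group P] (H : Subgroup P)
    (out : Y.A → P ≃* P) : Prop where
  fg : Group.FG P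
  normal : H.Normal
  index : H.FiniteIndex
  outer : ∀ b b' : Y.A, ∃ p : P, ∀ x, out (b * b') x = p * out b (out b' x) * p⁻¹
  lift : ∀ b : Y.A, (∀ x, out b x ∈ H ↔ x ∈ H) →
    ∃ a : X.A, ∀ y, pull (mv Y.act b y) = mv X.act a (pull y)

theorem finite_hom {P Q : Type*} [Group P] [Group Q] [Finite Q] (h : Group.FG P) :
    Finite (P →* Q) := by
  obtain ⟨S, hS⟩ := h.out
  refine Finite.of_injective (fun f : P →* Q => fun s : S => f s) (fun f g hfg => ?_)
  refine MonoidHom.eq_of_eqOn_dense hS (fun s hs => ?_)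
  exact congrFun hfg ⟨s, hs⟩

/-- **Descent** of the cone conjecture to finite quotients. -/
theorem descent (X : Variety) (G : Subgroup X.A) [Finite G] (hF : FinClasses X G) (Y : Variety)
    (Q : X.IsQuotient G Y) (h : X.Q1) : Y.Q1 := by
  rw [Variety.q1_iff] at h ⊢
  obtain ⟨Q'⟩ := Variety.isQuotient Q
  have hG : @Finite (G : Subgroup X.toDat.A) := ‹Finite G›
  have hW := Dat.covered_of_conj h
  refine Dat.conj_of
    (@Dat.quotient_ratSpanned X.toDat G hG Y.toDat Q' (Dat.ratSpanned_of_covered hW))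
    (@Dat.quotient_openCovered X.toDat G hG Y.toDat Q' ?_ hW)
  intro θ
  obtain ⟨T, hT, hT'⟩ := hF (fun g x => θ g x)
  refine ⟨T, hT, fun ψ hψ => ?_⟩
  obtain ⟨ψ', hψ', k, hk, hk'⟩ := hT' ψ (fun g x => by
    have := hψ g
    change X.act (ψ g) x = θ g x
    exact congrArg (fun f : X.N ≃ₗ[ℝ] X.N => f x) this)
  exact ⟨ψ', hψ', k, (X.triv_iff k).1 hk, hk'⟩

/-- **Ascent** of the cone conjecture to coverings with the same Picard number. -/
theorem ascent (X : Variety) (G : Subgroup X.A) (Y : Variety) (pull : Y.N → X.N)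
    (Q : IsQuot X.act X.Λ X.K G Y.act Y.Λ Y.K pull) (hG : ∀ g ∈ G, Triv X.act g)
    (hΛ : ∀ y ∈ Y.Λ, pull y ∈ X.Λ) (P : Type) [Group P] (H : Subgroup P) (out : Y.A → P ≃* P)
    (L : Lifting X Y pull P H out) (h : Y.Q1) : X.Q1 := by
  classical
  have := L.normal
  have := L.index
  have : Finite (P →* P ⧸ H) := finite_hom L.fg
  -- the homomorphisms `P → P/H` attached to the elements of the group of `Y`
  let f : Y.A → (P →* P ⧸ H) := fun b => (QuotientGroup.mk' H).comp (out b).toMonoidHom
  have hf : ∀ b x, f b x = 1 ↔ out b x ∈ H := by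
    intro b x
    exact QuotientGroup.eq_one_iff (out b x)
  let rep : (P →* P ⧸ H) → Y.A := fun u => if hx : ∃ b, f b = u then hx.choose else 1
  have hrep : ∀ b, f (rep (f b)) = f b := by
    intro b
    have hx : ∃ b', f b' = f b := ⟨b, rfl⟩
    have : rep (f b) = hx.choose := dif_pos hx
    rw [this]; exact hx.choose_spec
  have hfin : (Set.range rep).Finite := Set.finite_range rep
  -- decomposition `b = b'' s`
  have key : ∀ b : Y.A, ∃ s ∈ Set.range rep, ∃ a : X.A, ∀ y,
      pull (mv Y.act b y) = mv X.act a (pull (mv Y.act s y)) := by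
    intro b
    set s := rep (f b) with hs
    have hfs : f s = f b := hrep b
    obtain ⟨p, hp⟩ := L.outer (b * s⁻¹) s
    have hstab : ∀ z, out (b * s⁻¹) z ∈ H ↔ z ∈ H := by
      intro z
      obtain ⟨x, rfl⟩ := (out s).surjective z
      have e1 : out b x = p * out (b * s⁻¹) (out s x) * p⁻¹ := by
        rw [← hp x, inv_mul_cancel_right]
      have e2 : out b x ∈ H ↔ out (b * s⁻¹) (out s x) ∈ H := by
        rw [e1]
        constructor
        · intro hm
          have := L.normal.conj_mem _ hm p⁻¹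
          have e : p⁻¹ * (p * out (b * s⁻¹) (out s x) * p⁻¹) * p⁻¹⁻¹
              = out (b * s⁻¹) (out s x) := by group
          rwa [e] at this
        · intro hm
          exact L.normal.conj_mem _ hm p
      rw [← e2, ← hf b x, ← hfs, hf s x]
    obtain ⟨a, ha⟩ := L.lift (b * s⁻¹) hstab
    refine ⟨s, ⟨_, rfl⟩, a, fun y => ?_⟩
    rw [← ha, ← mv_mul, inv_mul_cancel_right]
  rw [Variety.q1_iff] at h ⊢
  obtain ⟨E, hE, hcov⟩ := Dat.covered_of_conj h
  let EX : Finset X.N := (hfin.toFinset ×ˢ E).image (fun q => pull (mv Y.act q.1 q.2))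
  have hW : X.toDat.Covered := by
    refine ⟨EX, ?_, ?_⟩
    · intro e he
      obtain ⟨⟨s, e'⟩, hq, rfl⟩ := Finset.mem_image.1 he
      have he' := hE e' (Finset.mem_product.1 hq).2
      exact ⟨hΛ _ (Y.stable_lattice s e' he'.1), (Q.cone _).1 (Y.stable_cone s e' he'.2)⟩
    · intro x hx
      obtain ⟨y, rfl⟩ := Q.surjective x (fun g hg => hG g hg x)
      obtain ⟨b, z, hz, hbz⟩ := hcov y ((Q.cone y).2 hx)
      obtain ⟨s, hs, a, ha⟩ := key b
      refine ⟨a, pull (mv Y.act s z), ?_, ?_⟩
      · have hl : IsLinearMap ℝ (fun y => pull (mv Y.act s y)) :=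
          ⟨fun y y' => by rw [show mv Y.act s (y + y') = mv Y.act s y + mv Y.act s y' from
              map_add _ _ _, Q.linear.map_add],
            fun t y => by rw [show mv Y.act s (t • y) = t • mv Y.act s y from
              map_smul _ _ _, Q.linear.map_smul]⟩
        refine map_cone hl (fun e he => cone_of_mem ?_) hz
        exact Finset.mem_image.2 ⟨(s, e), Finset.mem_product.2 ⟨hfin.mem_toFinset.2 hs, he⟩, rfl⟩
      · have hb : mv Y.act b z = y := hbz
        have : mv X.act a (pull (mv Y.act s z)) = pull y := by rw [← ha z, hb]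
        exact this
  refine Dat.conj_of (Dat.ratSpanned_of_covered hW) ?_
  obtain ⟨E, hE, hc⟩ := hW
  exact ⟨E, hE, fun x hx => hc x (interior_subset hx)⟩

end Pool.Agent.TH30.MK.Pres
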