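import Pool.Agent.TH30.MK.Generic

/-!
# Cone conjecture data: products and finite quotients
-/

namespace Pool.Agent.TH30.MK

open Set

set_option linter.unusedSectionVars false

/-- The data entering the cone conjecture for a variety (or pair) `X`:
`N = N¹(X)_ℝ`, `Λ` the lattice of classes of Cartier divisors, `A` the group that acts
(`Aut X`, ...), `act` its action on `N`, `K` the cone (`Nef(X)^e`, ...), and the degree form
`D ↦ D · H^(dim X - 1)` for an ample `H`. -/
structure Dat where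
  N : Type
  [normed : NormedAddCommGroup N]
  [space : NormedSpace ℝ N]
  [fd : FiniteDimensional ℝ N]
  Λ : AddSubgroup N
  A : Type
  [grp : Group A]
  act : A →* (N ≃ₗ[ℝ] N)
  K : Set N
  lattice : IsLat Λ
  act_lattice : ∀ a, ∀ v ∈ Λ, act a v ∈ Λ
  zero_mem : (0 : N) ∈ K
  add_mem : ∀ x ∈ K, ∀ y ∈ K, x + y ∈ K
  smul_mem : ∀ t : ℝ, 0 ≤ t → ∀ x ∈ K, t • x ∈ K
  act_mem : ∀ a, ∀ x ∈ K, act a x ∈ K
  interior_nonempty : (interior K).Nonempty
  degree : ∃ ξ : N →ₗ[ℝ] ℝ, (∀ v ∈ Λ, ∃ n : ℤ, ξ v = n) ∧ ∀ x ∈ closure K, x ≠ 0 → 0 < ξ x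

attribute [instance] Dat.normed Dat.space Dat.fd Dat.grp

namespace Dat

/-- **The cone conjecture** for `X`: there is a rational polyhedral cone `Π` with
`K = ⋃ φ^* Π` and `Int Π ∩ φ^* Int Π = ∅` whenever `φ^* ≠ id`. -/
def ConeConjecture (X : Dat) : Prop :=
  ∃ E : Finset X.N, (∀ e ∈ E, e ∈ X.Λ) ∧ X.K = ⋃ a : X.A, X.act a '' cone E ∧
    ∀ a : X.A, X.act a ≠ 1 → Disjoint (interior (cone E)) (X.act a '' interior (cone E))

/-- `X` is the product of the `F i`: `N¹`, the cone and the integral classes are those of the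
product, and products of automorphisms of the factors act as automorphisms of `X`. -/
structure IsProduct {I : Type} [Fintype I] [DecidableEq I] (F : I → Dat) (X : Dat) where
  iso : (∀ i, (F i).N) ≃ₗ[ℝ] X.N
  lattice : ∀ i, ∀ v ∈ (F i).Λ, iso (Pi.single i v) ∈ X.Λ
  cone : ∀ x : ∀ i, (F i).N, iso x ∈ X.K ↔ ∀ i, x i ∈ (F i).K
  auto : ∀ a : ∀ i, (F i).A, ∃ b : X.A, ∀ x : ∀ i, (F i).N,
    X.act b (iso x) = iso (fun i => (F i).act (a i) (x i))

/-- `Y` is the quotient of `X` by the finite group `G` of automorphisms: pull-back identifies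
`N¹(Y)` with the invariants of `N¹(X)`, rationally also the lattices, the cone of `Y` is the
invariant part of that of `X`, and the automorphisms of `X` commuting with `G` descend to `Y`. -/
structure IsQuotient (X : Dat) (G : Subgroup X.A) (Y : Dat) where
  pull : Y.N →ₗ[ℝ] X.N
  injective : Function.Injective pull
  invariant : ∀ y, ∀ g ∈ G, X.act g (pull y) = pull y
  surjective : ∀ x, (∀ g ∈ G, X.act g x = x) → ∃ y, pull y = x
  lattice : ∀ y, pull y ∈ X.Λ → ∃ n : ℕ, 0 < n ∧ (n : ℝ) • y ∈ Y.Λ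
  cone : ∀ y, y ∈ Y.K ↔ pull y ∈ X.K
  descend : ∀ h : X.A, (∀ g ∈ G, h * g = g * h) → ∃ b : Y.A, ∀ y, pull (Y.act b y) = X.act h (pull y)

/-- The kernel of the action on `N¹` contains, with finite index, a normal subgroup of `A` which is
commutative, divisible, and has finitely many elements of each finite order (the group of points of
an abelian variety, `Aut⁰(X)`, or the trivial group). -/
def KernelCondition (X : Dat) : Prop :=
  ∃ D : Subgroup X.A, D.Normal ∧ (∀ d ∈ D, X.act d = 1) ∧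
    (∀ d ∈ D, ∀ d' ∈ D, d * d' = d' * d) ∧
    (∀ n : ℕ, 0 < n → ∀ d ∈ D, ∃ t ∈ D, t ^ n = d) ∧
    (∀ n : ℕ, 0 < n → {d : X.A | d ∈ D ∧ d ^ n = 1}.Finite) ∧
    ∃ S : Finset X.A, ∀ a, X.act a = 1 → ∃ s ∈ S, ∃ d ∈ D, a = s * d

section basics

variable (X : Dat)

theorem core (ξ : X.N →ₗ[ℝ] ℝ) (h1 : ∀ v ∈ X.Λ, ∃ n : ℤ, ξ v = n)
    (h2 : ∀ x ∈ closure X.K, x ≠ 0 → 0 < ξ x) : Core X.Λ (interior X.K) X.act.range ξ where
  fin := lat_fin X.lattice
  span := lat_span X.lattice
  opn := isOpen_interior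
  ne := X.interior_nonempty
  add := by
    intro x hx y hy
    have ho : IsOpen ((fun z => z - y) ⁻¹' interior X.K) := isOpen_interior.preimage (by fun_prop)
    have hs : ((fun z => z - y) ⁻¹' interior X.K) ⊆ X.K := by
      intro z hz
      have := X.add_mem _ (interior_subset hz) _ (interior_subset hy)
      simpa using this
    exact interior_maximal hs ho (by simpa using hx)
  smul := by
    intro t ht x hx
    have ho : IsOpen ((fun z => t⁻¹ • z) ⁻¹' interior X.K) := isOpen_interior.preimage (by fun_prop)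
    have hs : ((fun z => t⁻¹ • z) ⁻¹' interior X.K) ⊆ X.K := by
      intro z hz
      have := X.smul_mem t ht.le _ (interior_subset hz)
      simpa [smul_smul, ht.ne'] using this
    refine interior_maximal hs ho ?_
    simpa [smul_smul, ht.ne'] using hx
  mapΛ := by
    rintro _ ⟨a, rfl⟩ v hv
    exact X.act_lattice a v hv
  mapC := by
    rintro _ ⟨a, rfl⟩ x hx
    have hc : Continuous (fun z => X.act a⁻¹ z) :=
      LinearMap.continuous_of_finiteDimensional ((X.act a⁻¹ : X.N ≃ₗ[ℝ] X.N) : X.N →ₗ[ℝ] X.N)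
    have ho : IsOpen ((fun z => X.act a⁻¹ z) ⁻¹' interior X.K) := isOpen_interior.preimage hc
    have hs : ((fun z => X.act a⁻¹ z) ⁻¹' interior X.K) ⊆ X.K := by
      intro z hz
      have := X.act_mem a _ (interior_subset hz)
      rw [← LinearEquiv.mul_apply, ← map_mul, mul_inv_cancel, map_one] at this
      exact this
    refine interior_maximal hs ho ?_
    rw [mem_preimage, ← LinearEquiv.mul_apply, ← map_mul, inv_mul_cancel, map_one]
    exact hx
  int := h1
  pos := fun x hx h0 => h2 x (closure_mono interior_subset hx) h0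

theorem exists_core : ∃ ξ, Core X.Λ (interior X.K) X.act.range ξ := by
  obtain ⟨ξ, h1, h2⟩ := X.degree
  exact ⟨ξ, X.core ξ h1 h2⟩

theorem add_interior {x c : X.N} (hx : x ∈ X.K) (hc : c ∈ interior X.K) :
    x + c ∈ interior X.K := by
  have ho : IsOpen ((fun z => z - x) ⁻¹' interior X.K) := isOpen_interior.preimage (by fun_prop)
  have hs : ((fun z => z - x) ⁻¹' interior X.K) ⊆ X.K := by
    intro z hz
    have := X.add_mem _ hx _ (interior_subset hz)
    simpa using this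
  refine interior_maximal hs ho ?_
  simpa using hc

theorem subset_clos {x : X.N} (hx : x ∈ X.K) : x ∈ closure (interior X.K) := by
  obtain ⟨ξ, h⟩ := X.exists_core
  obtain ⟨c, hc⟩ := X.interior_nonempty
  have hcont : Continuous (fun t : ℝ => x + t • c) := by fun_prop
  have h0 : (0 : ℝ) ∈ closure (Set.Ioi (0 : ℝ)) := by rw [closure_Ioi]; simp
  have := map_mem_closure (f := fun t : ℝ => x + t • c) (t := interior X.K) hcont h0
    (fun t ht => X.add_interior hx (h.smul t ht c hc))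
  simpa using this

/-- every class in the cone is a non-negative combination of integral classes in the cone -/
def RatSpanned : Prop :=
  ∀ x ∈ X.K, ∃ E : Finset X.N, (∀ e ∈ E, e ∈ X.Λ ∧ e ∈ X.K) ∧ x ∈ MK.cone E

/-- a rational polyhedral cone whose translates cover the cone -/
def Covered : Prop :=
  ∃ E : Finset X.N, (∀ e ∈ E, e ∈ X.Λ ∧ e ∈ X.K) ∧
    ∀ x ∈ X.K, ∃ a : X.A, ∃ y ∈ MK.cone E, X.act a y = x

/-- a rational polyhedral cone whose translates cover the open cone -/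
def OpenCovered : Prop :=
  ∃ E : Finset X.N, (∀ e ∈ E, e ∈ X.Λ ∧ e ∈ X.K) ∧
    ∀ x ∈ interior X.K, ∃ a : X.A, ∃ y ∈ MK.cone E, X.act a y = x

variable {X}

theorem cone_sub {E : Finset X.N} (hE : ∀ e ∈ E, e ∈ X.K) : MK.cone E ⊆ X.K :=
  cone_le X.zero_mem X.add_mem X.smul_mem hE

theorem covered_of_conj (h : X.ConeConjecture) : X.Covered := by
  obtain ⟨E, hE, hK, -⟩ := h
  have hsub : MK.cone E ⊆ X.K := by
    intro x hx
    rw [hK, Set.mem_iUnion]
    exact ⟨1, x, hx, by rw [map_one]; rfl⟩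
  refine ⟨E, fun e he => ⟨hE e he, hsub (cone_of_mem he)⟩, fun x hx => ?_⟩
  rw [hK, Set.mem_iUnion] at hx
  obtain ⟨a, y, hy, hyx⟩ := hx
  exact ⟨a, y, hy, hyx⟩

theorem ratSpanned_of_covered (h : X.Covered) : X.RatSpanned := by
  classical
  obtain ⟨E, hE, hcov⟩ := h
  intro x hx
  obtain ⟨a, y, hy, rfl⟩ := hcov x hx
  refine ⟨E.image (X.act a), ?_, ?_⟩
  · intro e he
    obtain ⟨e', he', rfl⟩ := Finset.mem_image.1 he
    exact ⟨X.act_lattice a _ (hE e' he').1, X.act_mem a _ (hE e' he').2⟩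
  · obtain ⟨c, hc, rfl⟩ := hy
    rw [map_sum]
    refine cone_sum _ _ (fun e he => ?_)
    rw [map_smul]
    exact cone_smul (hc e he) (cone_of_mem (Finset.mem_image_of_mem _ he))

theorem conj_of (h1 : X.RatSpanned) (h2 : X.OpenCovered) : X.ConeConjecture := by
  obtain ⟨ξ, h⟩ := X.exists_core
  obtain ⟨E, hE, hcov⟩ := h2
  obtain ⟨E3, hE3, hK, hdis⟩ := h.domain X.lattice (K := X.K) (by
      intro x hx
      obtain ⟨F, hF, hxF⟩ := h1 x hx
      exact ⟨F, fun e he => ⟨(hF e he).1, X.subset_clos (hF e he).2⟩, hxF⟩)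
    X.zero_mem X.add_mem X.smul_mem (by
      rintro _ ⟨a, rfl⟩ x hx
      exact X.act_mem a x hx) E hE (by
      intro x hx
      obtain ⟨a, y, hy, hyx⟩ := hcov x hx
      exact ⟨X.act a, ⟨a, rfl⟩, y, hy, hyx⟩)
  refine ⟨E3, hE3, ?_, fun a ha => hdis _ ⟨a, rfl⟩ ha⟩
  rw [hK]
  ext x
  simp only [Set.mem_iUnion, MonoidHom.mem_range]
  constructor
  · rintro ⟨_, ⟨a, rfl⟩, hx⟩; exact ⟨a, hx⟩
  · rintro ⟨a, hx⟩; exact ⟨_, ⟨a, rfl⟩, hx⟩

end basics

section product

variable {I : Type} [Fintype I] [DecidableEq I] {F : I → Dat} {X : Dat}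

theorem product_covered (P : IsProduct F X) (h : ∀ i, (F i).Covered) : X.Covered := by
  classical
  choose E hE hcov using h
  refine ⟨Finset.univ.biUnion (fun i => (E i).image (fun e => P.iso (Pi.single i e))), ?_, ?_⟩
  · intro e he
    obtain ⟨i, -, hi⟩ := Finset.mem_biUnion.1 he
    obtain ⟨e', he', rfl⟩ := Finset.mem_image.1 hi
    refine ⟨P.lattice i _ (hE i e' he').1, (P.cone _).2 (fun j => ?_)⟩
    by_cases hj : j = i
    · subst hj; simpa using (hE j e' he').2
    · rw [Pi.single_eq_of_ne hj]; exact (F j).zero_mem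
  · intro x hx
    obtain ⟨x', rfl⟩ := P.iso.surjective x
    have hx' := (P.cone x').1 hx
    choose a y hy hay using fun i => hcov i (x' i) (hx' i)
    obtain ⟨b, hb⟩ := P.auto a
    refine ⟨b, P.iso y, ?_, ?_⟩
    · have e1 : y = ∑ i, Pi.single i (y i) := (Finset.univ_sum_single y).symm
      rw [e1, map_sum]
      refine cone_sum _ _ (fun i _ => ?_)
      obtain ⟨c, hc, hyc⟩ := hy i
      have e2 : P.iso (Pi.single i (y i)) = ∑ e ∈ E i, c e • P.iso (Pi.single i e) := by
        have l : ∀ v : (F i).N, P.iso (Pi.single i v)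
            = (P.iso.toLinearMap ∘ₗ LinearMap.single ℝ (fun i => (F i).N) i) v := fun v => rfl
        rw [l, hyc, map_sum]
        refine Finset.sum_congr rfl (fun e _ => ?_)
        rw [map_smul, ← l]
      rw [e2]
      refine cone_sum _ _ (fun e he => cone_smul (hc e he) (cone_of_mem ?_))
      exact Finset.mem_biUnion.2 ⟨i, Finset.mem_univ i, Finset.mem_image_of_mem _ he⟩
    · rw [hb]
      congr 1
      funext i
      exact hay i

end product

section quotient

variable {X : Dat} {G : Subgroup X.A} [Finite G] {Y : Dat}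

theorem avg_inv (x : X.N) [Fintype G] : ∀ g ∈ G,
    X.act g (∑ k : G, X.act (k : X.A) x) = ∑ k : G, X.act (k : X.A) x := by
  intro g hg
  rw [map_sum]
  refine Fintype.sum_equiv (Equiv.mulLeft (⟨g, hg⟩ : G)) _ _ (fun k => ?_)
  simp [map_mul, LinearEquiv.mul_apply]

/-- an invariant rational polyhedral cone descends to the quotient -/
theorem descend_cone (Q : IsQuotient X G Y) (E : Finset X.N)
    (hE : ∀ e ∈ E, e ∈ X.Λ ∧ e ∈ X.K) :
    ∃ E' : Finset Y.N, (∀ e ∈ E', e ∈ Y.Λ ∧ e ∈ Y.K) ∧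
      ∀ y, Q.pull y ∈ MK.cone E → y ∈ MK.cone E' := by
  classical
  haveI := Fintype.ofFinite G
  have hsel : ∀ e : X.N, ∃ u : Y.N, Q.pull u = ∑ k : G, X.act (k : X.A) e :=
    fun e => Q.surjective _ (avg_inv e)
  choose u hu using hsel
  have hsel2 : ∀ e : X.N, ∃ n : ℕ, 0 < n ∧ (e ∈ E → (n : ℝ) • u e ∈ Y.Λ) := by
    intro e
    by_cases he : e ∈ E
    · obtain ⟨n, hn, hn'⟩ := Q.lattice (u e) (by
        rw [hu]
        exact AddSubgroup.sum_mem _ (fun k _ => X.act_lattice _ _ (hE e he).1))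
      exact ⟨n, hn, fun _ => hn'⟩
    · exact ⟨1, one_pos, fun h => absurd h he⟩
  choose n hn hnL using hsel2
  have hsumK : ∀ (s : Finset G) (e : X.N), e ∈ X.K → ∑ k ∈ s, X.act (k : X.A) e ∈ X.K := by
    intro s e he
    induction s using Finset.induction_on with
    | empty => simpa using X.zero_mem
    | insert a s ha ih =>
      rw [Finset.sum_insert ha]
      exact X.add_mem _ (X.act_mem _ _ he) _ ih
  refine ⟨E.image (fun e => (n e : ℝ) • u e), ?_, ?_⟩
  · intro e he
    obtain ⟨e', he', rfl⟩ := Finset.mem_image.1 he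
    refine ⟨hnL e' he', Y.smul_mem _ (by positivity) _ ((Q.cone _).2 ?_)⟩
    rw [hu]
    exact hsumK Finset.univ e' (hE e' he').2
  · rintro y ⟨c, hc, hy⟩
    have hcard : (0 : ℝ) < Fintype.card G := by exact_mod_cast Fintype.card_pos
    have e1 : (Fintype.card G : ℝ) • Q.pull y = Q.pull (∑ e ∈ E, c e • u e) := by
      have l1 : (Fintype.card G : ℝ) • Q.pull y = ∑ k : G, X.act (k : X.A) (Q.pull y) := by
        rw [Finset.sum_congr rfl (fun k _ => Q.invariant y k.1 k.2), Finset.sum_const,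
          Finset.card_univ, Nat.cast_smul_eq_nsmul ℝ]
      rw [l1, hy, map_sum]
      simp only [map_sum, map_smul, hu]
      rw [Finset.sum_comm]
      simp only [Finset.smul_sum]
    have e2 : y = ∑ e ∈ E, (c e / (Fintype.card G * n e)) • ((n e : ℝ) • u e) := by
      apply Q.injective
      have : Q.pull y = (Fintype.card G : ℝ)⁻¹ • Q.pull (∑ e ∈ E, c e • u e) := by
        rw [← e1, smul_smul, inv_mul_cancel₀ hcard.ne', one_smul]
      rw [this, ← map_smul, Finset.smul_sum]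
      congr 1
      refine Finset.sum_congr rfl (fun e _ => ?_)
      rw [smul_smul, smul_smul]
      congr 1
      have : (n e : ℝ) ≠ 0 := by exact_mod_cast (hn e).ne'
      field_simp
    rw [e2]
    refine cone_sum _ _ (fun e he => cone_smul ?_ (cone_of_mem (Finset.mem_image_of_mem _ he)))
    exact div_nonneg (hc e he) (by positivity)

theorem quotient_ratSpanned (Q : IsQuotient X G Y) (h : X.RatSpanned) : Y.RatSpanned := by
  intro y hy
  obtain ⟨E, hE, hyE⟩ := h _ ((Q.cone y).1 hy)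
  obtain ⟨E', hE', hd⟩ := descend_cone Q E hE
  exact ⟨E', hE', hd y hyE⟩

theorem quotient_interior (Q : IsQuotient X G Y) {y : Y.N} (hy : y ∈ interior Y.K) :
    Q.pull y ∈ interior X.K := by
  classical
  haveI := Fintype.ofFinite G
  obtain ⟨ξ, h⟩ := X.exists_core
  obtain ⟨c, hc⟩ := X.interior_nonempty
  obtain ⟨u, hu⟩ := Q.surjective _ (avg_inv (X := X) (G := G) c)
  have hcu : Q.pull u ∈ interior X.K := by
    rw [hu]
    have : ∀ s : Finset G, s.Nonempty → ∑ k ∈ s, X.act (k : X.A) c ∈ interior X.K := by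
      intro s hs
      induction hs using Finset.Nonempty.cons_induction with
      | singleton a => simpa using h.mapC _ ⟨(a : X.A), rfl⟩ c hc
      | cons a s ha hs ih =>
        rw [Finset.sum_cons]
        exact h.add _ (h.mapC _ ⟨(a : X.A), rfl⟩ c hc) _ ih
    exact this Finset.univ ⟨1, Finset.mem_univ _⟩
  obtain ⟨ξY, hY⟩ := Y.exists_core
  obtain ⟨δ, hδ, hd⟩ := hY.near hy u
  have h1 := interior_subset (hd (-δ) (by rw [abs_neg, abs_of_pos hδ]))
  have h2 := (Q.cone _).1 h1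
  rw [map_add, map_smul] at h2
  have h3 := X.add_interior h2 (h.smul δ hδ _ hcu)
  have e : Q.pull y + -δ • Q.pull u + δ • Q.pull u = Q.pull y := by
    rw [neg_smul]; abel
  rwa [e] at h3

/-- finitely many lifts up to the kernel -/
def FiniteLifts (X : Dat) (G : Subgroup X.A) : Prop :=
  ∀ θ : G → (X.N ≃ₗ[ℝ] X.N), ∃ T : Set (G → X.A), T.Finite ∧
    ∀ ψ : G →* X.A, (∀ g, X.act (ψ g) = θ g) →
      ∃ ψ' ∈ T, ∃ k : X.A, X.act k = 1 ∧ ∀ g, ψ g = k⁻¹ * ψ' g * k

theorem quotient_openCovered (Q : IsQuotient X G Y) (hFL : FiniteLifts X G) (hW : X.Covered) :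
    Y.OpenCovered := by
  classical
  haveI := Fintype.ofFinite G
  obtain ⟨ξ, h⟩ := X.exists_core
  obtain ⟨E, hE, hcov⟩ := hW
  have hEc : ∀ e ∈ E, e ∈ X.Λ ∧ e ∈ closure (interior X.K) :=
    fun e he => ⟨(hE e he).1, X.subset_clos (hE e he).2⟩
  have hS := h.siegel E hEc
  set S := {γ : X.N ≃ₗ[ℝ] X.N | γ ∈ X.act.range ∧ ∃ y ∈ interior X.K, y ∈ MK.cone E ∧
    γ y ∈ MK.cone E} with hSdef
  -- the elements `a` carrying a point of the cone to an invariant point
  let good : X.A → Prop := fun a => ∃ z ∈ interior X.K, z ∈ MK.cone E ∧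
    ∀ g ∈ G, X.act g (X.act a z) = X.act a z
  let φ : X.A → (G →* X.A) := fun a => (MulAut.conj a⁻¹).toMonoidHom.comp G.subtype
  have hφ : ∀ a (g : G), φ a g = a⁻¹ * g * a := by
    intro a g
    simp [φ, MulAut.conj_apply]
  have hφS : ∀ a, good a → ∀ g : G, X.act (φ a g) ∈ S := by
    rintro a ⟨z, hz, hzE, hinv⟩ g
    have hfix : X.act (φ a g) z = z := by
      rw [hφ, map_mul, map_mul, LinearEquiv.mul_apply, LinearEquiv.mul_apply, hinv g.1 g.2,
        ← LinearEquiv.mul_apply, ← map_mul, inv_mul_cancel, map_one]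
      rfl
    exact ⟨⟨_, rfl⟩, z, hz, hzE, by rw [hfix]; exact hzE⟩
  choose T hT hTl using hFL
  have hΘ : (Set.pi univ (fun _ : G => S)).Finite := Set.Finite.pi (fun _ => hS)
  have hP : (⋃ θ ∈ Set.pi univ (fun _ : G => S), T θ).Finite :=
    Set.Finite.biUnion hΘ (fun θ _ => hT θ)
  let rep : (G → X.A) → X.A := fun ψ' =>
    if hx : ∃ a, good a ∧ ∃ k, X.act k = 1 ∧ ∀ g, φ a g = k⁻¹ * ψ' g * k then hx.choose else 1
  have hA0 : (rep '' (⋃ θ ∈ Set.pi univ (fun _ : G => S), T θ)).Finite := hP.image rep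
  have key : ∀ a, good a → ∃ a' ∈ rep '' (⋃ θ ∈ Set.pi univ (fun _ : G => S), T θ), ∃ h' : X.A,
      (∀ g ∈ G, h' * g = g * h') ∧ X.act a' = X.act h' * X.act a := by
    intro a ha
    obtain ⟨ψ', hψ', k1, hk1, hk1'⟩ := hTl (fun g => X.act (φ a g)) (φ a) (fun g => rfl)
    have hx : ∃ a, good a ∧ ∃ k, X.act k = 1 ∧ ∀ g, φ a g = k⁻¹ * ψ' g * k :=
      ⟨a, ha, k1, hk1, hk1'⟩
    have hrep : rep ψ' = hx.choose := dif_pos hx
    obtain ⟨ha', k2, hk2, hk2'⟩ := hx.choose_spec
    rw [← hrep] at ha' hk2'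
    have hmem : ψ' ∈ ⋃ θ ∈ Set.pi univ (fun _ : G => S), T θ := by
      rw [Set.mem_iUnion₂]
      exact ⟨_, fun g _ => hφS a ha g, hψ'⟩
    set a' := rep ψ' with ha'def
    set k : X.A := k2⁻¹ * k1 with hk
    have hrel : ∀ g : G, a⁻¹ * g * a = k⁻¹ * (a'⁻¹ * g * a') * k := by
      intro g
      have e1 := hk1' g
      have e2 := hk2' g
      rw [hφ] at e1 e2
      have e3 : ψ' g = k2 * (a'⁻¹ * g * a') * k2⁻¹ := by rw [e2]; group
      rw [e1, e3, hk]
      group
    refine ⟨a', ⟨ψ', hmem, rfl⟩, a' * k * a⁻¹, ?_, ?_⟩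
    · intro g hg
      have e := hrel ⟨g, hg⟩
      simp only at e
      have e4 : (a' * k) * (a⁻¹ * g * a) = (a' * k) * (k⁻¹ * (a'⁻¹ * g * a') * k) := by rw [e]
      have e5 : a' * k * a⁻¹ * g * a = g * (a' * k) := by
        calc a' * k * a⁻¹ * g * a = (a' * k) * (a⁻¹ * g * a) := by group
          _ = (a' * k) * (k⁻¹ * (a'⁻¹ * g * a') * k) := e4
          _ = g * (a' * k) := by group
      calc a' * k * a⁻¹ * g = (a' * k * a⁻¹ * g * a) * a⁻¹ := by group
        _ = (g * (a' * k)) * a⁻¹ := by rw [e5]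
        _ = g * (a' * k * a⁻¹) := by group
    · have hkact : X.act k = 1 := by
        rw [hk, map_mul, map_inv, hk1, hk2]; simp
      rw [map_mul, map_mul, hkact, mul_one, mul_assoc, ← map_mul, inv_mul_cancel, map_one, mul_one]
  -- the finite set of vectors
  set EX : Finset X.N := (hA0.toFinset ×ˢ E).image (fun p => X.act p.1 p.2) with hEX
  have hEX' : ∀ e ∈ EX, e ∈ X.Λ ∧ e ∈ X.K := by
    intro e he
    obtain ⟨⟨a', e'⟩, hp, rfl⟩ := Finset.mem_image.1 he
    obtain ⟨-, h2⟩ := Finset.mem_product.1 hp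
    exact ⟨X.act_lattice _ _ (hE e' h2).1, X.act_mem _ _ (hE e' h2).2⟩
  obtain ⟨E', hE', hd⟩ := descend_cone Q EX hEX'
  refine ⟨E', hE', fun y hy => ?_⟩
  have hx : Q.pull y ∈ interior X.K := quotient_interior Q hy
  obtain ⟨a, z, hz, haz⟩ := hcov _ (interior_subset hx)
  have hzC : z ∈ interior X.K := h.map_inv_mem (γ := X.act a) ⟨a, rfl⟩ (by rw [haz]; exact hx)
  have hgood : good a := ⟨z, hzC, hz, fun g hg => by rw [haz]; exact Q.invariant y g hg⟩
  obtain ⟨a', ha', h', hcomm, hact⟩ := key a hgood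
  obtain ⟨b, hb⟩ := Q.descend h' hcomm
  have hin : Q.pull (Y.act b y) ∈ MK.cone EX := by
    rw [hb, ← haz, ← LinearEquiv.mul_apply, ← hact]
    obtain ⟨c, hc, rfl⟩ := hz
    rw [map_sum]
    refine cone_sum _ _ (fun e he => ?_)
    rw [map_smul]
    refine cone_smul (hc e he) (cone_of_mem ?_)
    exact Finset.mem_image.2 ⟨(a', e), Finset.mem_product.2 ⟨hA0.mem_toFinset.2 ha', he⟩, rfl⟩
  refine ⟨b⁻¹, Y.act b y, hd _ hin, ?_⟩
  rw [← LinearEquiv.mul_apply, ← map_mul, inv_mul_cancel, map_one]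
  rfl

end quotient

end Dat

end Pool.Agent.TH30.MK
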