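import Pool.Agent.TH30.MK.Siegel

/-!
# Rational polyhedral fundamental domains (Looijenga's theorem, elementary form)
-/

namespace Pool.Agent.TH30.MK

open Set

set_option linter.unusedSectionVars false

variable {V : Type*} [NormedAddCommGroup V] [NormedSpace ℝ V]

section ConeLemmas

theorem cone_zero (E : Finset V) : (0 : V) ∈ cone E :=
  ⟨fun _ => 0, fun _ _ => le_refl _, by simp⟩

theorem cone_add {E : Finset V} {x y : V} (hx : x ∈ cone E) (hy : y ∈ cone E) :
    x + y ∈ cone E := by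
  obtain ⟨c, hc, rfl⟩ := hx
  obtain ⟨d, hd, rfl⟩ := hy
  refine ⟨fun e => c e + d e, fun e he => add_nonneg (hc e he) (hd e he), ?_⟩
  simp [add_smul, Finset.sum_add_distrib]

theorem cone_smul {E : Finset V} {x : V} {t : ℝ} (ht : 0 ≤ t) (hx : x ∈ cone E) :
    t • x ∈ cone E := by
  obtain ⟨c, hc, rfl⟩ := hx
  refine ⟨fun e => t * c e, fun e he => mul_nonneg ht (hc e he), ?_⟩
  simp [Finset.smul_sum, smul_smul]

theorem cone_sum {E : Finset V} {κ : Type*} (s : Finset κ) (f : κ → V)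
    (h : ∀ i ∈ s, f i ∈ cone E) : (∑ i ∈ s, f i) ∈ cone E := by
  classical
  induction s using Finset.induction_on with
  | empty => simpa using cone_zero E
  | insert a s ha ih =>
    rw [Finset.sum_insert ha]
    exact cone_add (h a (Finset.mem_insert_self a s))
      (ih (fun i hi => h i (Finset.mem_insert_of_mem hi)))

theorem cone_of_mem {E : Finset V} {e : V} (he : e ∈ E) : e ∈ cone E := by
  classical
  refine ⟨fun v => if v = e then 1 else 0, fun v _ => by positivity, ?_⟩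
  simp [he]

theorem cone_le {E : Finset V} {K : Set V} (h0 : (0 : V) ∈ K)
    (hadd : ∀ x ∈ K, ∀ y ∈ K, x + y ∈ K) (hsmul : ∀ t : ℝ, 0 ≤ t → ∀ x ∈ K, t • x ∈ K)
    (hE : ∀ e ∈ E, e ∈ K) : cone E ⊆ K := by
  classical
  rintro x ⟨c, hc, rfl⟩
  have : ∀ s : Finset V, s ⊆ E → (∑ e ∈ s, c e • e) ∈ K := by
    intro s
    induction s using Finset.induction_on with
    | empty => intro _; simpa using h0
    | insert a s ha ih =>
      intro hs
      rw [Finset.sum_insert ha]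
      have haE : a ∈ E := hs (Finset.mem_insert_self a s)
      exact hadd _ (hsmul _ (hc a haE) _ (hE a haE)) _
        (ih (fun i hi => hs (Finset.mem_insert_of_mem hi)))
  exact this E (Finset.Subset.refl E)

theorem cone_le_cone {E F : Finset V} (hE : ∀ e ∈ E, e ∈ cone F) : cone E ⊆ cone F :=
  cone_le (cone_zero F) (fun _ hx _ hy => cone_add hx hy) (fun _ ht _ hx => cone_smul ht hx) hE

theorem cone_mono {E F : Finset V} (h : E ⊆ F) : cone E ⊆ cone F :=
  cone_le_cone (fun _ he => cone_of_mem (h he))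

/-- a finitely generated cone on which a linear form is positive away from `0` is closed -/
theorem cone_closed (E : Finset V) (ξ : V →L[ℝ] ℝ) (hpos : ∀ e ∈ E, e ≠ 0 → 0 < ξ e) :
    IsClosed (cone E) := by
  classical
  rw [← closure_subset_iff_isClosed]
  intro y hy
  set B : ℝ := |ξ y| + 1 with hB
  have hB0 : 0 < B := by positivity
  set box : Set (V → ℝ) := Set.pi univ (fun v => Icc (0 : ℝ) |B / ξ v|) with hbox
  have hbc : IsCompact box := isCompact_univ_pi (fun v => isCompact_Icc)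
  set Φ : (V → ℝ) → V := fun c => ∑ e ∈ E, c e • e with hΦ
  have hΦc : Continuous Φ := by
    refine continuous_finset_sum _ (fun e _ => ?_)
    exact (continuous_apply e).smul continuous_const
  have himg : IsClosed (Φ '' box) := (hbc.image hΦc).isClosed
  have hsub : Φ '' box ⊆ cone E := by
    rintro _ ⟨c, hc, rfl⟩
    exact ⟨c, fun e _ => (hc e (mem_univ e)).1, rfl⟩
  have hsub2 : cone E ∩ {v | ξ v < B} ⊆ Φ '' box := by
    rintro x ⟨⟨c, hc, rfl⟩, hx⟩
    rw [mem_ofPred_eq] at hx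
    have hnn : ∀ e ∈ E, 0 ≤ c e * ξ e := by
      intro e he
      by_cases h0 : e = 0
      · rw [h0]; simp
      · exact mul_nonneg (hc e he) (hpos e he h0).le
    have hs : ξ (∑ e ∈ E, c e • e) = ∑ e ∈ E, c e * ξ e := by simp [map_sum]
    rw [hs] at hx
    refine ⟨fun v => if v ∈ E ∧ v ≠ 0 then c v else 0, ?_, ?_⟩
    · rw [hbox, Set.mem_univ_pi]
      intro v
      by_cases hv : v ∈ E ∧ v ≠ 0
      · simp only [hv, ne_eq, not_false_eq_true, and_self, if_true]
        refine ⟨hc v hv.1, le_trans ?_ (le_abs_self _)⟩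
        have hp := hpos v hv.1 hv.2
        rw [le_div_iff₀ hp]
        exact (Finset.single_le_sum hnn hv.1).trans hx.le
      · simp only [hv, if_false]
        exact ⟨le_refl _, abs_nonneg _⟩
    · simp only [hΦ]
      refine Finset.sum_congr rfl (fun e he => ?_)
      by_cases h0 : e = 0
      · rw [h0]; simp
      · simp [he, h0]
  have hyU : y ∈ {v | ξ v < B} := by
    rw [mem_ofPred_eq, hB]
    linarith [le_abs_self (ξ y)]
  have hop : IsOpen {v | ξ v < B} := isOpen_lt ξ.continuous continuous_const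
  have h1 : y ∈ closure (cone E ∩ {v | ξ v < B}) := by
    rw [mem_closure_iff] at hy ⊢
    intro U hU hyU'
    obtain ⟨z, hz1, hz2⟩ := hy (U ∩ {v | ξ v < B}) (hU.inter hop) ⟨hyU', hyU⟩
    exact ⟨z, hz1.1, hz2, hz1.2⟩
  have h2 : y ∈ Φ '' box := by
    have := closure_mono hsub2 h1
    rwa [himg.closure_eq] at this
  exact hsub h2

theorem sum_split {M : Type*} [AddCommMonoid M] (E : Finset V) (η : V →ₗ[ℝ] ℝ) (f : V → M) :
    ∑ e ∈ E, f e = ∑ e ∈ E.filter (fun e => η e = 0), f e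
      + (∑ e ∈ E.filter (fun e => 0 < η e), f e + ∑ e ∈ E.filter (fun e => η e < 0), f e) := by
  classical
  rw [← Finset.sum_filter_add_sum_filter_not E (fun e => η e = 0) f]
  congr 1
  rw [← Finset.sum_filter_add_sum_filter_not (E.filter (fun e => ¬ η e = 0))
    (fun e => 0 < η e) f]
  congr 1
  · refine Finset.sum_congr ?_ (fun _ _ => rfl)
    ext e
    simp only [Finset.mem_filter]
    constructor
    · rintro ⟨⟨h1, h2⟩, h3⟩; exact ⟨h1, h3⟩
    · rintro ⟨h1, h3⟩; exact ⟨⟨h1, h3.ne'⟩, h3⟩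
  · refine Finset.sum_congr ?_ (fun _ _ => rfl)
    ext e
    simp only [Finset.mem_filter]
    constructor
    · rintro ⟨⟨h1, h2⟩, h3⟩
      exact ⟨h1, lt_of_le_of_ne (not_lt.1 h3) h2⟩
    · rintro ⟨h1, h3⟩; exact ⟨⟨h1, h3.ne⟩, not_lt.2 h3.le⟩

/-- one step of the double description method -/
theorem cone_half (Λ : AddSubgroup V) (E : Finset V) (hE : ∀ e ∈ E, e ∈ Λ) (η : V →ₗ[ℝ] ℝ)
    (hη : ∀ v ∈ Λ, ∃ n : ℤ, η v = n) :
    ∃ E' : Finset V, (∀ e ∈ E', e ∈ Λ) ∧ cone E' = cone E ∩ {x | 0 ≤ η x} := by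
  classical
  set A0 : Finset V := E.filter (fun e => 0 ≤ η e) with hA0
  set Ap : Finset V := E.filter (fun e => 0 < η e) with hAp
  set An : Finset V := E.filter (fun e => η e < 0) with hAn
  set P2 : Finset V := (Ap ×ˢ An).image (fun p => η p.1 • p.2 - η p.2 • p.1) with hP2
  have hzs : ∀ v ∈ Λ, ∀ w ∈ Λ, η v • w ∈ Λ := by
    intro v hv w hw
    obtain ⟨n, hn⟩ := hη v hv
    rw [hn, Int.cast_smul_eq_zsmul ℝ]
    exact Λ.zsmul_mem hw n
  refine ⟨A0 ∪ P2, ?_, ?_⟩
  · intro e he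
    rcases Finset.mem_union.1 he with h | h
    · exact hE e (Finset.mem_filter.1 h).1
    · obtain ⟨⟨a, b⟩, hab, rfl⟩ := Finset.mem_image.1 h
      obtain ⟨ha, hb⟩ := Finset.mem_product.1 hab
      have ha' := hE a (Finset.mem_filter.1 ha).1
      have hb' := hE b (Finset.mem_filter.1 hb).1
      exact Λ.sub_mem (hzs _ ha' _ hb') (hzs _ hb' _ ha')
  · apply Set.Subset.antisymm
    · refine cone_le ⟨cone_zero E, by simp⟩ ?_ ?_ ?_
      · rintro x ⟨hx, hx'⟩ y ⟨hy, hy'⟩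
        refine ⟨cone_add hx hy, ?_⟩
        rw [mem_ofPred_eq] at hx' hy' ⊢
        rw [map_add]; exact add_nonneg hx' hy'
      · rintro t ht x ⟨hx, hx'⟩
        refine ⟨cone_smul ht hx, ?_⟩
        rw [mem_ofPred_eq] at hx' ⊢
        rw [map_smul, smul_eq_mul]; exact mul_nonneg ht hx'
      · intro e he
        rcases Finset.mem_union.1 he with h | h
        · exact ⟨cone_of_mem (Finset.mem_filter.1 h).1, (Finset.mem_filter.1 h).2⟩
        · obtain ⟨⟨a, b⟩, hab, rfl⟩ := Finset.mem_image.1 h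
          obtain ⟨ha, hb⟩ := Finset.mem_product.1 hab
          obtain ⟨ha1, ha2⟩ := Finset.mem_filter.1 ha
          obtain ⟨hb1, hb2⟩ := Finset.mem_filter.1 hb
          refine ⟨?_, ?_⟩
          · have : η a • b - η b • a = η a • b + (- η b) • a := by rw [neg_smul]; abel
            simp only
            rw [this]
            exact cone_add (cone_smul ha2.le (cone_of_mem hb1))
              (cone_smul (by linarith) (cone_of_mem ha1))
          · rw [mem_ofPred_eq]
            simp only [map_sub, map_smul, smul_eq_mul]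
            rw [mul_comm]; simp
    · rintro x ⟨⟨c, hc, rfl⟩, hx⟩
      rw [mem_ofPred_eq] at hx
      have hAp0 : ∀ e ∈ Ap, e ∈ A0 := fun e he =>
        Finset.mem_filter.2 ⟨(Finset.mem_filter.1 he).1, (Finset.mem_filter.1 he).2.le⟩
      set P : ℝ := ∑ e ∈ Ap, c e * η e with hP
      set Q : ℝ := ∑ e ∈ An, c e * (- η e) with hQ
      set Xp : V := ∑ e ∈ Ap, c e • e with hXp
      set Xn : V := ∑ e ∈ An, c e • e with hXn
      set Xz : V := ∑ e ∈ E.filter (fun e => η e = 0), c e • e with hXz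
      have hxs : ∑ e ∈ E, c e • e = Xz + (Xp + Xn) := sum_split E η (fun e => c e • e)
      have hηs : η (∑ e ∈ E, c e • e) = P - Q := by
        have e1 : η (∑ e ∈ E, c e • e) = ∑ e ∈ E, c e * η e := by simp [map_sum]
        rw [e1, sum_split E η (fun e => c e * η e)]
        have e2 : ∑ e ∈ E.filter (fun e => η e = 0), c e * η e = 0 := by
          refine Finset.sum_eq_zero (fun e he => ?_)
          rw [(Finset.mem_filter.1 he).2, mul_zero]
        rw [e2, zero_add, hP, hQ]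
        simp only [mul_neg, Finset.sum_neg_distrib]
        ring
      rw [hηs] at hx
      have hcp : ∀ e ∈ Ap, 0 ≤ c e := fun e he => hc e (Finset.mem_filter.1 he).1
      have hcn : ∀ e ∈ An, 0 ≤ c e := fun e he => hc e (Finset.mem_filter.1 he).1
      have hQ0 : 0 ≤ Q := Finset.sum_nonneg (fun e he =>
        mul_nonneg (hcn e he) (by linarith [(Finset.mem_filter.1 he).2]))
      have hXzm : Xz ∈ cone (A0 ∪ P2) := by
        refine cone_sum _ _ (fun e he => ?_)
        obtain ⟨h1, h2⟩ := Finset.mem_filter.1 he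
        exact cone_smul (hc e h1) (cone_of_mem (Finset.mem_union_left _
          (Finset.mem_filter.2 ⟨h1, by rw [h2]⟩)))
      have hXpm : Xp ∈ cone (A0 ∪ P2) := by
        refine cone_sum _ _ (fun e he => ?_)
        exact cone_smul (hcp e he) (cone_of_mem (Finset.mem_union_left _ (hAp0 e he)))
      have hcross : P • Xn + Q • Xp ∈ cone (A0 ∪ P2) := by
        have e1 : P • Xn + Q • Xp
            = ∑ p ∈ Ap ×ˢ An, (c p.1 * c p.2) • (η p.1 • p.2 - η p.2 • p.1) := by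
          rw [Finset.sum_product, hP, hQ, hXn, hXp]
          rw [Finset.sum_smul, Finset.sum_smul]
          have l1 : ∑ i ∈ Ap, (c i * η i) • ∑ e ∈ An, c e • e
              = ∑ i ∈ Ap, ∑ j ∈ An, ((c i * η i) * c j) • j := by
            refine Finset.sum_congr rfl (fun i _ => ?_)
            rw [Finset.smul_sum]
            exact Finset.sum_congr rfl (fun j _ => by rw [smul_smul])
          have l2 : ∑ i ∈ An, (c i * - η i) • ∑ e ∈ Ap, c e • e
              = ∑ i ∈ Ap, ∑ j ∈ An, ((c j * - η j) * c i) • i := by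
            rw [Finset.sum_comm]
            refine Finset.sum_congr rfl (fun i _ => ?_)
            rw [Finset.smul_sum]
            exact Finset.sum_congr rfl (fun j _ => by rw [smul_smul])
          rw [l1, l2, ← Finset.sum_add_distrib]
          refine Finset.sum_congr rfl (fun i _ => ?_)
          rw [← Finset.sum_add_distrib]
          refine Finset.sum_congr rfl (fun j _ => ?_)
          rw [smul_sub, smul_smul, smul_smul, sub_eq_add_neg, ← neg_smul]
          congr 2 <;> ring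
        rw [e1]
        refine cone_sum _ _ (fun p hp => ?_)
        obtain ⟨h1, h2⟩ := Finset.mem_product.1 hp
        refine cone_smul (mul_nonneg (hcp _ h1) (hcn _ h2)) (cone_of_mem ?_)
        exact Finset.mem_union_right _ (Finset.mem_image.2 ⟨p, hp, rfl⟩)
      rw [hxs]
      rcases (le_trans hQ0 (by linarith : Q ≤ P)).eq_or_lt with hP0 | hP0
      · have hQz : Q = 0 := by linarith
        have hXn0 : Xn = 0 := by
          refine Finset.sum_eq_zero (fun e he => ?_)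
          have hnn : ∀ e ∈ An, 0 ≤ c e * (- η e) := fun e he =>
            mul_nonneg (hcn e he) (by linarith [(Finset.mem_filter.1 he).2])
          have := (Finset.sum_eq_zero_iff_of_nonneg hnn).1 hQz e he
          have hne : - η e ≠ 0 := by
            have := (Finset.mem_filter.1 he).2
            intro h; linarith
          rw [(mul_eq_zero.1 this).resolve_right hne, zero_smul]
        rw [hXn0, add_zero]
        exact cone_add hXzm hXpm
      · have e3 : Xz + (Xp + Xn) = Xz + ((1 - Q / P) • Xp + P⁻¹ • (P • Xn + Q • Xp)) := by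
          rw [smul_add, smul_smul, smul_smul, inv_mul_cancel₀ hP0.ne', one_smul, sub_smul, one_smul,
            div_eq_inv_mul]
          abel
        rw [e3]
        refine cone_add hXzm (cone_add (cone_smul ?_ hXpm) (cone_smul (inv_pos.2 hP0).le hcross))
        rw [sub_nonneg, div_le_one hP0]
        linarith

theorem cone_halves (Λ : AddSubgroup V) (E : Finset V) (hE : ∀ e ∈ E, e ∈ Λ)
    (S : Finset (V →ₗ[ℝ] ℝ)) (hS : ∀ η ∈ S, ∀ v ∈ Λ, ∃ n : ℤ, η v = n) :
    ∃ E' : Finset V, (∀ e ∈ E', e ∈ Λ) ∧ cone E' = cone E ∩ {x | ∀ η ∈ S, 0 ≤ η x} := by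
  classical
  induction S using Finset.induction_on with
  | empty => exact ⟨E, hE, by ext x; simp⟩
  | insert a s ha ih =>
    obtain ⟨E1, h1, h2⟩ := ih (fun η hη => hS η (Finset.mem_insert_of_mem hη))
    obtain ⟨E2, h3, h4⟩ := cone_half Λ E1 h1 a (hS a (Finset.mem_insert_self a s))
    refine ⟨E2, h3, ?_⟩
    rw [h4, h2]
    ext x
    simp only [mem_inter_iff, mem_ofPred_eq, Finset.mem_insert, forall_eq_or_imp]
    tauto

end ConeLemmas

/-- the rational closure of `C`: the cone spanned by the lattice points of the closure of `C` -/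
def plus (Λ : AddSubgroup V) (C : Set V) : Set V :=
  {x | ∃ F : Finset V, (∀ e ∈ F, e ∈ Λ ∧ e ∈ closure C) ∧ x ∈ cone F}

variable [FiniteDimensional ℝ V]
variable {Λ : AddSubgroup V} {C : Set V} {Γ : Subgroup (V ≃ₗ[ℝ] V)} {ξ : V →ₗ[ℝ] ℝ}

namespace Core

theorem cone_clos (h : Core Λ C Γ ξ) {E : Finset V} (hE : ∀ e ∈ E, e ∈ closure C) :
    cone E ⊆ closure C :=
  cone_le h.zero_mem_clos (fun _ hx _ hy => h.clos_add hx hy)
    (fun t ht x hx => by
      rcases ht.eq_or_lt with h0 | h0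
      · rw [← h0, zero_smul]; exact h.zero_mem_clos
      · exact h.clos_smul h0 hx) hE

theorem clos_add_mem (h : Core Λ C Γ ξ) {x y : V} (hx : x ∈ closure C) (hy : y ∈ C) :
    x + y ∈ C := by
  obtain ⟨r, hr, hb⟩ := Metric.isOpen_iff.1 h.opn y hy
  obtain ⟨c, hc, hd⟩ := Metric.mem_closure_iff.1 hx r hr
  have : y + (x - c) ∈ C := by
    apply hb
    rw [Metric.mem_ball, dist_eq_norm]
    simpa [dist_eq_norm] using hd
  have h2 := h.add _ hc _ this
  have e : c + (y + (x - c)) = x + y := by abel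
  rwa [e] at h2

theorem map_inv_mem (h : Core Λ C Γ ξ) {γ : V ≃ₗ[ℝ] V} (hγ : γ ∈ Γ) {y : V} (hy : γ y ∈ C) :
    y ∈ C := by
  have := h.mapC γ⁻¹ (Γ.inv_mem hγ) _ hy
  have e : (γ⁻¹ : V ≃ₗ[ℝ] V) (γ y) = y := by
    rw [← LinearEquiv.mul_apply, inv_mul_cancel]; rfl
  rwa [e] at this

/-- if the translates of a rational polyhedral cone cover the open cone `C`, then they cover its
rational closure -/
theorem cover_plus (h : Core Λ C Γ ξ) (E : Finset V) (hE : ∀ e ∈ E, e ∈ Λ ∧ e ∈ closure C)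
    (hcov : ∀ x ∈ C, ∃ γ ∈ Γ, ∃ y ∈ cone E, γ y = x) :
    ∀ x ∈ plus Λ C, ∃ γ ∈ Γ, ∃ y ∈ cone E, γ y = x := by
  classical
  rintro x ⟨F, hF, hx⟩
  obtain ⟨w, hw, hwC⟩ := h.exists_lat
  set E1 : Finset V := E ∪ insert w F with hE1
  have hE1' : ∀ e ∈ E1, e ∈ Λ ∧ e ∈ closure C := by
    intro e he
    rcases Finset.mem_union.1 he with h1 | h1
    · exact hE e h1
    · rcases Finset.mem_insert.1 h1 with h2 | h2
      · rw [h2]; exact ⟨hw, subset_closure hwC⟩
      · exact hF e h2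
  have hxcl : x ∈ closure C := h.cone_clos (fun e he => (hF e he).2) hx
  have hseq : ∀ n : ℕ, x + ((n : ℝ) + 1)⁻¹ • w ∈ C := fun n =>
    h.clos_add_mem hxcl (h.smul _ (by positivity) _ hwC)
  have hseq1 : ∀ n : ℕ, x + ((n : ℝ) + 1)⁻¹ • w ∈ cone E1 := fun n => by
    refine cone_add (cone_mono ?_ hx) (cone_smul (by positivity) (cone_of_mem ?_))
    · intro e he; simp [hE1, he]
    · simp [hE1]
  have hsel : ∀ n : ℕ, ∃ γ ∈ Γ, ∃ y ∈ cone E, γ y = x + ((n : ℝ) + 1)⁻¹ • w :=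
    fun n => hcov _ (hseq n)
  choose g hg y hy hgy using hsel
  have hfin := h.siegel E1 hE1'
  have hmem : ∀ n, g n ∈ {γ : V ≃ₗ[ℝ] V | γ ∈ Γ ∧ ∃ y ∈ C, y ∈ cone E1 ∧ γ y ∈ cone E1} := by
    intro n
    refine ⟨hg n, y n, ?_, ?_, ?_⟩
    · apply h.map_inv_mem (hg n)
      rw [hgy]; exact hseq n
    · exact cone_mono (Finset.subset_union_left) (hy n)
    · rw [hgy]; exact hseq1 n
  haveI : Finite {γ : V ≃ₗ[ℝ] V | γ ∈ Γ ∧ ∃ y ∈ C, y ∈ cone E1 ∧ γ y ∈ cone E1} := hfin
  obtain ⟨⟨γ, hγ⟩, hinf⟩ := Finite.exists_infinite_fiber (fun n => (⟨g n, hmem n⟩ :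
    {γ : V ≃ₗ[ℝ] V | γ ∈ Γ ∧ ∃ y ∈ C, y ∈ cone E1 ∧ γ y ∈ cone E1}))
  have hinf' : Set.Infinite {n : ℕ | g n = γ} := by
    rw [← Set.infinite_coe_iff]
    convert hinf using 2
    ext n
    simp [Subtype.ext_iff]
  refine ⟨γ, hγ.1, γ⁻¹ x, ?_, ?_⟩
  · have hclosed : IsClosed (cone E) := by
      refine cone_closed E (LinearMap.toContinuousLinearMap ξ) (fun e he h0 => ?_)
      exact h.pos e (hE e he).2 h0
    have hlim : Filter.Tendsto (fun n : ℕ => γ⁻¹ (x + ((n : ℝ) + 1)⁻¹ • w)) Filter.atTop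
        (nhds (γ⁻¹ x)) := by
      have hcont : Continuous (fun v : V => (γ⁻¹ : V ≃ₗ[ℝ] V) v) :=
        LinearMap.continuous_of_finiteDimensional ((γ⁻¹ : V ≃ₗ[ℝ] V) : V →ₗ[ℝ] V)
      have h1 : Filter.Tendsto (fun n : ℕ => x + ((n : ℝ) + 1)⁻¹ • w) Filter.atTop
          (nhds (x + (0 : ℝ) • w)) := by
        refine Filter.Tendsto.const_add x (Filter.Tendsto.smul_const ?_ w)
        have := tendsto_one_div_add_atTop_nhds_zero_nat (𝕜 := ℝ)
        simpa [one_div] using this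
      rw [zero_smul, add_zero] at h1
      exact (hcont.tendsto x).comp h1
    refine hclosed.mem_of_frequently_of_tendsto ?_ hlim
    rw [Filter.frequently_atTop]
    intro a
    obtain ⟨n, hn, hn'⟩ := hinf'.exists_gt a
    refine ⟨n, hn'.le, ?_⟩
    have hgn : g n = γ := hn
    rw [← hgy n, hgn]
    have e : (γ⁻¹ : V ≃ₗ[ℝ] V) (γ (y n)) = y n := by
      rw [← LinearEquiv.mul_apply, inv_mul_cancel]; rfl
    rw [e]
    exact hy n
  · rw [← LinearEquiv.mul_apply, mul_inv_cancel]; rfl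

/-- **Existence of a rational polyhedral fundamental domain** for a group in which the form `ξ` has
trivial stabiliser -/
theorem domain_aux (h : Core Λ C Γ ξ) (htriv : ∀ γ ∈ Γ, (∀ x, ξ (γ x) = ξ x) → γ = 1)
    (E : Finset V) (hE : ∀ e ∈ E, e ∈ Λ ∧ e ∈ closure C)
    (hcov : ∀ x ∈ C, ∃ γ ∈ Γ, ∃ y ∈ cone E, γ y = x) :
    ∃ (E2 E3 : Finset V), (∀ e ∈ E2, ∃ γ ∈ Γ, ∃ e' ∈ E, e = γ e') ∧ (∀ e ∈ E3, e ∈ Λ) ∧
      cone E3 ⊆ cone E2 ∧ (∀ x ∈ C, ∃ γ ∈ Γ, ∃ y ∈ cone E3, γ y = x) ∧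
      ∀ γ ∈ Γ, γ ≠ 1 → Disjoint (interior (cone E3)) (γ '' interior (cone E3)) := by
  classical
  have hR := h.finite_minElts E hE
  set E2 : Finset V := (hR.toFinset ×ˢ E).image (fun p => p.1 p.2) with hE2
  have hE2' : ∀ e ∈ E2, ∃ γ ∈ Γ, ∃ e' ∈ E, e = γ e' := by
    intro e he
    obtain ⟨⟨γ, e'⟩, hp, rfl⟩ := Finset.mem_image.1 he
    obtain ⟨h1, h2⟩ := Finset.mem_product.1 hp
    exact ⟨γ, (hR.mem_toFinset.1 h1).1, e', h2, rfl⟩
  have hE2c : ∀ e ∈ E2, e ∈ Λ ∧ e ∈ closure C := by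
    intro e he
    obtain ⟨γ, hγ, e', he', rfl⟩ := hE2' e he
    exact ⟨h.mapΛ γ hγ _ (hE e' he').1, h.clos_map hγ (hE e' he').2⟩
  have hR2 := h.finite_minElts E2 hE2c
  set S : Finset (V →ₗ[ℝ] ℝ) := hR2.toFinset.image
    (fun β : V ≃ₗ[ℝ] V => ξ ∘ₗ (β : V →ₗ[ℝ] V) - ξ) with hS
  obtain ⟨E3, hE3, hE3'⟩ := cone_halves Λ E2 (fun e he => (hE2c e he).1) S (by
    intro η hη v hv
    obtain ⟨β, hβ, rfl⟩ := Finset.mem_image.1 hη
    obtain ⟨a, ha⟩ := h.int _ (h.mapΛ β (hR2.mem_toFinset.1 hβ).1 v hv)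
    obtain ⟨b, hb⟩ := h.int v hv
    refine ⟨a - b, ?_⟩
    simp [ha, hb])
  have hA1 : ∀ x ∈ C, x ∈ cone E3 → ∀ β ∈ Γ, ξ x ≤ ξ (β x) := by
    intro x hx hx3 β hβ
    rw [hE3'] at hx3
    obtain ⟨α, hα, hmin⟩ := h.exists_min hx
    have h1 := hx3.2 (ξ ∘ₗ (α : V →ₗ[ℝ] V) - ξ)
      (Finset.mem_image.2 ⟨α, hR2.mem_toFinset.2 ⟨hα, x, hx, hx3.1, hmin⟩, rfl⟩)
    have h2 : 0 ≤ ξ (α x) - ξ x := by simpa using h1
    have h3 := hmin β hβ
    linarith
  have hA2 : ∀ x ∈ C, (∀ β ∈ Γ, ξ x ≤ ξ (β x)) → x ∈ cone E3 := by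
    intro x hx hmin
    rw [hE3']
    obtain ⟨γ, hγ, y, hy, hyx⟩ := hcov x hx
    have hyC : y ∈ C := h.map_inv_mem hγ (by rw [hyx]; exact hx)
    have hγR : γ ∈ MinElts C Γ ξ E := by
      refine ⟨hγ, y, hyC, hy, fun β hβ => ?_⟩
      have h1 := hmin (β * γ⁻¹) (Γ.mul_mem hβ (Γ.inv_mem hγ))
      rw [← hyx] at h1
      have e1 : (β * γ⁻¹) (γ y) = β y := by
        rw [LinearEquiv.mul_apply]
        congr 1
        rw [← LinearEquiv.mul_apply, inv_mul_cancel]
        rfl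
      rwa [e1] at h1
    refine ⟨?_, ?_⟩
    · obtain ⟨c, hc, rfl⟩ := hy
      rw [← hyx, map_sum]
      refine cone_sum _ _ (fun e he => ?_)
      rw [map_smul]
      refine cone_smul (hc e he) (cone_of_mem ?_)
      exact Finset.mem_image.2 ⟨(γ, e), Finset.mem_product.2 ⟨hR.mem_toFinset.2 hγR, he⟩, rfl⟩
    · intro η hη
      obtain ⟨β, hβ, rfl⟩ := Finset.mem_image.1 hη
      have := hmin β (hR2.mem_toFinset.1 hβ).1
      simpa using this
  refine ⟨E2, E3, hE2', hE3, ?_, ?_, ?_⟩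
  · rw [hE3']; exact Set.inter_subset_left
  · intro x hx
    obtain ⟨α, hα, hmin⟩ := h.exists_min hx
    refine ⟨α⁻¹, Γ.inv_mem hα, α x, hA2 _ (h.mapC α hα x hx) (fun β hβ => ?_), ?_⟩
    · have := hmin (β * α) (Γ.mul_mem hβ hα)
      rwa [LinearEquiv.mul_apply] at this
    · rw [← LinearEquiv.mul_apply, inv_mul_cancel]; rfl
  · intro γ hγ hγ1
    rw [Set.disjoint_left]
    rintro z hz ⟨u, hu, huz⟩
    apply hγ1
    have hcl3 : cone E3 ⊆ closure C := by
      rw [hE3']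
      exact fun x hx => h.cone_clos (fun e he => (hE2c e he).2) hx.1
    have hcont : Continuous (fun v : V => (γ⁻¹ : V ≃ₗ[ℝ] V) v) :=
      LinearMap.continuous_of_finiteDimensional ((γ⁻¹ : V ≃ₗ[ℝ] V) : V →ₗ[ℝ] V)
    set U : Set V := interior (cone E3) ∩ (fun v : V => (γ⁻¹ : V ≃ₗ[ℝ] V) v) ⁻¹' interior (cone E3)
      with hU
    have hUo : IsOpen U := isOpen_interior.inter (isOpen_interior.preimage hcont)
    have hzU : z ∈ U := by
      refine ⟨hz, ?_⟩
      rw [mem_preimage, ← huz]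
      have e : (γ⁻¹ : V ≃ₗ[ℝ] V) (γ u) = u := by
        rw [← LinearEquiv.mul_apply, inv_mul_cancel]; rfl
      rw [e]; exact hu
    obtain ⟨z0, hz0U, hz0C⟩ : (U ∩ C).Nonempty := by
      have hzc : z ∈ closure C := hcl3 (interior_subset hz)
      exact mem_closure_iff.1 hzc U hUo hzU
    have heq : ∀ v ∈ U ∩ C, ξ ((γ⁻¹ : V ≃ₗ[ℝ] V) v) = ξ v := by
      rintro v ⟨⟨hv1, hv2⟩, hvC⟩
      have hγv : (γ⁻¹ : V ≃ₗ[ℝ] V) v ∈ C := h.mapC _ (Γ.inv_mem hγ) v hvC
      apply le_antisymm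
      · have := hA1 _ hγv (interior_subset hv2) γ hγ
        have e : γ ((γ⁻¹ : V ≃ₗ[ℝ] V) v) = v := by
          rw [← LinearEquiv.mul_apply, mul_inv_cancel]; rfl
        rwa [e] at this
      · exact hA1 v hvC (interior_subset hv1) _ (Γ.inv_mem hγ)
    have hall : ∀ x, ξ ((γ⁻¹ : V ≃ₗ[ℝ] V) x) = ξ x := by
      intro x
      have hc2 : Continuous (fun t : ℝ => z0 + t • x) := by fun_prop
      have ho2 : IsOpen ((fun t : ℝ => z0 + t • x) ⁻¹' (U ∩ C)) := (hUo.inter h.opn).preimage hc2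
      have h00 : (0 : ℝ) ∈ ((fun t : ℝ => z0 + t • x) ⁻¹' (U ∩ C)) := by
        rw [mem_preimage]; simpa using ⟨hz0U, hz0C⟩
      obtain ⟨ε, hε, hb⟩ := Metric.isOpen_iff.1 ho2 0 h00
      have hmem : ε / 2 ∈ Metric.ball (0 : ℝ) ε := by
        rw [Metric.mem_ball, dist_zero_right, Real.norm_eq_abs, abs_of_pos (by positivity)]
        linarith
      have h1 := heq _ (hb hmem)
      have h2 := heq z0 ⟨hz0U, hz0C⟩
      simp only [map_add, map_smul, smul_eq_mul] at h1
      rw [h2] at h1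
      have h3 : ε / 2 * ξ ((γ⁻¹ : V ≃ₗ[ℝ] V) x) = ε / 2 * ξ x := by linarith
      exact mul_left_cancel₀ (by positivity) h3
    have := htriv γ⁻¹ (Γ.inv_mem hγ) hall
    rwa [inv_eq_one] at this

end Core

end Pool.Agent.TH30.MK
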