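import Pool.Agent.TH30.MK.Relative

/-!
# Targets of contractions
-/

namespace Pool.Agent.TH30.MK.Pres

open Set

set_option linter.unusedSectionVars false

/-- `pull : N¹(Z) → N¹(X)` is the pull-back for a contraction `X → Z`:
* a class of `Z` is in the cone of `Z` if and only if its pull-back is in the cone of `X`;
* the pulled back classes form a face of the cone of `X`: if a sum of two classes of the cone of `X`
  is a pull-back, then both are;
* rationally, the integral classes correspond;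
* an automorphism of `X` which preserves the face descends to `Z`. -/
structure IsContr (X Z : Variety) (pull : Z.N → X.N) : Prop where
  linear : IsLinearMap ℝ pull
  injective : Function.Injective pull
  lattice : ∀ z, pull z ∈ X.Λ → ∃ n : ℕ, 0 < n ∧ n • z ∈ Z.Λ
  cone : ∀ z, z ∈ Z.K ↔ pull z ∈ X.K
  face : ∀ x ∈ X.K, ∀ x' ∈ X.K, x + x' ∈ Set.range pull → x ∈ Set.range pull
  descend : ∀ a : X.A, (∀ z ∈ Z.K, mv X.act a (pull z) ∈ Set.range pull) →
    (∀ z ∈ Z.K, mv X.act a⁻¹ (pull z) ∈ Set.range pull) →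
    ∃ b : Z.A, ∀ z, pull (mv Z.act b z) = mv X.act a (pull z)

section

variable {X Z : Variety} {pull : Z.N → X.N}

theorem cone_sum_mem (X : Variety) (s : Finset X.N) (c : X.N → ℝ) (hc : ∀ e ∈ s, 0 ≤ c e)
    (hs : ∀ e ∈ s, e ∈ X.K) : ∑ e ∈ s, c e • e ∈ X.K :=
  cone_le X.cone.1 X.cone.2.1 X.cone.2.2 hs ⟨c, hc, rfl⟩

theorem range_smul (h : IsContr X Z pull) {t : ℝ} (ht : t ≠ 0) {x : X.N}
    (hx : t • x ∈ Set.range pull) : x ∈ Set.range pull := by
  obtain ⟨z, hz⟩ := hx
  exact ⟨t⁻¹ • z, by rw [h.linear.map_smul, hz, smul_smul, inv_mul_cancel₀ ht, one_smul]⟩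

/-- in a combination which is a pull-back, the vectors which occur are pull-backs -/
theorem face_sum (h : IsContr X Z pull) (E : Finset X.N) (hE : ∀ e ∈ E, e ∈ X.K) (c : X.N → ℝ)
    (hc : ∀ e ∈ E, 0 ≤ c e) (hr : ∑ e ∈ E, c e • e ∈ Set.range pull) :
    ∀ e ∈ E, c e ≠ 0 → e ∈ Set.range pull := by
  classical
  intro e he hce
  have h1 : ∑ e ∈ E, c e • e = c e • e + ∑ e' ∈ E.erase e, c e' • e' :=
    (Finset.add_sum_erase E (fun e => c e • e) he).symm
  rw [h1] at hr
  refine range_smul h hce (h.face _ (X.cone.2.2 _ (hc e he) _ (hE e he)) _ ?_ hr)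
  exact cone_sum_mem X _ c (fun e' he' => hc e' (Finset.mem_of_mem_erase he'))
    (fun e' he' => hE e' (Finset.mem_of_mem_erase he'))

theorem descend_face (h : IsContr X Z pull) (T : Finset X.N) (hT : ∀ e ∈ T, e ∈ X.Λ ∧ e ∈ X.K) :
    ∃ T' : Finset Z.N, (∀ e ∈ T', e ∈ Z.Λ ∧ e ∈ Z.K) ∧
      ∀ z, pull z ∈ MK.cone T → z ∈ MK.cone T' := by
  classical
  have hsel : ∀ e : X.N, ∃ (u : Z.N) (n : ℕ), 0 < n ∧
      (e ∈ T → e ∈ Set.range pull → pull u = e ∧ n • u ∈ Z.Λ) := by
    intro e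
    by_cases he : e ∈ T ∧ e ∈ Set.range pull
    · obtain ⟨h1, u, hu⟩ := he
      obtain ⟨n, hn, hn'⟩ := h.lattice u (by rw [hu]; exact (hT e h1).1)
      exact ⟨u, n, hn, fun _ _ => ⟨hu, hn'⟩⟩
    · exact ⟨0, 1, one_pos, fun h1 h2 => absurd ⟨h1, h2⟩ he⟩
  choose u n hn hu using hsel
  refine ⟨(T.filter (fun e => e ∈ Set.range pull)).image (fun e => n e • u e), ?_, ?_⟩
  · intro v hv
    obtain ⟨e, he, rfl⟩ := Finset.mem_image.1 hv
    obtain ⟨he1, he2⟩ := Finset.mem_filter.1 he
    obtain ⟨h1, h2⟩ := hu e he1 he2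
    refine ⟨h2, ?_⟩
    have : (n e : ℝ) • u e ∈ Z.K := Z.cone.2.2 _ (by positivity) _ ((h.cone _).2 (by
      rw [h1]; exact (hT e he1).2))
    rwa [Nat.cast_smul_eq_nsmul ℝ] at this
  · rintro z ⟨c, hc, hz⟩
    have hr := face_sum h T (fun e he => (hT e he).2) c hc ⟨z, hz⟩
    have e1 : z = ∑ e ∈ T.filter (fun e => e ∈ Set.range pull), (c e / n e) • (n e • u e) := by
      apply h.injective
      have e2 : pull (∑ e ∈ T.filter (fun e => e ∈ Set.range pull), (c e / n e) • (n e • u e))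
          = ∑ e ∈ T.filter (fun e => e ∈ Set.range pull), c e • e := by
        have l : ∀ v, pull v = (h.linear.mk' pull) v := fun v => rfl
        rw [l, map_sum]
        refine Finset.sum_congr rfl (fun e he => ?_)
        obtain ⟨he1, he2⟩ := Finset.mem_filter.1 he
        have hne : (n e : ℝ) ≠ 0 := by exact_mod_cast (hn e).ne'
        rw [← Nat.cast_smul_eq_nsmul ℝ, smul_smul, div_mul_cancel₀ _ hne, map_smul, ← l,
          (hu e he1 he2).1]
      rw [e2, hz]
      symm
      refine Finset.sum_filter_of_ne (fun e he hne => ?_)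
      refine hr e he (fun h0 => hne ?_)
      rw [h0, zero_smul]
    rw [e1]
    refine cone_sum _ _ (fun e he => cone_smul ?_ (cone_of_mem (Finset.mem_image_of_mem _ he)))
    exact div_nonneg (hc e (Finset.mem_filter.1 he).1) (by positivity)

theorem near_interior (Z : Variety) {z : Z.N} (hz : z ∈ interior Z.K) (v : Z.N) :
    ∃ δ : ℝ, 0 < δ ∧ z - δ • v ∈ Z.K := by
  obtain ⟨ξ, hc⟩ := Z.toDat.exists_core
  obtain ⟨δ, hδ, hd⟩ := hc.near hz v
  refine ⟨δ, hδ, ?_⟩
  have := interior_subset (hd (-δ) (by rw [abs_neg, abs_of_pos hδ]))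
  have e : z - δ • v = z + -δ • v := by rw [neg_smul]; abel
  rw [e]; exact this

theorem mv_mul {A V : Type} [NormedAddCommGroup V] [NormedSpace ℝ V] [Group A] (ρ : LinAct A V)
    (a b : A) (v : V) : mv ρ (a * b) v = mv ρ a (mv ρ b v) := by
  simp [mv, map_mul, LinearEquiv.mul_apply]

theorem mv_inv {A V : Type} [NormedAddCommGroup V] [NormedSpace ℝ V] [Group A] (ρ : LinAct A V)
    (a : A) (v : V) : mv ρ a⁻¹ (mv ρ a v) = v := by
  rw [← mv_mul, inv_mul_cancel]; simp [mv]

theorem mv_linear {A V : Type} [NormedAddCommGroup V] [NormedSpace ℝ V] [Group A] (ρ : LinAct A V)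
    (a : A) : IsLinearMap ℝ (mv ρ a) := (ρ a : V →ₗ[ℝ] V).isLinear

/-- **Q1 passes to the target of a contraction** -/
theorem contraction (h : IsContr X Z pull) (hX : X.Q1) : Z.Q1 := by
  classical
  rw [Variety.q1_iff] at hX ⊢
  have hcovd := Dat.covered_of_conj hX
  have hrat := Dat.ratSpanned_of_covered hcovd
  obtain ⟨E, hE, hcov⟩ : ∃ E : Finset X.N, (∀ e ∈ E, e ∈ X.Λ ∧ e ∈ X.K) ∧
    ∀ x ∈ X.K, ∃ a : X.A, ∃ y ∈ MK.cone E, mv X.act a y = x := hcovd
  let S : X.A → Finset X.N := fun a => E.filter (fun e => mv X.act a e ∈ Set.range pull)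
  let good : X.A → Prop := fun a => ∃ z ∈ interior Z.K, ∃ y ∈ MK.cone E, mv X.act a y = pull z
  -- the point `y` is in the cone spanned by `S a`
  have hS : ∀ a, ∀ y ∈ MK.cone E, mv X.act a y ∈ Set.range pull → y ∈ MK.cone (S a) := by
    rintro a y ⟨c, hc, rfl⟩ hr
    have e1 : mv X.act a (∑ e ∈ E, c e • e) = ∑ e ∈ E, c e • mv X.act a e := by
      have l : ∀ v, mv X.act a v = (X.act a : X.N →ₗ[ℝ] X.N) v := fun v => rfl
      rw [l, map_sum]
      exact Finset.sum_congr rfl (fun e _ => by rw [map_smul, ← l])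
    rw [e1] at hr
    have hmem : ∀ e ∈ E, c e ≠ 0 → mv X.act a e ∈ Set.range pull := by
      intro e he hce
      have h1 : ∑ e ∈ E, c e • mv X.act a e
          = c e • mv X.act a e + ∑ e' ∈ E.erase e, c e' • mv X.act a e' :=
        (Finset.add_sum_erase E (fun e => c e • mv X.act a e) he).symm
      rw [h1] at hr
      refine range_smul h hce (h.face _ (X.cone.2.2 _ (hc e he) _
        (X.stable_cone a _ (hE e he).2)) _ ?_ hr)
      have : ∑ e' ∈ E.erase e, c e' • mv X.act a e' = mv X.act a (∑ e' ∈ E.erase e, c e' • e') := by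
        have l : ∀ v, mv X.act a v = (X.act a : X.N →ₗ[ℝ] X.N) v := fun v => rfl
        rw [l, map_sum]
        exact Finset.sum_congr rfl (fun e _ => by rw [map_smul, ← l])
      rw [this]
      exact X.stable_cone a _ (cone_sum_mem X _ c (fun e' he' => hc e' (Finset.mem_of_mem_erase he'))
        (fun e' he' => (hE e' (Finset.mem_of_mem_erase he')).2))
    refine ⟨c, fun e he => hc e (Finset.mem_filter.1 he).1, ?_⟩
    symm
    refine Finset.sum_filter_of_ne (fun e he hne => hmem e he (fun h0 => hne ?_))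
    rw [h0, zero_smul]
  have hSr : ∀ a, ∀ y ∈ MK.cone (S a), mv X.act a y ∈ Set.range pull := by
    intro a y hy
    have hlin := mv_linear X.act a
    refine cone_le (K := {y | mv X.act a y ∈ Set.range pull}) ?_ ?_ ?_ ?_ hy
    · exact ⟨0, by rw [h.linear.map_zero, hlin.map_zero]⟩
    · rintro x ⟨z, hz⟩ x' ⟨z', hz'⟩
      exact ⟨z + z', by rw [h.linear.map_add, hz, hz', hlin.map_add]⟩
    · rintro t - x ⟨z, hz⟩
      exact ⟨t • z, by rw [h.linear.map_smul, hz, hlin.map_smul]⟩
    · intro e he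
      exact (Finset.mem_filter.1 he).2
  -- two elements with the same set `S` differ by an element preserving the face
  have hpres : ∀ a a' : X.A, good a → S a = S a' → ∀ v ∈ Z.K,
      mv X.act (a' * a⁻¹) (pull v) ∈ Set.range pull := by
    rintro a a' ⟨z, hz, y, hy, hyz⟩ hSS v hv
    have hyS : y ∈ MK.cone (S a') := by
      rw [← hSS]; exact hS a y hy ⟨z, hyz.symm⟩
    have h1 : mv X.act a' y ∈ Set.range pull := hSr a' y hyS
    obtain ⟨δ, hδ, hd⟩ := near_interior Z hz v
    have hlin := mv_linear X.act (a' * a⁻¹)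
    have h2 : mv X.act a' y = mv X.act (a' * a⁻¹) (δ • pull v)
        + mv X.act (a' * a⁻¹) (pull (z - δ • v)) := by
      rw [← hlin.map_add]
      have e1 : δ • pull v + pull (z - δ • v) = pull z := by
        rw [← h.linear.map_smul, ← h.linear.map_add]
        congr 1; abel
      rw [e1, ← hyz, mv_mul, mv_inv]
    rw [h2] at h1
    have h3 := h.face _ (X.stable_cone _ _ (X.cone.2.2 δ hδ.le _ ((h.cone v).1 hv))) _
      (X.stable_cone _ _ ((h.cone _).1 hd)) h1
    rw [hlin.map_smul] at h3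
    exact range_smul h hδ.ne' h3
  -- representatives
  let rep : Finset X.N → X.A := fun T => if hT : ∃ a, good a ∧ S a = T then hT.choose else 1
  have hrep : ∀ a, good a → good (rep (S a)) ∧ S (rep (S a)) = S a := by
    intro a ha
    have hT : ∃ a', good a' ∧ S a' = S a := ⟨a, ha, rfl⟩
    have : rep (S a) = hT.choose := dif_pos hT
    rw [this]; exact hT.choose_spec
  set EX : Finset X.N := (E.powerset ×ˢ E).image (fun p => mv X.act (rep p.1) p.2) with hEX
  have hEX' : ∀ e ∈ EX, e ∈ X.Λ ∧ e ∈ X.K := by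
    intro e he
    obtain ⟨⟨T, e'⟩, hp, rfl⟩ := Finset.mem_image.1 he
    have h2 := (Finset.mem_product.1 hp).2
    exact ⟨X.stable_lattice _ _ (hE e' h2).1, X.stable_cone _ _ (hE e' h2).2⟩
  obtain ⟨T', hT', hd⟩ := descend_face h EX hEX'
  refine Dat.conj_of (X := Z.toDat) ?_ ?_
  · intro z hz
    obtain ⟨F, hF, hzF⟩ := hrat (pull z) ((h.cone z).1 hz)
    obtain ⟨F', hF', hdF⟩ := descend_face h F hF
    exact ⟨F', hF', hdF z hzF⟩
  · refine ⟨T', hT', fun z hz => ?_⟩
    obtain ⟨a, y, hy, hyz⟩ := hcov (pull z) ((h.cone z).1 (interior_subset hz))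
    have hga : good a := ⟨z, hz, y, hy, hyz⟩
    obtain ⟨hga', hSa'⟩ := hrep a hga
    set a' := rep (S a) with ha'
    have hyS : y ∈ MK.cone (S a') := by
      rw [hSa']; exact hS a y hy ⟨z, hyz.symm⟩
    obtain ⟨z1, hz1⟩ := hSr a' y hyS
    obtain ⟨b, hb⟩ := h.descend (a * a'⁻¹) (hpres a' a hga' hSa') (by
      have := hpres a a' hga hSa'.symm
      rw [mul_inv_rev, inv_inv]
      exact this)
    have hz1c : z1 ∈ MK.cone T' := by
      apply hd
      rw [hz1]
      refine map_cone (mv_linear X.act a') (fun e he => cone_of_mem ?_) hy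
      exact Finset.mem_image.2 ⟨(S a, e), Finset.mem_product.2
        ⟨Finset.mem_powerset.2 (Finset.filter_subset _ _), he⟩, rfl⟩
    refine ⟨b, z1, hz1c, ?_⟩
    apply h.injective
    have : pull (mv Z.act b z1) = pull z := by
      rw [hb, hz1, mv_mul, mv_inv, hyz]
    exact this

end

end Pool.Agent.TH30.MK.Pres
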