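import Pool.Agent.TH30.MK.Domain

/-!
# A form with trivial stabiliser, and the fundamental domain theorem
-/

namespace Pool.Agent.TH30.MK

open Set

set_option linter.unusedSectionVars false

variable {V : Type*} [NormedAddCommGroup V] [NormedSpace ℝ V]

/-- `Λ` is the lattice of vectors with integral coordinates in some basis of `V` -/
def IsLat (Λ : AddSubgroup V) : Prop :=
  ∃ (n : ℕ) (b : Module.Basis (Fin n) ℝ V), ∀ v, v ∈ Λ ↔ ∀ i, ∃ k : ℤ, b.repr v i = k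

variable [FiniteDimensional ℝ V]
variable {Λ : AddSubgroup V} {C : Set V} {Γ : Subgroup (V ≃ₗ[ℝ] V)} {ξ : V →ₗ[ℝ] ℝ}

theorem lat_fin (hL : IsLat Λ) (r : ℝ) : {v : V | v ∈ Λ ∧ ‖v‖ ≤ r}.Finite := by
  obtain ⟨n, b, hb⟩ := hL
  have hM : ∀ i : Fin n, ∃ M : ℝ, ∀ v : V, |b.repr v i| ≤ M * ‖v‖ := by
    intro i
    refine ⟨‖LinearMap.toContinuousLinearMap (b.coord i)‖, fun v => ?_⟩
    have := (LinearMap.toContinuousLinearMap (b.coord i)).le_opNorm v
    simpa using this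
  choose M hM using hM
  have hfin : (Set.pi univ (fun i : Fin n => {s : ℝ | ∃ k : ℤ, s = k ∧ |s| ≤ |M i| * |r|})).Finite := by
    refine Set.Finite.pi (fun i => ?_)
    refine ((Set.finite_Icc (-⌈|M i| * |r|⌉) ⌈|M i| * |r|⌉).image (fun n : ℤ => (n : ℝ))).subset ?_
    rintro s ⟨k, rfl, h1⟩
    rw [abs_le] at h1
    have h2 := Int.le_ceil (|M i| * |r|)
    refine ⟨k, ⟨?_, ?_⟩, rfl⟩
    · have : -((⌈|M i| * |r|⌉ : ℤ) : ℝ) ≤ k := by linarith [h1.1]
      exact_mod_cast this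
    · have : (k : ℝ) ≤ ((⌈|M i| * |r|⌉ : ℤ) : ℝ) := by linarith [h1.2]
      exact_mod_cast this
  refine Set.Finite.of_injOn (f := fun v : V => fun i : Fin n => b.repr v i) ?_ ?_ hfin
  · rintro v ⟨hv, hr⟩
    rw [Set.mem_univ_pi]
    intro i
    obtain ⟨k, hk⟩ := (hb v).1 hv i
    refine ⟨k, hk, (hM i v).trans ?_⟩
    have h0 : 0 ≤ ‖v‖ := norm_nonneg v
    have h1 : ‖v‖ ≤ |r| := hr.trans (le_abs_self r)
    calc M i * ‖v‖ ≤ |M i| * ‖v‖ := mul_le_mul_of_nonneg_right (le_abs_self _) h0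
      _ ≤ |M i| * |r| := mul_le_mul_of_nonneg_left h1 (abs_nonneg _)
  · intro v _ v' _ heq
    apply b.repr.injective
    ext i
    exact congrFun heq i

theorem lat_span (hL : IsLat Λ) : Submodule.span ℝ (Λ : Set V) = ⊤ := by
  obtain ⟨n, b, hb⟩ := hL
  rw [eq_top_iff, ← b.span_eq, Submodule.span_le]
  rintro _ ⟨i, rfl⟩
  refine Submodule.subset_span ?_
  rw [SetLike.mem_coe, hb]
  intro j
  by_cases h : i = j
  · exact ⟨1, by simp [h]⟩
  · exact ⟨0, by simp [h]⟩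

theorem sep_one (hL : IsLat Λ) {γ : V ≃ₗ[ℝ] V} (hγ : γ ≠ 1) :
    ∃ w : V →ₗ[ℝ] ℝ, (∀ v ∈ Λ, ∃ n : ℤ, w v = n) ∧ ∃ x, w (γ x) ≠ w x := by
  obtain ⟨n, b, hb⟩ := hL
  have : ∃ x, γ x ≠ x := by
    by_contra hc
    push Not at hc
    exact hγ (LinearEquiv.ext hc)
  obtain ⟨x, hx⟩ := this
  have : ∃ i, b.repr (γ x) i ≠ b.repr x i := by
    by_contra hc
    push Not at hc
    exact hx (b.repr.injective (Finsupp.ext hc))
  obtain ⟨i, hi⟩ := this
  refine ⟨b.coord i, fun v hv => ?_, x, ?_⟩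
  · obtain ⟨k, hk⟩ := (hb v).1 hv i
    exact ⟨k, by simpa using hk⟩
  · simpa using hi

theorem int_comb {w w0 : V →ₗ[ℝ] ℝ} (h1 : ∀ v ∈ Λ, ∃ n : ℤ, w v = n)
    (h0 : ∀ v ∈ Λ, ∃ n : ℤ, w0 v = n) (N : ℕ) :
    ∀ v ∈ Λ, ∃ n : ℤ, ((N : ℝ) • w + w0) v = n := by
  intro v hv
  obtain ⟨a, ha⟩ := h1 v hv
  obtain ⟨b, hb⟩ := h0 v hv
  exact ⟨N * a + b, by simp [ha, hb]⟩

theorem sep_fin (hL : IsLat Λ) (S : Finset (V ≃ₗ[ℝ] V)) (hS : ∀ γ ∈ S, γ ≠ 1) :
    ∃ w : V →ₗ[ℝ] ℝ, (∀ v ∈ Λ, ∃ n : ℤ, w v = n) ∧ ∀ γ ∈ S, ∃ x, w (γ x) ≠ w x := by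
  classical
  induction S using Finset.induction_on with
  | empty => exact ⟨0, fun v _ => ⟨0, by simp⟩, by simp⟩
  | insert a s ha ih =>
    obtain ⟨w, hw, hws⟩ := ih (fun γ hγ => hS γ (Finset.mem_insert_of_mem hγ))
    by_cases hsep : ∃ x, w (a x) ≠ w x
    · refine ⟨w, hw, fun γ hγ => ?_⟩
      rcases Finset.mem_insert.1 hγ with h | h
      · rw [h]; exact hsep
      · exact hws γ h
    · push Not at hsep
      obtain ⟨w0, hw0, x0, hx0⟩ := sep_one hL (hS a (Finset.mem_insert_self a s))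
      have hbad : (⋃ γ ∈ s, {N : ℕ | ∀ x, ((N : ℝ) • w + w0) (γ x) = ((N : ℝ) • w + w0) x}).Finite := by
        refine Set.Finite.biUnion (Finset.finite_toSet s) (fun γ hγ => ?_)
        refine Set.Subsingleton.finite ?_
        intro N1 h1 N2 h2
        obtain ⟨x, hx⟩ := hws γ (by simpa using hγ)
        have e1 := h1 x
        have e2 := h2 x
        simp only [LinearMap.add_apply, LinearMap.smul_apply, smul_eq_mul] at e1 e2
        have e3 : ((N1 : ℝ) - N2) * (w (γ x) - w x) = 0 := by linarith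
        rcases mul_eq_zero.1 e3 with h | h
        · exact_mod_cast sub_eq_zero.1 h
        · exact absurd (sub_eq_zero.1 h) hx
      obtain ⟨N, hN⟩ := hbad.exists_notMem
      refine ⟨(N : ℝ) • w + w0, int_comb hw hw0 N, fun γ hγ => ?_⟩
      rcases Finset.mem_insert.1 hγ with h | h
      · subst h
        refine ⟨x0, ?_⟩
        simp only [LinearMap.add_apply, LinearMap.smul_apply, smul_eq_mul, hsep x0]
        intro hc
        exact hx0 (by linarith)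
      · by_contra hc
        push Not at hc
        apply hN
        rw [Set.mem_iUnion₂]
        exact ⟨γ, h, hc⟩

namespace Core

theorem generic (h : Core Λ C Γ ξ) (hL : IsLat Λ) :
    ∃ ξ' : V →ₗ[ℝ] ℝ, Core Λ C Γ ξ' ∧ ∀ γ ∈ Γ, (∀ x, ξ' (γ x) = ξ' x) → γ = 1 := by
  classical
  obtain ⟨x0, hx0⟩ := h.ne
  have hF := h.finite_bound hx0 (4 * ξ x0)
  obtain ⟨w, hw, hws⟩ := sep_fin hL (hF.toFinset.filter (fun γ => γ ≠ 1))
    (fun γ hγ => (Finset.mem_filter.1 hγ).2)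
  obtain ⟨m, hm, hmm⟩ := h.exists_m
  set M : ℝ := ‖LinearMap.toContinuousLinearMap w‖ with hMdef
  have hM : ∀ x, |w x| ≤ M * ‖x‖ := fun x => by
    have := (LinearMap.toContinuousLinearMap w).le_opNorm x
    simpa using this
  have hM0 : 0 ≤ M := norm_nonneg _
  have hbad : (⋃ γ ∈ hF.toFinset.filter (fun γ => γ ≠ 1),
      {N : ℕ | ∀ x, ((N : ℝ) • ξ + w) (γ x) = ((N : ℝ) • ξ + w) x}).Finite := by
    refine Set.Finite.biUnion (Finset.finite_toSet _) (fun γ hγ => ?_)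
    refine Set.Subsingleton.finite ?_
    intro N1 h1 N2 h2
    by_contra hne
    obtain ⟨x, hx⟩ := hws γ (by simpa using hγ)
    have e1 := h1 x
    have e2 := h2 x
    simp only [LinearMap.add_apply, LinearMap.smul_apply, smul_eq_mul] at e1 e2
    have e3 : ((N1 : ℝ) - N2) * (ξ (γ x) - ξ x) = 0 := by linarith
    rcases mul_eq_zero.1 e3 with h | h
    · exact hne (by exact_mod_cast sub_eq_zero.1 h)
    · have h' := sub_eq_zero.1 h
      rw [h'] at e1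
      exact hx (by linarith)
  obtain ⟨N0, hN0⟩ := exists_nat_gt (2 * M / m)
  obtain ⟨N, hN, hNN⟩ := (hbad.infinite_compl).exists_gt N0
  have hNr : 2 * M / m < N := hN0.trans (by exact_mod_cast hNN)
  have hNpos : (0 : ℝ) < N := lt_of_le_of_lt (by positivity) hNr
  have hwb : ∀ x ∈ closure C, |w x| ≤ N / 2 * ξ x := by
    intro x hx
    have h1 := hmm x hx
    rw [div_lt_iff₀ hm] at hNr
    calc |w x| ≤ M * ‖x‖ := hM x
      _ ≤ (N / 2 * m) * ‖x‖ := mul_le_mul_of_nonneg_right (by linarith) (norm_nonneg _)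
      _ = N / 2 * (m * ‖x‖) := by ring
      _ ≤ N / 2 * ξ x := mul_le_mul_of_nonneg_left h1 (by positivity)
  refine ⟨(N : ℝ) • ξ + w, ?_, ?_⟩
  · refine { h with int := int_comb h.int hw N, pos := fun x hx hx0 => ?_ }
    have h1 := (abs_le.1 (hwb x hx)).1
    have h2 := h.pos x hx hx0
    simp only [LinearMap.add_apply, LinearMap.smul_apply, smul_eq_mul]
    have : 0 < N / 2 * ξ x := by positivity
    linarith
  · intro γ hγ hfix
    by_contra hne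
    apply hN
    rw [Set.mem_iUnion₂]
    refine ⟨γ, ?_, hfix⟩
    rw [Finset.mem_filter]
    refine ⟨hF.mem_toFinset.2 ⟨hγ, ?_⟩, hne⟩
    have hγx : γ x0 ∈ C := h.mapC γ hγ x0 hx0
    have h1 := (abs_le.1 (hwb _ (subset_closure hγx))).1
    have h2 := (abs_le.1 (hwb _ (subset_closure hx0))).2
    have h3 := hfix x0
    have h5 := h.nonneg (subset_closure hx0)
    simp only [LinearMap.add_apply, LinearMap.smul_apply, smul_eq_mul] at h3
    have h4 : (N : ℝ) / 2 * ξ (γ x0) ≤ (N : ℝ) / 2 * (4 * ξ x0) := by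
      have : 0 ≤ (N : ℝ) / 2 * ξ x0 := by positivity
      linarith
    exact le_of_mul_le_mul_left h4 (by positivity)

/-- **Looijenga's theorem**: if the translates of a rational polyhedral cone in `K` cover the open
cone `C`, and every point of `K` is in the span of the rational points of the closure of `C`, then
`Γ` has a rational polyhedral fundamental domain on `K`. -/
theorem domain (h : Core Λ C Γ ξ) (hL : IsLat Λ) {K : Set V}
    (hKp : K ⊆ plus Λ C) (h0 : (0 : V) ∈ K) (hadd : ∀ x ∈ K, ∀ y ∈ K, x + y ∈ K)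
    (hsmul : ∀ t : ℝ, 0 ≤ t → ∀ x ∈ K, t • x ∈ K) (hΓ : ∀ γ ∈ Γ, ∀ x ∈ K, γ x ∈ K)
    (E : Finset V) (hE : ∀ e ∈ E, e ∈ Λ ∧ e ∈ K)
    (hcov : ∀ x ∈ C, ∃ γ ∈ Γ, ∃ y ∈ cone E, γ y = x) :
    ∃ E3 : Finset V, (∀ e ∈ E3, e ∈ Λ) ∧ K = ⋃ γ ∈ Γ, γ '' cone E3 ∧
      ∀ γ ∈ Γ, γ ≠ 1 → Disjoint (interior (cone E3)) (γ '' interior (cone E3)) := by
  obtain ⟨ξ', h', htriv⟩ := h.generic hL
  have hKc : K ⊆ closure C := by
    intro x hx
    obtain ⟨F, hF, hxF⟩ := hKp hx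
    exact h.cone_clos (fun e he => (hF e he).2) hxF
  have hEc : ∀ e ∈ E, e ∈ Λ ∧ e ∈ closure C := fun e he => ⟨(hE e he).1, hKc (hE e he).2⟩
  obtain ⟨E2, E3, hE2, hE3, h32, hcov3, hdis⟩ := h'.domain_aux htriv E hEc hcov
  have hE2K : cone E2 ⊆ K := cone_le h0 hadd hsmul (fun e he => by
    obtain ⟨γ, hγ, e', he', rfl⟩ := hE2 e he
    exact hΓ γ hγ _ (hE e' he').2)
  have hE3K : cone E3 ⊆ K := h32.trans hE2K
  refine ⟨E3, hE3, ?_, hdis⟩
  apply Set.Subset.antisymm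
  · intro x hx
    obtain ⟨γ, hγ, y, hy, hyx⟩ := h'.cover_plus E3
      (fun e he => ⟨hE3 e he, hKc (hE3K (cone_of_mem he))⟩) hcov3 x (hKp hx)
    rw [Set.mem_iUnion₂]
    exact ⟨γ, hγ, y, hy, hyx⟩
  · intro x hx
    rw [Set.mem_iUnion₂] at hx
    obtain ⟨γ, hγ, y, hy, rfl⟩ := hx
    exact hΓ γ hγ _ (hE3K hy)

end Core

end Pool.Agent.TH30.MK
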