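import Pool.Agent.TH30.MK.Face

/-!
# Subgroups of finite index
-/

namespace Pool.Agent.TH30.MK.Pres

open Set

set_option linter.unusedSectionVars false

/-- the same space and cone, with the action restricted to a subgroup `B` -/
def Variety.restrict (X : Variety) (B : Subgroup X.A) : Variety where
  N := X.N
  Λ := X.Λ
  A := B
  act := X.act.comp B.subtype
  K := X.K
  lattice := X.lattice
  stable_lattice := fun b => X.stable_lattice b.1
  cone := X.cone
  stable_cone := fun b => X.stable_cone b.1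
  interior_nonempty := X.interior_nonempty
  degree := X.degree

/-- `B` has finite index in the group of `X` modulo the elements acting trivially: finitely many
elements `s` suffice to write the action of every `a` as that of some `b s` with `b ∈ B` -/
def FiniteIndexMod (X : Variety) (B : Subgroup X.A) : Prop :=
  ∃ S : Finset X.A, ∀ a : X.A, ∃ s ∈ S, ∃ b ∈ B, ∀ x, mv X.act a x = mv X.act (b * s) x

/-- the open cone is covered by translates of a rational polyhedral cone under elements of `B` -/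
def CoveredBy (X : Variety) (B : Subgroup X.A) (E : Finset X.N) : Prop :=
  (∀ e ∈ E, e ∈ X.Λ ∧ e ∈ X.K) ∧ ∀ x ∈ X.K, ∃ b ∈ B, ∃ y ∈ MK.cone E, mv X.act b y = x

theorem q1_of_covered (X : Variety) (B : Subgroup X.A) {E : Finset X.N} (h : CoveredBy X B E) :
    (X.restrict B).Q1 := by
  rw [Variety.q1_iff]
  have hcov : (X.restrict B).toDat.Covered := by
    refine ⟨E, h.1, fun x hx => ?_⟩
    obtain ⟨b, hb, y, hy, hyx⟩ := h.2 x hx
    exact ⟨⟨b, hb⟩, y, hy, hyx⟩
  refine Dat.conj_of (Dat.ratSpanned_of_covered hcov) ?_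
  obtain ⟨E, hE, hc⟩ := hcov
  exact ⟨E, hE, fun x hx => hc x (interior_subset hx)⟩

theorem covered_of_q1 (X : Variety) (B : Subgroup X.A) (h : (X.restrict B).Q1) :
    ∃ E, CoveredBy X B E := by
  rw [Variety.q1_iff] at h
  obtain ⟨E, hE, hc⟩ := Dat.covered_of_conj h
  refine ⟨E, hE, fun x hx => ?_⟩
  obtain ⟨b, y, hy, hyx⟩ := hc x hx
  exact ⟨b.1, b.2, y, hy, hyx⟩

theorem q1_top (X : Variety) : (X.restrict ⊤).Q1 ↔ X.Q1 := by
  constructor
  · intro h
    obtain ⟨E, hE⟩ := covered_of_q1 X ⊤ h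
    rw [Variety.q1_iff]
    have hcov : X.toDat.Covered := by
      refine ⟨E, hE.1, fun x hx => ?_⟩
      obtain ⟨b, -, y, hy, hyx⟩ := hE.2 x hx
      exact ⟨b, y, hy, hyx⟩
    refine Dat.conj_of (Dat.ratSpanned_of_covered hcov) ?_
    obtain ⟨E, hE, hc⟩ := hcov
    exact ⟨E, hE, fun x hx => hc x (interior_subset hx)⟩
  · intro h
    rw [Variety.q1_iff] at h
    obtain ⟨E, hE, hc⟩ := Dat.covered_of_conj h
    refine q1_of_covered X ⊤ (E := E) ⟨hE, fun x hx => ?_⟩
    obtain ⟨b, y, hy, hyx⟩ := hc x hx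
    exact ⟨b, Subgroup.mem_top b, y, hy, hyx⟩

/-- **Criterion**: Q1 for the subgroup `B` holds if and only if it holds for the whole group and `B`
has finite index modulo the elements acting trivially. -/
theorem restrict_iff (X : Variety) (B : Subgroup X.A) :
    (X.restrict B).Q1 ↔ X.Q1 ∧ FiniteIndexMod X B := by
  classical
  constructor
  · intro h
    obtain ⟨E, hE⟩ := covered_of_q1 X B h
    have htop : CoveredBy X ⊤ E := ⟨hE.1, fun x hx => by
      obtain ⟨b, -, y, hy, hyx⟩ := hE.2 x hx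
      exact ⟨b, Subgroup.mem_top b, y, hy, hyx⟩⟩
    refine ⟨(q1_top X).1 (q1_of_covered X ⊤ htop), ?_⟩
    obtain ⟨ξ, hc⟩ := X.toDat.exists_core
    have hS := hc.siegel E (fun e he => ⟨(hE.1 e he).1, X.toDat.subset_clos (hE.1 e he).2⟩)
    obtain ⟨x0, hx0⟩ := X.interior_nonempty
    obtain ⟨b0, hb0, y0, hy0, hyx0⟩ := hE.2 x0 (interior_subset hx0)
    have hy0i : y0 ∈ interior X.K := by
      have hin : mv X.act b0 y0 ∈ interior X.K := hyx0.symm ▸ hx0
      exact hc.map_inv_mem (γ := X.act b0) ⟨b0, rfl⟩ hin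
    have hsel : ∀ γ : X.N ≃ₗ[ℝ] X.N, ∃ a : X.A, (∃ a' : X.A, X.act a' = γ) → X.act a = γ := by
      intro γ
      by_cases hγ : ∃ a' : X.A, X.act a' = γ
      · obtain ⟨a', ha'⟩ := hγ; exact ⟨a', fun _ => ha'⟩
      · exact ⟨1, fun h => absurd h hγ⟩
    choose g hg using hsel
    refine ⟨hS.toFinset.image g, fun a => ?_⟩
    have hay : mv X.act a y0 ∈ interior X.K := hc.mapC (X.act a) ⟨a, rfl⟩ y0 hy0i
    obtain ⟨b, hb, y, hy, hyx⟩ := hE.2 _ (interior_subset hay)
    have hmem : X.act (b⁻¹ * a) ∈ {γ : X.N ≃ₗ[ℝ] X.N | γ ∈ X.act.range ∧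
        ∃ y ∈ interior X.K, y ∈ MK.cone E ∧ γ y ∈ MK.cone E} := by
      refine ⟨⟨_, rfl⟩, y0, hy0i, hy0, ?_⟩
      have e1 : X.act (b⁻¹ * a) y0 = y := by
        have : mv X.act (b⁻¹ * a) y0 = y := by rw [mv_mul, ← hyx, mv_inv]
        exact this
      rw [e1]; exact hy
    refine ⟨g (X.act (b⁻¹ * a)), Finset.mem_image_of_mem _ (hS.mem_toFinset.2 hmem), b, hb,
      fun x => ?_⟩
    have e2 : X.act (g (X.act (b⁻¹ * a))) = X.act (b⁻¹ * a) := hg _ ⟨_, rfl⟩
    have e3 : mv X.act (g (X.act (b⁻¹ * a))) x = mv X.act (b⁻¹ * a) x := by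
      simp only [mv]; rw [e2]
    rw [mv_mul, e3, ← mv_mul, mul_inv_cancel_left]
  · rintro ⟨hX, S, hS⟩
    obtain ⟨E, hE⟩ := covered_of_q1 X ⊤ ((q1_top X).2 hX)
    refine q1_of_covered X B (E := (S ×ˢ E).image (fun p => mv X.act p.1 p.2)) ⟨?_, ?_⟩
    · intro e he
      obtain ⟨⟨s, e'⟩, hp, rfl⟩ := Finset.mem_image.1 he
      have he' := hE.1 e' (Finset.mem_product.1 hp).2
      exact ⟨X.stable_lattice s e' he'.1, X.stable_cone s e' he'.2⟩
    · intro x hx
      obtain ⟨a, -, y, hy, hyx⟩ := hE.2 x hx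
      obtain ⟨s, hs, b, hb, hab⟩ := hS a
      refine ⟨b, hb, mv X.act s y, ?_, ?_⟩
      · refine map_cone (mv_linear X.act s) (fun e he => cone_of_mem ?_) hy
        exact Finset.mem_image.2 ⟨(s, e), Finset.mem_product.2 ⟨hs, he⟩, rfl⟩
      · rw [← mv_mul, ← hab, hyx]

end Pool.Agent.TH30.MK.Pres
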