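import Pool.Agent.TH30.MK.Data

/-!
# Finiteness of lifts of a finite group up to conjugation by the kernel
-/

namespace Pool.Agent.TH30.MK

open Set

set_option linter.unusedSectionVars false

/-- **Finiteness of lifts.**  Let `act : A →* B` be a homomorphism whose kernel contains, with
finite index, a normal subgroup `D` of `A`, commutative, divisible and with finitely many elements
of each finite order.  For a finite group `G`, the homomorphisms `G → A` with given composite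
`G → B` form finitely many classes under conjugation by the kernel. -/
theorem finite_lifts {A B G : Type*} [Group A] [Group B] [Group G] [Finite G] (act : A →* B)
    (D : Subgroup A) (hDn : D.Normal) (hD1 : ∀ d ∈ D, act d = 1)
    (hDc : ∀ d ∈ D, ∀ d' ∈ D, d * d' = d' * d)
    (hDd : ∀ n : ℕ, 0 < n → ∀ d ∈ D, ∃ t ∈ D, t ^ n = d)
    (hDt : ∀ n : ℕ, 0 < n → {d : A | d ∈ D ∧ d ^ n = 1}.Finite)
    (S : Finset A) (hS : ∀ a, act a = 1 → ∃ s ∈ S, ∃ d ∈ D, a = s * d)
    (θ : G → B) : ∃ T : Set (G → A), T.Finite ∧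
      ∀ ψ : G →* A, (∀ g, act (ψ g) = θ g) →
        ∃ ψ' ∈ T, ∃ k : A, act k = 1 ∧ ∀ g, ψ g = k⁻¹ * ψ' g * k := by
  classical
  haveI := Fintype.ofFinite G
  set n : ℕ := Fintype.card G with hn
  have hn0 : 0 < n := Fintype.card_pos
  -- coset representatives
  let a0 : G → A := fun g => if h : ∃ a, act a = θ g then h.choose else 1
  have ha0 : ∀ ψ : G →* A, (∀ g, act (ψ g) = θ g) → ∀ g, act (a0 g) = θ g := by
    intro ψ hψ g
    have h : ∃ a, act a = θ g := ⟨ψ g, hψ g⟩
    have : a0 g = h.choose := dif_pos h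
    rw [this]; exact h.choose_spec
  let Tg : G → Set A := fun g => (fun s => a0 g * s) '' (S : Set A)
  have hTg : ∀ g, (Tg g).Finite := fun g => (Finset.finite_toSet S).image _
  have hτfin : (Set.pi univ Tg).Finite := Set.Finite.pi hTg
  let cls : (G → A) → (G →* A) → Prop := fun τ ψ => ∀ g, (τ g)⁻¹ * ψ g ∈ D
  let rep : (G → A) → (G → A) := fun τ =>
    if h : ∃ ψ : G →* A, cls τ ψ then (h.choose : G → A) else 1
  let eps : Set (G → A) := Set.pi univ (fun _ => {d : A | d ∈ D ∧ d ^ n = 1})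
  have heps : eps.Finite := Set.Finite.pi (fun _ => hDt n hn0)
  refine ⟨⋃ τ ∈ Set.pi univ Tg, (fun ε : G → A => fun g => ε g * rep τ g) '' eps,
    Set.Finite.biUnion hτfin (fun τ _ => heps.image _), fun ψ hψ => ?_⟩
  -- the class of `ψ`
  have h1 : ∀ g, ∃ s ∈ S, (a0 g * s)⁻¹ * ψ g ∈ D := by
    intro g
    obtain ⟨s, hs, d, hd, hsd⟩ := hS ((a0 g)⁻¹ * ψ g) (by
      rw [map_mul, map_inv, ha0 ψ hψ g, hψ g, inv_mul_cancel])
    refine ⟨s, hs, ?_⟩
    have : (a0 g * s)⁻¹ * ψ g = d := by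
      rw [mul_inv_rev, mul_assoc, hsd]; group
    rw [this]; exact hd
  choose s hs hsD using h1
  set τ : G → A := fun g => a0 g * s g with hτ
  have hτmem : τ ∈ Set.pi univ Tg := fun g _ => ⟨s g, hs g, rfl⟩
  have hex : ∃ ψ : G →* A, cls τ ψ := ⟨ψ, hsD⟩
  obtain ⟨ψ₀, hψ₀⟩ : ∃ ψ₀ : G →* A, cls τ ψ₀ ∧ rep τ = ψ₀ :=
    ⟨hex.choose, hex.choose_spec, dif_pos hex⟩
  obtain ⟨hc0, hrep⟩ := hψ₀
  -- the cocycle
  let d : G → A := fun g => ψ g * (ψ₀ g)⁻¹
  have hdD : ∀ g, d g ∈ D := by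
    intro g
    have e1 : (ψ₀ g)⁻¹ * ψ g ∈ D := by
      have := D.mul_mem (D.inv_mem (hc0 g)) (hsD g)
      have e : ((τ g)⁻¹ * ψ₀ g)⁻¹ * ((a0 g * s g)⁻¹ * ψ g) = (ψ₀ g)⁻¹ * ψ g := by
        simp only [hτ]; group
      rwa [e] at this
    have := hDn.conj_mem _ e1 (ψ₀ g)
    have e : ψ₀ g * ((ψ₀ g)⁻¹ * ψ g) * (ψ₀ g)⁻¹ = d g := by simp only [d]; group
    rwa [e] at this
  have hcoc : ∀ g k, d (g * k) = d g * (ψ₀ g * d k * (ψ₀ g)⁻¹) := by
    intro g k
    simp only [d, map_mul]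
    group
  -- work in the commutative group `D`
  letI : CommGroup D := { (inferInstance : Group D) with
    mul_comm := fun a b => Subtype.ext (hDc a.1 a.2 b.1 b.2) }
  let dD : G → D := fun g => ⟨d g, hdD g⟩
  let cj : G → (D →* D) := fun g =>
    { toFun := fun x => ⟨ψ₀ g * x * (ψ₀ g)⁻¹, hDn.conj_mem _ x.2 _⟩
      map_one' := Subtype.ext (by simp)
      map_mul' := fun x y => Subtype.ext (by simp) }
  have hcocD : ∀ g k, dD (g * k) = dD g * cj g (dD k) := fun g k => Subtype.ext (hcoc g k)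
  let sD : D := ∏ k : G, dD k
  have hsD' : ∀ g, dD g ^ n * cj g sD = sD := by
    intro g
    have e1 : cj g sD = ∏ k : G, cj g (dD k) := map_prod _ _ _
    have e2 : dD g ^ n = ∏ _k : G, dD g := by
      rw [Finset.prod_const, Finset.card_univ]
    rw [e1, e2, ← Finset.prod_mul_distrib]
    refine Fintype.prod_equiv (Equiv.mulLeft g) _ _ (fun k => ?_)
    simp [hcocD]
  obtain ⟨t, htD, htn⟩ := hDd n hn0 sD.1 sD.2
  let tD : D := ⟨t, htD⟩
  have htn' : tD ^ n = sD := Subtype.ext (by simpa using htn)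
  have heq : ∀ g, (dD g * cj g tD * tD⁻¹) ^ n = 1 := by
    intro g
    rw [mul_pow, mul_pow, inv_pow, ← map_pow, htn', hsD' g, mul_inv_cancel]
  let ε : G → A := fun g => ((dD g * cj g tD * tD⁻¹ : D) : A)
  have hεm : ε ∈ eps := by
    intro g _
    refine ⟨(dD g * cj g tD * tD⁻¹ : D).2, ?_⟩
    have := congrArg (fun x : D => (x : A)) (heq g)
    simpa [ε] using this
  refine ⟨fun g => ε g * rep τ g, ?_, t⁻¹, by rw [map_inv, hD1 t htD, inv_one], fun g => ?_⟩
  · rw [Set.mem_iUnion₂]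
    exact ⟨τ, hτmem, ε, hεm, rfl⟩
  · have e1 : ε g = t⁻¹ * (d g * (ψ₀ g * t * (ψ₀ g)⁻¹)) := by
      have : (dD g * cj g tD * tD⁻¹ : D) = tD⁻¹ * (dD g * cj g tD) := mul_comm _ _
      simp only [ε, this]
      rfl
    simp only [hrep, e1, d]
    group

namespace Dat

theorem finiteLifts {X : Dat} (h : X.KernelCondition) (G : Subgroup X.A) [Finite G] :
    FiniteLifts X G := by
  obtain ⟨D, hDn, hD1, hDc, hDd, hDt, S, hS⟩ := h
  exact fun θ => finite_lifts X.act D hDn hD1 hDc hDd hDt S hS θ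

/-- **Main theorem.**  The cone conjecture for the factors of a product implies the cone conjecture
for every quotient of the product by a finite group. -/
theorem main {I : Type} [Fintype I] [DecidableEq I] (F : I → Dat) (X : Dat) (P : IsProduct F X)
    (hK : X.KernelCondition) (G : Subgroup X.A) [Finite G] (Y : Dat) (Q : IsQuotient X G Y)
    (hF : ∀ i, (F i).ConeConjecture) : Y.ConeConjecture := by
  have hX : X.Covered := product_covered P (fun i => covered_of_conj (hF i))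
  exact conj_of (quotient_ratSpanned Q (ratSpanned_of_covered hX))
    (quotient_openCovered Q (finiteLifts hK G) hX)

end Dat

end Pool.Agent.TH30.MK
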