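import Pool.Agent.TH30.MK.Face

/-!
# Groups of diagonalisable pseudo-automorphisms of maximal rank
-/

namespace Pool.Agent.TH30.MK.Pres

open Set

set_option linter.unusedSectionVars false

/-! ### compact subsets of the open cone -/

theorem compact_cover (X : Variety) {B : Set X.N} (hB : IsCompact B) (hBC : B ⊆ interior X.K) :
    ∃ E : Finset X.N, (∀ e ∈ E, e ∈ X.Λ ∧ e ∈ interior X.K) ∧ B ⊆ MK.cone E := by
  classical
  obtain ⟨ξ, hc⟩ := X.toDat.exists_core
  obtain ⟨n, b, hb⟩ := X.lattice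
  rcases Nat.eq_zero_or_pos n with hn0 | hn
  · subst hn0
    refine ⟨∅, by simp, fun x _ => ?_⟩
    have : x = 0 := b.ext_elem (fun i => i.elim0)
    rw [this]; exact cone_zero _
  have hnR : (0 : ℝ) < n := by exact_mod_cast hn
  have hbΛ : ∀ i, b i ∈ X.Λ := by
    intro i
    rw [hb]
    intro j
    by_cases h : i = j
    · exact ⟨1, by simp [h]⟩
    · exact ⟨0, by simp [h]⟩
  obtain ⟨r, hr, hthick⟩ := hB.exists_thickening_subset_open isOpen_interior hBC
  obtain ⟨D, hD⟩ := hB.isBounded.exists_norm_le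
  set M : ℝ := ∑ i, ‖b i‖ with hM
  have hM0 : 0 ≤ M := Finset.sum_nonneg (fun i _ => norm_nonneg _)
  obtain ⟨N, hN⟩ := exists_nat_gt ((M + n * M) / r)
  have hN0 : (0 : ℝ) < N := lt_of_le_of_lt (by positivity) hN
  have hNr : (N : ℝ)⁻¹ * (M + n * M) < r := by
    rw [div_lt_iff₀ hr] at hN
    rw [inv_mul_lt_iff₀ hN0]
    linarith
  have hfin := lat_fin X.lattice (N * (|D| + r))
  have hfin2 : {e : X.N | e ∈ X.Λ ∧ e ∈ interior X.K ∧ ‖e‖ ≤ N * (|D| + r)}.Finite :=
    hfin.subset (fun e he => ⟨he.1, he.2.2⟩)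
  refine ⟨hfin2.toFinset, fun e he => ?_, fun x hx => ?_⟩
  · have := hfin2.mem_toFinset.1 he
    exact ⟨this.1, this.2.1⟩
  · set fl : Fin n → ℤ := fun i => ⌊(N : ℝ) * b.repr x i⌋ with hfl
    set v : X.N := ∑ i, (fl i) • b i with hv
    have hvΛ : v ∈ X.Λ := AddSubgroup.sum_mem _ (fun i _ => AddSubgroup.zsmul_mem _ (hbΛ i) _)
    set t : Fin n → ℝ := fun i => (N : ℝ) * b.repr x i - fl i with ht
    have ht0 : ∀ i, 0 ≤ t i := fun i => by
      have := Int.floor_le ((N : ℝ) * b.repr x i); simp only [ht, hfl]; linarith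
    have ht1 : ∀ i, t i ≤ 1 := fun i => by
      have := Int.lt_floor_add_one ((N : ℝ) * b.repr x i); simp only [ht, hfl]; linarith
    have hNx : (N : ℝ) • x = v + ∑ i, t i • b i := by
      have e1 : x = ∑ i, b.repr x i • b i := (b.sum_repr x).symm
      have e2 : (N : ℝ) • x = ∑ i, ((N : ℝ) * b.repr x i) • b i := by
        conv_lhs => rw [e1]
        rw [Finset.smul_sum]
        exact Finset.sum_congr rfl (fun i _ => by rw [smul_smul])
      rw [e2, hv, ← Finset.sum_add_distrib]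
      refine Finset.sum_congr rfl (fun i _ => ?_)
      rw [← Int.cast_smul_eq_zsmul ℝ, ← add_smul]
      congr 1
      simp only [ht]; ring
    have hdist : ∀ w : X.N, ‖w‖ ≤ n * M → ‖x - (N : ℝ)⁻¹ • (v + w)‖ < r := by
      intro w hw
      have e1 : x - (N : ℝ)⁻¹ • (v + w) = (N : ℝ)⁻¹ • ((∑ i, t i • b i) - w) := by
        have : x = (N : ℝ)⁻¹ • ((N : ℝ) • x) := by
          rw [smul_smul, inv_mul_cancel₀ hN0.ne', one_smul]
        conv_lhs => rw [this, hNx]
        rw [← smul_sub]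
        congr 1; abel
      rw [e1, norm_smul, norm_inv, Real.norm_natCast]
      have e2 : ‖(∑ i, t i • b i) - w‖ ≤ M + n * M := by
        refine (norm_sub_le _ _).trans (add_le_add ?_ hw)
        refine (norm_sum_le _ _).trans (Finset.sum_le_sum (fun i _ => ?_))
        rw [norm_smul, Real.norm_of_nonneg (ht0 i)]
        calc t i * ‖b i‖ ≤ 1 * ‖b i‖ := mul_le_mul_of_nonneg_right (ht1 i) (norm_nonneg _)
          _ = ‖b i‖ := one_mul _
      calc (N : ℝ)⁻¹ * ‖(∑ i, t i • b i) - w‖ ≤ (N : ℝ)⁻¹ * (M + n * M) :=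
            mul_le_mul_of_nonneg_left e2 (inv_nonneg.2 hN0.le)
        _ < r := hNr
    have hmem : ∀ w : X.N, ‖w‖ ≤ n * M → w ∈ X.Λ → v + w ∈ hfin2.toFinset := by
      intro w hw hwΛ
      rw [hfin2.mem_toFinset]
      have hd := hdist w hw
      have hin : (N : ℝ)⁻¹ • (v + w) ∈ interior X.K := by
        apply hthick
        rw [Metric.mem_thickening_iff]
        exact ⟨x, hx, by rw [dist_comm, dist_eq_norm]; exact hd⟩
      refine ⟨X.Λ.add_mem hvΛ hwΛ, ?_, ?_⟩
      · have h0 : (N : ℝ) • ((N : ℝ)⁻¹ • (v + w)) ∈ interior X.K := hc.smul N hN0 _ hin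
        rwa [smul_smul, mul_inv_cancel₀ hN0.ne', one_smul] at h0
      · have h1 : ‖(N : ℝ)⁻¹ • (v + w)‖ ≤ |D| + r := by
          have h2 : ‖(N : ℝ)⁻¹ • (v + w)‖ ≤ ‖x‖ + ‖x - (N : ℝ)⁻¹ • (v + w)‖ := by
            have := norm_sub_le x (x - (N : ℝ)⁻¹ • (v + w))
            rwa [sub_sub_cancel] at this
          have h3 := hD x hx
          linarith [le_abs_self D]
        rw [norm_smul, norm_inv, Real.norm_natCast, inv_mul_le_iff₀ hN0] at h1
        exact h1
    have hv0 : v ∈ hfin2.toFinset := by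
      have := hmem 0 (by rw [norm_zero]; positivity) X.Λ.zero_mem
      rwa [add_zero] at this
    have hvi : ∀ i, v + (n : ℝ) • b i ∈ hfin2.toFinset := by
      intro i
      refine hmem _ ?_ ?_
      · rw [norm_smul, Real.norm_natCast]
        exact mul_le_mul_of_nonneg_left
          (Finset.single_le_sum (fun j _ => norm_nonneg (b j)) (Finset.mem_univ i)) hnR.le
      · rw [Nat.cast_smul_eq_nsmul ℝ]; exact X.Λ.nsmul_mem (hbΛ i) n
    have hcomb : (N : ℝ) • x
        = ∑ i, ((n : ℝ)⁻¹ • ((1 - t i) • v + t i • (v + (n : ℝ) • b i))) := by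
      rw [hNx]
      have e1 : ∀ i, (n : ℝ)⁻¹ • ((1 - t i) • v + t i • (v + (n : ℝ) • b i))
          = (n : ℝ)⁻¹ • v + t i • b i := by
        intro i
        rw [smul_add (t i), ← add_assoc, ← add_smul, sub_add_cancel, one_smul, smul_add,
          smul_smul, smul_smul]
        congr 2
        field_simp
      rw [Finset.sum_congr rfl (fun i _ => e1 i), Finset.sum_add_distrib, Finset.sum_const,
        Finset.card_univ, Fintype.card_fin, ← Nat.cast_smul_eq_nsmul ℝ, smul_smul,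
        mul_inv_cancel₀ hnR.ne', one_smul]
    have hNxc : (N : ℝ) • x ∈ MK.cone hfin2.toFinset := by
      rw [hcomb]
      refine cone_sum _ _ (fun i _ => cone_smul (inv_nonneg.2 hnR.le) (cone_add ?_ ?_))
      · exact cone_smul (by linarith [ht1 i]) (cone_of_mem hv0)
      · exact cone_smul (ht0 i) (cone_of_mem (hvi i))
    have := cone_smul (inv_nonneg.2 hN0.le) hNxc
    rwa [smul_smul, inv_mul_cancel₀ hN0.ne', one_smul] at this

/-! ### a cocompactness lemma -/

theorem cocompact {n : ℕ} (T : AddSubgroup (Fin n → ℝ))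
    (hT : Submodule.span ℝ (insert (fun _ => (1 : ℝ)) (T : Set (Fin n → ℝ))) = ⊤) :
    ∃ M : ℝ, 0 ≤ M ∧ ∀ x : Fin n → ℝ, ∃ t ∈ T, ∃ c : ℝ, ∀ i, |x i - t i - c| ≤ M := by
  classical
  have hs : ⊤ ≤ Submodule.span ℝ (insert (fun _ => (1 : ℝ)) (T : Set (Fin n → ℝ))) := by rw [hT]
  let b := Module.Basis.ofSpan hs
  have hb : ∀ k, b k ∈ insert (fun _ => (1 : ℝ)) (T : Set (Fin n → ℝ)) := fun k =>
    Module.Basis.ofSpan_subset hs (Set.mem_range_self k)
  haveI : Finite ((linearIndepOn_empty ℝ (id : (Fin n → ℝ) → (Fin n → ℝ))).extend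
      (empty_subset (insert (fun _ => (1 : ℝ)) (T : Set (Fin n → ℝ))))) :=
    Module.Finite.finite_basis b
  haveI := Fintype.ofFinite ((linearIndepOn_empty ℝ (id : (Fin n → ℝ) → (Fin n → ℝ))).extend
      (empty_subset (insert (fun _ => (1 : ℝ)) (T : Set (Fin n → ℝ)))))
  refine ⟨∑ k, ‖b k‖, Finset.sum_nonneg (fun k _ => norm_nonneg _), fun x => ?_⟩
  refine ⟨∑ k, if b k ∈ T then (⌊b.repr x k⌋ : ℤ) • b k else 0, ?_,
    ∑ k, if b k ∈ T then 0 else b.repr x k, ?_⟩
  · refine AddSubgroup.sum_mem _ (fun k _ => ?_)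
    split_ifs with h
    · exact T.zsmul_mem h _
    · exact T.zero_mem
  · intro i
    have e1 : x = ∑ k, b.repr x k • b k := (b.sum_repr x).symm
    have e2 : x i = ∑ k, b.repr x k * b k i := by
      conv_lhs => rw [e1]
      rw [Finset.sum_apply]
      rfl
    have e3 : x i - (∑ k, if b k ∈ T then (⌊b.repr x k⌋ : ℤ) • b k else 0) i
        - (∑ k, if b k ∈ T then 0 else b.repr x k)
        = ∑ k, (if b k ∈ T then (b.repr x k - ⌊b.repr x k⌋) * b k i else 0) := by
      rw [e2, Finset.sum_apply, ← Finset.sum_sub_distrib, ← Finset.sum_sub_distrib]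
      refine Finset.sum_congr rfl (fun k _ => ?_)
      by_cases h : b k ∈ T
      · simp only [h, if_true]
        rw [Pi.smul_apply, zsmul_eq_mul]; ring
      · simp only [h, if_false]
        rcases hb k with h1 | h1
        · rw [h1]; simp
        · exact absurd h1 h
    rw [e3]
    refine (Finset.abs_sum_le_sum_abs _ _).trans (Finset.sum_le_sum (fun k _ => ?_))
    by_cases h : b k ∈ T
    · simp only [h, if_true]
      rw [abs_mul]
      have h1 := Int.floor_le (b.repr x k)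
      have h2 := Int.lt_floor_add_one (b.repr x k)
      have h3 : |b.repr x k - ⌊b.repr x k⌋| ≤ 1 := by
        rw [abs_le]; constructor <;> linarith
      have h4 : |b k i| ≤ ‖b k‖ := by
        have := norm_le_pi_norm (b k) i
        rwa [Real.norm_eq_abs] at this
      calc |b.repr x k - ⌊b.repr x k⌋| * |b k i| ≤ 1 * ‖b k‖ :=
            mul_le_mul h3 h4 (abs_nonneg _) zero_le_one
        _ = ‖b k‖ := one_mul _
    · simp only [h, if_false, abs_zero]; exact norm_nonneg _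

/-! ### determinants -/

theorem det_one {V : Type*} [NormedAddCommGroup V] [NormedSpace ℝ V] [FiniteDimensional ℝ V]
    {Λ : AddSubgroup V} (hL : IsLat Λ) (γ : V ≃ₗ[ℝ] V) (h1 : ∀ v ∈ Λ, γ v ∈ Λ)
    (h2 : ∀ v ∈ Λ, (γ⁻¹ : V ≃ₗ[ℝ] V) v ∈ Λ) : |LinearMap.det (γ : V →ₗ[ℝ] V)| = 1 := by
  classical
  obtain ⟨n, b, hb⟩ := hL
  have hbΛ : ∀ i, b i ∈ Λ := by
    intro i
    rw [hb]
    intro j
    by_cases h : i = j
    · exact ⟨1, by simp [h]⟩
    · exact ⟨0, by simp [h]⟩
  have key : ∀ δ : V ≃ₗ[ℝ] V, (∀ v ∈ Λ, δ v ∈ Λ) →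
      ∃ k : ℤ, LinearMap.det (δ : V →ₗ[ℝ] V) = k := by
    intro δ hδ
    choose m hm using fun i j => (hb (δ (b j))).1 (hδ _ (hbΛ j)) i
    refine ⟨(Matrix.of m).det, ?_⟩
    rw [← LinearMap.det_toMatrix b]
    have : LinearMap.toMatrix b b (δ : V →ₗ[ℝ] V) = (Matrix.of m).map (Int.castRingHom ℝ) := by
      ext i j
      rw [LinearMap.toMatrix_apply]
      simp [hm i j]
    rw [this, ← RingHom.mapMatrix_apply, ← RingHom.map_det]
    rfl
  obtain ⟨k, hk⟩ := key γ h1
  obtain ⟨l, hl⟩ := key γ⁻¹ h2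
  have hkl : (k : ℝ) * l = 1 := by
    rw [← hk, ← hl, ← LinearMap.det_comp]
    have : (γ : V →ₗ[ℝ] V) ∘ₗ ((γ⁻¹ : V ≃ₗ[ℝ] V) : V →ₗ[ℝ] V) = LinearMap.id := by
      ext v
      exact Core.apply_inv v
    rw [this, LinearMap.det_id]
  have hkl' : k * l = 1 := by exact_mod_cast hkl
  rw [hk]
  rcases Int.eq_one_or_neg_one_of_mul_eq_one hkl' with h | h
  · rw [h]; simp
  · rw [h]; simp

end Pool.Agent.TH30.MK.Pres
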