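import Pool.Agent.TH30.MK.MaxRank

/-!
# The cone conjecture for maximal rank diagonalisable groups
-/

namespace Pool.Agent.TH30.MK.Pres

open Set

set_option linter.unusedSectionVars false

/-- the vectors `(t₁, …, t_n)` such that some element of the group of `X` acts on the basis `v` as the
diagonal matrix with entries `exp t₁, …, exp t_n` -/
def logs (X : Variety) {n : ℕ} (v : Module.Basis (Fin n) ℝ X.N) : Set (Fin n → ℝ) :=
  {t | ∃ a : X.A, ∀ i, mv X.act a (v i) = Real.exp (t i) • v i}

/-- `v` is a basis of `N` consisting of classes in the closure of the cone, and the logarithms of the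
diagonal elements of the group, together with `(1, …, 1)`, span `ℝⁿ`; `Eff` is a larger stable cone,
spanned by integral classes, on whose closure a linear form is positive. -/
structure MaxDiag (X : Variety) (Eff : Set X.N) {n : ℕ} (v : Module.Basis (Fin n) ℝ X.N) :
    Prop where
  sub : X.K ⊆ Eff
  cone : IsCone Eff
  stable : Stable X.act Eff
  pointed : HasDegree X.Λ Eff
  integral : ∀ x ∈ Eff, ∃ F : Finset X.N, (∀ e ∈ F, e ∈ X.Λ ∧ e ∈ Eff) ∧ x ∈ MK.cone F
  limit : ∀ i, v i ∈ closure X.K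
  rank : Submodule.span ℝ (insert (fun _ => (1 : ℝ)) (logs X v)) = ⊤

section

variable {X : Variety} {Eff : Set X.N} {n : ℕ} {v : Module.Basis (Fin n) ℝ X.N}

theorem mv_smul_vec {A V : Type} [NormedAddCommGroup V] [NormedSpace ℝ V] [Group A]
    (ρ : LinAct A V) (a : A) (t : ℝ) (w : V) : mv ρ a (t • w) = t • mv ρ a w :=
  (mv_linear ρ a).map_smul t w

/-- the logarithms form a group -/
def logGrp (X : Variety) {n : ℕ} (v : Module.Basis (Fin n) ℝ X.N) : AddSubgroup (Fin n → ℝ) where
  carrier := logs X v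
  zero_mem' := ⟨1, fun i => by simp [mv]⟩
  add_mem' := by
    rintro t t' ⟨a, ha⟩ ⟨a', ha'⟩
    refine ⟨a * a', fun i => ?_⟩
    rw [mv_mul, ha', mv_smul_vec, ha, smul_smul, Pi.add_apply, Real.exp_add, mul_comm]
  neg_mem' := by
    rintro t ⟨a, ha⟩
    refine ⟨a⁻¹, fun i => ?_⟩
    have h1 : mv X.act a⁻¹ (mv X.act a (v i)) = v i := mv_inv _ _ _
    rw [ha, mv_smul_vec] at h1
    have h2 : Real.exp ((-t) i) • v i = (Real.exp (-t i)) • (Real.exp (t i) • mv X.act a⁻¹ (v i)) := by
      rw [h1]; rfl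
    rw [h2, smul_smul, ← Real.exp_add, neg_add_cancel, Real.exp_zero, one_smul]

theorem repr_mv {a : X.A} {t : Fin n → ℝ} (ha : ∀ i, mv X.act a (v i) = Real.exp (t i) • v i)
    (x : X.N) (i : Fin n) : v.repr (mv X.act a x) i = Real.exp (t i) * v.repr x i := by
  have e1 : mv X.act a x = ∑ k, (v.repr x k * Real.exp (t k)) • v k := by
    have l : ∀ y, mv X.act a y = (X.act a : X.N →ₗ[ℝ] X.N) y := fun y => rfl
    conv_lhs => rw [← v.sum_repr x, l, map_sum]
    refine Finset.sum_congr rfl (fun k _ => ?_)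
    rw [map_smul, ← l, ha, smul_smul]
  rw [e1, map_sum, Finset.sum_apply']
  simp only [map_smul, Finsupp.smul_apply, Module.Basis.repr_self, smul_eq_mul]
  rw [Finset.sum_eq_single i]
  · simp; ring
  · intro k _ hk
    simp [Finsupp.single_eq_of_ne (Ne.symm hk)]
  · intro h; exact absurd (Finset.mem_univ i) h

theorem sum_zero {t : Fin n → ℝ} (ht : t ∈ logs X v) : ∑ i, t i = 0 := by
  classical
  obtain ⟨a, ha⟩ := ht
  have h1 := det_one X.lattice (X.act a) (fun w hw => X.stable_lattice a w hw) (fun w hw => by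
    have := X.stable_lattice a⁻¹ w hw
    rw [← map_inv]
    exact this)
  have h2 : LinearMap.det (X.act a : X.N →ₗ[ℝ] X.N) = ∏ i, Real.exp (t i) := by
    rw [← LinearMap.det_toMatrix v]
    have : LinearMap.toMatrix v v (X.act a : X.N →ₗ[ℝ] X.N)
        = Matrix.diagonal (fun i => Real.exp (t i)) := by
      ext i j
      rw [LinearMap.toMatrix_apply]
      have e1 : (X.act a : X.N →ₗ[ℝ] X.N) (v j) = Real.exp (t j) • v j := ha j
      rw [e1, map_smul, Finsupp.smul_apply, Module.Basis.repr_self, smul_eq_mul,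
        Matrix.diagonal_apply]
      by_cases h : i = j
      · subst h; simp
      · simp [Finsupp.single_eq_of_ne h, h]
    rw [this, Matrix.det_diagonal]
  rw [h2, abs_of_pos (Finset.prod_pos (fun i _ => Real.exp_pos _)), ← Real.exp_sum] at h1
  exact Real.exp_eq_one_iff _ |>.1 h1

theorem clos_stable {Eff : Set X.N} (hs : Stable X.act Eff) (hc : IsCone Eff) (a : X.A) {r : ℝ}
    (hr : 0 ≤ r) {y : X.N} (hy : y ∈ closure Eff) : r • mv X.act a y ∈ closure Eff := by
  have hcont : Continuous (fun z : X.N => r • (X.act a) z) :=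
    (LinearMap.continuous_of_finiteDimensional ((X.act a : X.N ≃ₗ[ℝ] X.N) : X.N →ₗ[ℝ] X.N)).const_smul r
  exact map_mem_closure (f := fun z : X.N => r • (X.act a) z) hcont hy
    (fun z hz => hc.2.2 r hr _ (hs a z hz))

/-- effective classes have non-negative coordinates -/
theorem coord_nonneg (h : MaxDiag X Eff v) {y : X.N} (hy : y ∈ closure Eff) (i : Fin n) :
    0 ≤ v.repr y i := by
  classical
  by_contra hneg
  push Not at hneg
  obtain ⟨M, hM0, hM⟩ := cocompact (logGrp X v) h.rank
  have hcl : v.repr y i • v i ∈ closure Eff := by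
    rw [← closure_closure, Metric.mem_closure_iff]
    intro ε hε
    set D : ℝ := ∑ k, |v.repr y k| * ‖v k‖ with hD
    have hD0 : 0 ≤ D := Finset.sum_nonneg (fun k _ => by positivity)
    obtain ⟨m, hm⟩ := exists_nat_gt (D / ε)
    have hm0 : (0 : ℝ) < m := lt_of_le_of_lt (by positivity) hm
    obtain ⟨t, htT, c, htc⟩ := hM (fun k => if k = i then (m : ℝ) + 2 * M else 0)
    obtain ⟨a, ha⟩ := htT
    have hgap : ∀ k, k ≠ i → t k - t i ≤ -(m : ℝ) := by
      intro k hk
      have h1 := abs_le.1 (htc i)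
      have h2 := abs_le.1 (htc k)
      simp only [if_true] at h1
      simp only [hk, if_false] at h2
      linarith [h1.1, h1.2, h2.1, h2.2]
    refine ⟨Real.exp (-t i) • mv X.act a y,
      clos_stable h.stable h.cone a (Real.exp_pos _).le hy, ?_⟩
    rw [dist_eq_norm]
    have e1 : v.repr y i • v i - Real.exp (-t i) • mv X.act a y
        = ∑ k, (if k = i then (0 : ℝ) else -(Real.exp (t k - t i) * v.repr y k)) • v k := by
      apply v.ext_elem
      intro k
      rw [map_sub, map_smul, map_smul, Finsupp.sub_apply, Finsupp.smul_apply, Finsupp.smul_apply,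
        repr_mv ha, Module.Basis.repr_sum_self, Module.Basis.repr_self]
      by_cases hk : k = i
      · subst hk
        simp only [Finsupp.single_eq_same, smul_eq_mul, mul_one, if_true]
        rw [← mul_assoc, ← Real.exp_add, neg_add_cancel, Real.exp_zero, one_mul, sub_self]
      · simp only [hk, if_false, smul_eq_mul]
        rw [Finsupp.single_eq_of_ne hk, mul_zero, zero_sub, ← mul_assoc, ← Real.exp_add]
        congr 3; ring
    rw [e1]
    have e2 : ‖∑ k, (if k = i then (0 : ℝ) else -(Real.exp (t k - t i) * v.repr y k)) • v k‖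
        ≤ Real.exp (-(m : ℝ)) * D := by
      refine (norm_sum_le _ _).trans ?_
      rw [hD, Finset.mul_sum]
      refine Finset.sum_le_sum (fun k _ => ?_)
      rw [norm_smul, Real.norm_eq_abs]
      by_cases hk : k = i
      · simp only [hk, if_true, abs_zero, zero_mul]; positivity
      · simp only [hk, if_false, abs_neg, abs_mul, abs_of_pos (Real.exp_pos _)]
        rw [mul_assoc]
        exact mul_le_mul_of_nonneg_right (Real.exp_le_exp.2 (hgap k hk)) (by positivity)
    refine e2.trans_lt ?_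
    have e3 : Real.exp (-(m : ℝ)) * (m : ℝ) ≤ 1 := by
      have h1 := Real.add_one_le_exp (m : ℝ)
      rw [Real.exp_neg, inv_mul_le_iff₀ (Real.exp_pos _)]
      linarith
    rcases hD0.eq_or_lt with hz | hz
    · rw [← hz, mul_zero]; exact hε
    · have h5 : D < m * ε := by rwa [div_lt_iff₀ hε] at hm
      calc Real.exp (-(m : ℝ)) * D < Real.exp (-(m : ℝ)) * (m * ε) :=
            mul_lt_mul_of_pos_left h5 (Real.exp_pos _)
        _ = (Real.exp (-(m : ℝ)) * m) * ε := by ring
        _ ≤ 1 * ε := mul_le_mul_of_nonneg_right e3 hε.le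
        _ = ε := one_mul _
  obtain ⟨ξ, -, hξ⟩ := h.pointed
  have hvi : v i ∈ closure Eff := closure_mono h.sub (h.limit i)
  have hv0 : v i ≠ 0 := v.ne_zero i
  have h1 := hξ _ hvi hv0
  have h2 := hξ _ hcl (smul_ne_zero hneg.ne hv0)
  rw [map_smul, smul_eq_mul] at h2
  have h3 := mul_neg_of_neg_of_pos hneg h1
  linarith

/-- classes with positive coordinates are in the interior of the cone -/
theorem pos_interior (h : MaxDiag X Eff v) {x : X.N} (hx : ∀ i, 0 < v.repr x i) :
    x ∈ interior X.K := by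
  classical
  obtain ⟨ξ, hc⟩ := X.toDat.exists_core
  obtain ⟨c, hcK⟩ := X.interior_nonempty
  have hv : ∀ i, v i ∈ closure (interior X.K) := fun i => by
    have h1 : closure X.K ⊆ closure (interior X.K) :=
      closure_minimal (fun y hy => X.toDat.subset_clos hy) isClosed_closure
    exact h1 (h.limit i)
  obtain ⟨δ, hδ, hδx⟩ : ∃ δ : ℝ, 0 < δ ∧ ∀ i, 0 ≤ v.repr (x - δ • c) i := by
    rcases isEmpty_or_nonempty (Fin n) with hem | hne
    · exact ⟨1, one_pos, fun i => (hem.false i).elim⟩
    · obtain ⟨i0, hi0⟩ := Finite.exists_min (fun i => v.repr x i)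
      set D : ℝ := ∑ k, |v.repr c k| with hD
      have hD0 : 0 ≤ D := Finset.sum_nonneg (fun k _ => abs_nonneg _)
      refine ⟨v.repr x i0 / (D + 1), div_pos (hx i0) (by linarith), fun i => ?_⟩
      rw [map_sub, map_smul, Finsupp.sub_apply, Finsupp.smul_apply, smul_eq_mul, sub_nonneg]
      have h1 : v.repr c i ≤ D := (le_abs_self _).trans
        (Finset.single_le_sum (f := fun k => |v.repr c k|) (fun k _ => abs_nonneg _)
          (Finset.mem_univ i))
      have h2 : v.repr x i0 / (D + 1) * v.repr c i ≤ v.repr x i0 / (D + 1) * (D + 1) :=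
        mul_le_mul_of_nonneg_left (by linarith) (div_pos (hx i0) (by linarith)).le
      rw [div_mul_cancel₀ _ (by linarith : D + 1 ≠ 0)] at h2
      exact h2.trans (hi0 i)
  have h1 : x - δ • c ∈ closure (interior X.K) := by
    have e1 : x - δ • c = ∑ i, v.repr (x - δ • c) i • v i := (v.sum_repr _).symm
    rw [e1]
    have hall : ∀ s : Finset (Fin n),
        ∑ i ∈ s, v.repr (x - δ • c) i • v i ∈ closure (interior X.K) := by
      intro s
      induction s using Finset.induction_on with
      | empty => rw [Finset.sum_empty]; exact hc.zero_mem_clos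
      | insert a s ha ih =>
        rw [Finset.sum_insert ha]
        refine hc.clos_add ?_ ih
        rcases (hδx a).eq_or_lt with h0 | h0
        · rw [← h0, zero_smul]; exact hc.zero_mem_clos
        · exact hc.clos_smul h0 (hv a)
    exact hall Finset.univ
  have h2 : δ • c ∈ interior X.K := hc.smul δ hδ c hcK
  have h3 := hc.clos_add_mem h1 h2
  have e : x - δ • c + δ • c = x := sub_add_cancel _ _
  exact e ▸ h3

/-- non-zero lattice points with non-negative coordinates have positive coordinates -/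
theorem lattice_pos (h : MaxDiag X Eff v) {l : X.N} (hl : l ∈ X.Λ) (h0 : l ≠ 0)
    (hnn : ∀ i, 0 ≤ v.repr l i) (i : Fin n) : 0 < v.repr l i := by
  classical
  rcases (hnn i).eq_or_lt with hz | hz
  swap
  · exact hz
  exfalso
  obtain ⟨M, hM0, hM⟩ := cocompact (logGrp X v) h.rank
  -- non-zero lattice vectors have norm at least `δ`
  obtain ⟨δ, hδ, hδmin⟩ : ∃ δ : ℝ, 0 < δ ∧ ∀ w ∈ X.Λ, w ≠ 0 → δ ≤ ‖w‖ := by
    have hf : {w : X.N | (w ∈ X.Λ ∧ ‖w‖ ≤ ‖l‖) ∧ w ≠ 0}.Finite :=
      (lat_fin X.lattice ‖l‖).subset (fun w hw => hw.1)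
    obtain ⟨w0, hw0, hmin⟩ := Set.exists_min_image _ (fun w : X.N => ‖w‖) hf
      ⟨l, ⟨hl, le_refl _⟩, h0⟩
    refine ⟨‖w0‖, norm_pos_iff.2 hw0.2, fun w hw hw' => ?_⟩
    by_cases hle : ‖w‖ ≤ ‖l‖
    · exact hmin w ⟨⟨hw, hle⟩, hw'⟩
    · exact hw0.1.2.trans (not_le.1 hle).le
  have hn : (0 : ℝ) < n := by
    have : 0 < n := i.pos
    exact_mod_cast this
  set D : ℝ := ∑ k, v.repr l k * ‖v k‖ with hD
  have hD0 : 0 ≤ D := Finset.sum_nonneg (fun k _ => mul_nonneg (hnn k) (norm_nonneg _))
  obtain ⟨m, hm⟩ := exists_nat_gt (D / δ)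
  have hm0 : (0 : ℝ) < m := lt_of_le_of_lt (by positivity) hm
  obtain ⟨t, htT, c, htc⟩ := hM (fun k => if k = i then (n : ℝ) * (m + 2 * M) else 0)
  obtain ⟨a, ha⟩ := htT
  have hsum := sum_zero (X := X) (v := v) ⟨a, ha⟩
  have hlow : ∀ k, (if k = i then (n : ℝ) * (m + 2 * M) else 0) - c - M ≤ t k := by
    intro k
    have := (abs_le.1 (htc k)).2
    linarith
  have hc : (m : ℝ) + M ≤ c := by
    have h1 := Finset.sum_le_sum (fun k (_ : k ∈ Finset.univ) => hlow k)
    rw [hsum, Finset.sum_sub_distrib, Finset.sum_sub_distrib, Finset.sum_ite_eq' Finset.univ i,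
      if_pos (Finset.mem_univ i), Finset.sum_const, Finset.sum_const, Finset.card_univ,
      Fintype.card_fin, nsmul_eq_mul, nsmul_eq_mul] at h1
    have h2 : (n : ℝ) * (m + M) ≤ n * c := by nlinarith
    exact le_of_mul_le_mul_left h2 hn
  have htk : ∀ k, k ≠ i → t k ≤ -(m : ℝ) := by
    intro k hk
    have := (abs_le.1 (htc k)).1
    simp only [hk, if_false] at this
    linarith
  have hmem : mv X.act a l ∈ X.Λ := X.stable_lattice a l hl
  have hne : mv X.act a l ≠ 0 := by
    intro h1
    apply h0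
    have h2 : mv X.act a⁻¹ (mv X.act a l) = l := mv_inv _ _ _
    rw [h1] at h2
    rw [← h2]; simp [mv]
  have hnorm : ‖mv X.act a l‖ ≤ Real.exp (-(m : ℝ)) * D := by
    have e1 : mv X.act a l = ∑ k, (Real.exp (t k) * v.repr l k) • v k := by
      conv_lhs => rw [← v.sum_repr (mv X.act a l)]
      exact Finset.sum_congr rfl (fun k _ => by rw [repr_mv ha])
    rw [e1, hD, Finset.mul_sum]
    refine (norm_sum_le _ _).trans (Finset.sum_le_sum (fun k _ => ?_))
    rw [norm_smul, Real.norm_eq_abs, abs_mul, abs_of_pos (Real.exp_pos _), abs_of_nonneg (hnn k),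
      mul_assoc]
    by_cases hk : k = i
    · rw [hk, ← hz]; simp
    · exact mul_le_mul_of_nonneg_right (Real.exp_le_exp.2 (htk k hk))
        (mul_nonneg (hnn k) (norm_nonneg _))
  have h1 := hδmin _ hmem hne
  have e3 : Real.exp (-(m : ℝ)) * (m : ℝ) < 1 := by
    have h1 := Real.add_one_le_exp (m : ℝ)
    rw [Real.exp_neg, inv_mul_lt_iff₀ (Real.exp_pos _)]
    linarith
  have h5 : D ≤ m * δ := by
    rw [div_lt_iff₀ hδ] at hm
    exact hm.le
  have h6 : Real.exp (-(m : ℝ)) * D ≤ (Real.exp (-(m : ℝ)) * m) * δ := by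
    calc Real.exp (-(m : ℝ)) * D ≤ Real.exp (-(m : ℝ)) * (m * δ) :=
          mul_le_mul_of_nonneg_left h5 (Real.exp_pos _).le
      _ = _ := by ring
  have h7 : (Real.exp (-(m : ℝ)) * m) * δ < 1 * δ := mul_lt_mul_of_pos_right e3 hδ
  linarith

theorem eff_pos (h : MaxDiag X Eff v) {x : X.N} (hx : x ∈ Eff) (h0 : x ≠ 0) (i : Fin n) :
    0 < v.repr x i := by
  classical
  obtain ⟨F, hF, c, hc, hxc⟩ := h.integral x hx
  have hcoord : ∀ e ∈ F, ∀ k, 0 ≤ v.repr e k := fun e he k =>
    coord_nonneg h (subset_closure (hF e he).2) k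
  have hex : ∃ e ∈ F, c e • e ≠ 0 := by
    by_contra hcon
    push Not at hcon
    exact h0 (by rw [hxc]; exact Finset.sum_eq_zero hcon)
  obtain ⟨e0, he0, hne⟩ := hex
  have hce : 0 < c e0 := lt_of_le_of_ne (hc e0 he0) (fun h1 => hne (by rw [← h1, zero_smul]))
  have hee : e0 ≠ 0 := fun h1 => hne (by rw [h1, smul_zero])
  have hp := lattice_pos h (hF e0 he0).1 hee (hcoord e0 he0) i
  have e1 : v.repr x i = ∑ e ∈ F, c e * v.repr e i := by
    rw [hxc, map_sum, Finset.sum_apply']
    exact Finset.sum_congr rfl (fun e _ => by rw [map_smul]; rfl)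
  rw [e1]
  exact lt_of_lt_of_le (mul_pos hce hp)
    (Finset.single_le_sum (f := fun e => c e * v.repr e i)
      (fun e he => mul_nonneg (hc e he) (hcoord e he i)) he0)

/-- **The cone conjecture** for maximal rank diagonalisable groups; moreover all non-zero effective
classes are in the interior of the movable cone -/
theorem maxDiag_q1 (h : MaxDiag X Eff v) : X.Q1 ∧ ∀ x ∈ Eff, x ≠ 0 → x ∈ interior X.K := by
  classical
  have hint : ∀ x ∈ Eff, x ≠ 0 → x ∈ interior X.K := fun x hx h0 =>
    pos_interior h (eff_pos h hx h0)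
  refine ⟨?_, hint⟩
  obtain ⟨M, hM0, hM⟩ := cocompact (logGrp X v) h.rank
  have hzero : ∀ x ∈ X.K, x = 0 ∨ x ∈ interior X.K := fun x hx => by
    by_cases h0 : x = 0
    · exact Or.inl h0
    · exact Or.inr (hint x (h.sub hx) h0)
  rw [Variety.q1_iff]
  have hrat : X.toDat.RatSpanned := by
    intro x hx
    rcases hzero x hx with h0 | h0
    · rw [h0]; exact ⟨∅, by simp, cone_zero _⟩
    · obtain ⟨E, hE, hcov⟩ := compact_cover X (B := {x}) isCompact_singleton
        (Set.singleton_subset_iff.2 h0)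
      exact ⟨E, fun e he => ⟨(hE e he).1, interior_subset (hE e he).2⟩, hcov rfl⟩
  -- the compact set
  set B : Set X.N := (fun x : Fin n → ℝ => ∑ i, x i • v i) ''
    (Set.pi univ (fun _ => Icc (Real.exp (-M)) (Real.exp M))) with hB
  have hBc : IsCompact B := (isCompact_univ_pi (fun _ => isCompact_Icc)).image
    (continuous_finsetSum _ (fun i _ => (continuous_apply i).smul continuous_const))
  have hBK : B ⊆ interior X.K := by
    rintro _ ⟨x, hx, rfl⟩
    apply pos_interior h
    intro i
    rw [Module.Basis.repr_sum_self]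
    exact lt_of_lt_of_le (Real.exp_pos _) (hx i (mem_univ i)).1
  obtain ⟨E, hE, hcov⟩ := compact_cover X hBc hBK
  refine Dat.conj_of hrat ⟨E, fun e he => ⟨(hE e he).1, interior_subset (hE e he).2⟩,
    fun (x : X.N) (hx : x ∈ interior X.K) => ?_⟩
  rcases isEmpty_or_nonempty (Fin n) with hem | hne
  · refine ⟨1, x, ?_, by rw [map_one]; rfl⟩
    have : x = 0 := v.ext_elem (fun i => (hem.false i).elim)
    rw [this]; exact cone_zero _
  have hx0 : x ≠ 0 := by
    intro h0
    obtain ⟨i⟩ := hne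
    obtain ⟨δ, hδ, hd⟩ := near_interior X (z := x) hx (v i)
    have h1 := coord_nonneg h (subset_closure (h.sub hd)) i
    rw [h0, zero_sub, map_neg, map_smul, Finsupp.neg_apply, Finsupp.smul_apply,
      Module.Basis.repr_self, Finsupp.single_eq_same, smul_eq_mul, mul_one] at h1
    linarith
  have hxK : x ∈ X.K := interior_subset hx
  have hpos : ∀ i, 0 < v.repr x i := eff_pos h (h.sub hxK) hx0
  obtain ⟨t, ht, c, htc⟩ := hM (fun i => Real.log (v.repr x i))
  have htn := (logGrp X v).neg_mem ht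
  obtain ⟨a, ha⟩ := htn
  set z : X.N := Real.exp (-c) • mv X.act a x with hz
  have hzr : ∀ i, v.repr z i = Real.exp (Real.log (v.repr x i) - t i - c) := by
    intro i
    rw [hz, map_smul, Finsupp.smul_apply, repr_mv ha, smul_eq_mul, Pi.neg_apply]
    conv_lhs => rw [← Real.exp_log (hpos i)]
    rw [← Real.exp_add, ← Real.exp_add]
    congr 1; ring
  have hzB : z ∈ B := by
    refine ⟨fun i => v.repr z i, ?_, v.sum_repr z⟩
    intro i _
    have := abs_le.1 (htc i)
    simp only [hzr]
    exact ⟨Real.exp_le_exp.2 (by linarith [this.1]), Real.exp_le_exp.2 (by linarith [this.2])⟩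
  refine ⟨a⁻¹, Real.exp c • z, cone_smul (Real.exp_pos _).le (hcov hzB), ?_⟩
  have e1 : mv X.act a⁻¹ (Real.exp c • z) = x := by
    rw [hz, smul_smul, ← Real.exp_add, add_neg_cancel, Real.exp_zero, one_smul, mv_inv]
  exact e1

end

end Pool.Agent.TH30.MK.Pres
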