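import Pool.Agent.TH30.MK.Face

/-!
# The movable cone conjecture for finite quotients of products
-/

namespace Pool.Agent.TH30.MK.Movable

open Set Pres

/-- What enters the movable cone conjecture for a smooth projective variety `X` with `K_X ≡ 0`:
`N = N¹(X)_ℝ`, its lattice `Λ` of integral classes, the group `A = Bir X` acting on `N`, the movable
cone `Mov` (spanned by the classes of movable divisors) and the effective cone `Eff`. -/
structure Manifold where
  N : Type
  [normed : NormedAddCommGroup N]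
  [space : NormedSpace ℝ N]
  [fd : FiniteDimensional ℝ N]
  Λ : AddSubgroup N
  A : Type
  [grp : Group A]
  act : LinAct A N
  Mov : Set N
  Eff : Set N
  lattice : IsLat Λ
  stable_lattice : Stable act (Λ : Set N)
  mov_cone : IsCone Mov
  eff_cone : IsCone Eff
  mov_sub : Mov ⊆ Eff
  stable_mov : Stable act Mov
  stable_eff : Stable act Eff
  interior_nonempty : (interior Mov).Nonempty
  degree : HasDegree Λ Mov

attribute [instance] Manifold.normed Manifold.space Manifold.fd Manifold.grp

namespace Manifold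

/-- **Q1** for `X`: there is a rational polyhedral fundamental domain for the action of the group on
the cone `closure Mov ∩ Eff`. -/
def Q1 (X : Manifold) : Prop := FundDomain X.act X.Λ (closure X.Mov ∩ X.Eff)

/-- `X` is a product of the `F i`, and `N¹(X)` is the sum of the `N¹(F i)`: `p i` are the pull-back
maps; a class is movable (effective) if and only if its components are; products of birational
automorphisms act. -/
structure IsProd {I : Type} [Fintype I] (F : I → Manifold) (X : Manifold)
    (p : ∀ i, (F i).N → X.N) : Prop where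
  linear : ∀ i, IsLinearMap ℝ (p i)
  bijective : Function.Bijective (fun x : ∀ i, (F i).N => ∑ i, p i (x i))
  lattice : ∀ i, ∀ v ∈ (F i).Λ, p i v ∈ X.Λ
  mov : ∀ x : ∀ i, (F i).N, ∑ i, p i (x i) ∈ X.Mov ↔ ∀ i, x i ∈ (F i).Mov
  eff : ∀ x : ∀ i, (F i).N, ∑ i, p i (x i) ∈ X.Eff ↔ ∀ i, x i ∈ (F i).Eff
  auto : ∀ a : ∀ i, (F i).A, ∃ b : X.A, ∀ i v, mv X.act b (p i v) = p i (mv (F i).act (a i) v)

/-- `Y` is the quotient of `X` by the finite group `G`, with `pull`-back and `push`-forward of
classes: `push ∘ pull` is multiplication by the order of `G`, pull-backs are `G`-invariant,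
`pull ∘ push` is multiplication by the order of `G` on invariant classes, both preserve movable and
effective classes, `push` preserves integral classes, and the elements of the group of `X` commuting
with `G` descend to `Y`. -/
structure IsFinQuot (X : Manifold) (G : Subgroup X.A) (Y : Manifold) (pull : Y.N → X.N)
    (push : X.N → Y.N) : Prop where
  pull_linear : IsLinearMap ℝ pull
  push_linear : IsLinearMap ℝ push
  push_pull : ∀ y, push (pull y) = (Nat.card G : ℝ) • y
  invariant : ∀ y, ∀ g ∈ G, mv X.act g (pull y) = pull y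
  pull_push : ∀ x, (∀ g ∈ G, mv X.act g x = x) → pull (push x) = (Nat.card G : ℝ) • x
  pull_mov : ∀ y ∈ Y.Mov, pull y ∈ X.Mov
  push_mov : ∀ x ∈ X.Mov, push x ∈ Y.Mov
  pull_eff : ∀ y ∈ Y.Eff, pull y ∈ X.Eff
  push_eff : ∀ x ∈ X.Eff, push x ∈ Y.Eff
  push_lattice : ∀ x ∈ X.Λ, push x ∈ Y.Λ
  descend : ∀ h : X.A, (∀ g ∈ G, h * g = g * h) →
    ∃ b : Y.A, ∀ y, pull (mv Y.act b y) = mv X.act h (pull y)

theorem closure_cone {N : Type} [NormedAddCommGroup N] [NormedSpace ℝ N] {M : Set N}
    (h : IsCone M) : IsCone (closure M) := by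
  refine ⟨subset_closure h.1, fun x hx y hy => ?_, fun t ht x hx => ?_⟩
  · exact map_mem_closure₂ continuous_add hx hy h.2.1
  · exact map_mem_closure (continuous_const_smul t) hx (fun z hz => h.2.2 t ht z hz)

/-- the cone data of the movable cone -/
def toVariety (X : Manifold) : Variety where
  N := X.N
  Λ := X.Λ
  A := X.A
  act := X.act
  K := closure X.Mov ∩ X.Eff
  lattice := X.lattice
  stable_lattice := X.stable_lattice
  cone := ⟨⟨subset_closure X.mov_cone.1, X.eff_cone.1⟩,
    fun x hx y hy => ⟨(closure_cone X.mov_cone).2.1 x hx.1 y hy.1,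
      X.eff_cone.2.1 x hx.2 y hy.2⟩,
    fun t ht x hx => ⟨(closure_cone X.mov_cone).2.2 t ht x hx.1, X.eff_cone.2.2 t ht x hx.2⟩⟩
  stable_cone := fun a x hx => by
    have hc : Continuous (fun z => mv X.act a z) :=
      LinearMap.continuous_of_finiteDimensional ((X.act a : X.N ≃ₗ[ℝ] X.N) : X.N →ₗ[ℝ] X.N)
    exact ⟨map_mem_closure hc hx.1 (fun z hz => X.stable_mov a z hz), X.stable_eff a x hx.2⟩
  interior_nonempty := X.interior_nonempty.mono
    (interior_mono (fun x hx => ⟨subset_closure hx, X.mov_sub hx⟩))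
  degree := by
    obtain ⟨ξ, h1, h2⟩ := X.degree
    refine ⟨ξ, h1, fun x hx h0 => h2 x ?_ h0⟩
    have := closure_mono (inter_subset_left : closure X.Mov ∩ X.Eff ⊆ closure X.Mov) hx
    rwa [closure_closure] at this

theorem isProduct {I : Type} [Fintype I] (F : I → Manifold) (X : Manifold)
    (p : ∀ i, (F i).N → X.N) (h : IsProd F X p) :
    Variety.IsProduct (fun i => (F i).toVariety) X.toVariety := by
  classical
  let L : (∀ i, (F i).N) →ₗ[ℝ] X.N := ∑ i, ((h.linear i).mk' (p i)) ∘ₗ LinearMap.proj i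
  have hL : ∀ x, L x = ∑ i, p i (x i) := by
    intro x
    simp [L]
  have hbij : Function.Bijective L := by
    have : (L : (∀ i, (F i).N) → X.N) = fun x => ∑ i, p i (x i) := funext hL
    rw [this]; exact h.bijective
  let e : (∀ i, (F i).N) ≃L[ℝ] X.N :=
    (LinearEquiv.ofBijective L hbij).toContinuousLinearEquiv
  have he : ∀ x, e x = ∑ i, p i (x i) := hL
  have hpre : e ⁻¹' X.Mov = Set.pi univ (fun i => (F i).Mov) := by
    ext x
    rw [mem_preimage, he, h.mov]
    simp
  have hcl : ∀ x : ∀ i, (F i).N, ∑ i, p i (x i) ∈ closure X.Mov ↔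
      ∀ i, x i ∈ closure (F i).Mov := by
    intro x
    have e1 : e ⁻¹' closure X.Mov = closure (e ⁻¹' X.Mov) := e.toHomeomorph.preimage_closure _
    rw [hpre, closure_pi_set] at e1
    have e2 : x ∈ e ⁻¹' closure X.Mov ↔ x ∈ Set.pi univ (fun i => closure (F i).Mov) := by rw [e1]
    rw [mem_preimage, he] at e2
    rw [e2]
    simp
  refine ⟨p, h.linear, h.bijective, h.lattice, fun x => ?_, h.auto⟩
  change (∑ i, p i (x i) ∈ closure X.Mov ∧ ∑ i, p i (x i) ∈ X.Eff) ↔
    ∀ i, x i ∈ closure (F i).Mov ∧ x i ∈ (F i).Eff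
  rw [hcl, h.eff]
  exact ⟨fun hx i => ⟨hx.1 i, hx.2 i⟩, fun hx => ⟨fun i => (hx i).1, fun i => (hx i).2⟩⟩

theorem isQuotient (X : Manifold) (G : Subgroup X.A) [Finite G] (Y : Manifold)
    (pull : Y.N → X.N) (push : X.N → Y.N) (h : IsFinQuot X G Y pull push) :
    X.toVariety.IsQuotient G Y.toVariety := by
  have hn : 0 < Nat.card G := Nat.card_pos
  have hn' : (0 : ℝ) < Nat.card G := by exact_mod_cast hn
  have hback : ∀ y : Y.N, y = (Nat.card G : ℝ)⁻¹ • push (pull y) := by
    intro y
    rw [h.push_pull, smul_smul, inv_mul_cancel₀ hn'.ne', one_smul]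
  have hpc : Continuous pull := (h.pull_linear.mk' pull).continuous_of_finiteDimensional
  have hqc : Continuous push := (h.push_linear.mk' push).continuous_of_finiteDimensional
  have hsurj : ∀ x : X.N, (∀ g ∈ G, mv X.act g x = x) → ∃ y, pull y = x := by
    intro x hx
    refine ⟨(Nat.card G : ℝ)⁻¹ • push x, ?_⟩
    rw [h.pull_linear.map_smul, h.pull_push x hx, smul_smul, inv_mul_cancel₀ hn'.ne', one_smul]
  refine ⟨pull, h.pull_linear, fun y y' hy => ?_, h.invariant, hsurj, fun y hy => ?_,
    fun y => ?_, h.descend⟩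
  · exact (hback y).trans
      ((congrArg (fun z => (Nat.card G : ℝ)⁻¹ • push z) hy).trans (hback y').symm)
  · refine ⟨Nat.card G, hn, ?_⟩
    have e1 := h.push_lattice _ hy
    rw [h.push_pull, Nat.cast_smul_eq_nsmul ℝ] at e1
    exact e1
  · change (y ∈ closure Y.Mov ∧ y ∈ Y.Eff) ↔ (pull y ∈ closure X.Mov ∧ pull y ∈ X.Eff)
    constructor
    · rintro ⟨h1, h2⟩
      exact ⟨map_mem_closure hpc h1 (fun z hz => h.pull_mov z hz), h.pull_eff y h2⟩
    · rintro ⟨h1, h2⟩
      rw [hback y]
      exact ⟨(closure_cone Y.mov_cone).2.2 _ (by positivity) _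
          (map_mem_closure hqc h1 (fun z hz => h.push_mov z hz)),
        Y.eff_cone.2.2 _ (by positivity) _ (h.push_eff _ h2)⟩

/-- **The movable cone conjecture for finite quotients of products.** -/
theorem main {I : Type} [Fintype I] (F : I → Manifold) (X : Manifold) (p : ∀ i, (F i).N → X.N)
    (hp : IsProd F X p) (hK : KerCond X.act) (G : Subgroup X.A) [Finite G] (Y : Manifold)
    (pull : Y.N → X.N) (push : X.N → Y.N) (h : IsFinQuot X G Y pull push)
    (hF : ∀ i, (F i).Q1) : Y.Q1 := by
  have hG : @Finite (G : Subgroup X.toVariety.A) := ‹Finite G›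
  exact @Variety.main I _ (fun i => (F i).toVariety) X.toVariety (isProduct F X p hp) hK G hG
    Y.toVariety (isQuotient X G Y pull push h) hF

end Manifold

end Pool.Agent.TH30.MK.Movable
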