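import Pool.Agent.TH30.MK.Lifts

/-!
# The cone conjecture: definitions used in the statements

`Variety` records what enters the cone conjecture for a variety (or pair) `X`; `Variety.Q1` is the
conjecture for `X`.
-/

namespace Pool.Agent.TH30.MK.Pres

open Set

section defs

variable {V W A B : Type} [NormedAddCommGroup V] [NormedSpace ℝ V] [NormedAddCommGroup W]
  [NormedSpace ℝ W] [Group A] [Group B]

/-- linear actions of `A` on `V` -/
abbrev LinAct (A V : Type) [Group A] [NormedAddCommGroup V] [NormedSpace ℝ V] :=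
  A →* (V ≃ₗ[ℝ] V)

/-- the action of `a` on the vector `v` -/
def mv (ρ : LinAct A V) (a : A) (v : V) : V := ρ a v

/-- `a` acts trivially -/
def Triv (ρ : LinAct A V) (a : A) : Prop := ∀ v, mv ρ a v = v

/-- the set `S` is stable under the action -/
def Stable (ρ : LinAct A V) (S : Set V) : Prop := ∀ a, ∀ x ∈ S, mv ρ a x ∈ S

/-- `K` is a convex cone -/
def IsCone (K : Set V) : Prop :=
  (0 : V) ∈ K ∧ (∀ x ∈ K, ∀ y ∈ K, x + y ∈ K) ∧ ∀ t : ℝ, 0 ≤ t → ∀ x ∈ K, t • x ∈ K

/-- there is a linear form which is integral on `Λ` and positive on the closure of `K` minus `0` -/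
def HasDegree (Λ : AddSubgroup V) (K : Set V) : Prop :=
  ∃ ξ : V →ₗ[ℝ] ℝ, (∀ v ∈ Λ, ∃ n : ℤ, ξ v = n) ∧ ∀ x ∈ closure K, x ≠ 0 → 0 < ξ x

/-- There is a rational polyhedral cone `Π` (spanned by a finite set `E` of lattice points) which is
a fundamental domain for the action of `A` on `K`: `K = ⋃ a Π`, and `Int Π ∩ a (Int Π) = ∅` for
every `a` which acts nontrivially. -/
def FundDomain (ρ : LinAct A V) (Λ : AddSubgroup V) (K : Set V) : Prop :=
  ∃ E : Finset V, (∀ e ∈ E, e ∈ Λ) ∧ K = ⋃ a : A, mv ρ a '' cone E ∧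
    ∀ a : A, ¬ Triv ρ a → Disjoint (interior (cone E)) (mv ρ a '' interior (cone E))

/-- the group `D` is commutative, divisible, and has finitely many elements of each finite order -/
def DivFin (D : Subgroup A) : Prop :=
  (∀ d ∈ D, ∀ d' ∈ D, d * d' = d' * d) ∧
    (∀ n : ℕ, 0 < n → ∀ d ∈ D, ∃ t ∈ D, t ^ n = d) ∧
    ∀ n : ℕ, 0 < n → {d : A | d ∈ D ∧ d ^ n = 1}.Finite

/-- the kernel of the action contains, with finite index, a normal subgroup of `A` which is
commutative, divisible, and has finitely many elements of each finite order -/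
def KerCond (ρ : LinAct A V) : Prop :=
  ∃ D : Subgroup A, D.Normal ∧ (∀ d ∈ D, Triv ρ d) ∧ DivFin D ∧
    ∃ S : Finset A, ∀ a, Triv ρ a → ∃ s ∈ S, ∃ d ∈ D, a = s * d

/-- Quotient by a finite group: the linear map `pull` identifies `W` with the invariants of `V`,
rationally also the lattices, the cone `L` is the invariant part of `K`, and the elements of `A`
commuting with `G` descend. -/
structure IsQuot (ρ : LinAct A V) (Λ : AddSubgroup V) (K : Set V) (G : Subgroup A)
    (σ : LinAct B W) (M : AddSubgroup W) (L : Set W) (pull : W → V) : Prop where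
  linear : IsLinearMap ℝ pull
  injective : Function.Injective pull
  invariant : ∀ y, ∀ g ∈ G, mv ρ g (pull y) = pull y
  surjective : ∀ x, (∀ g ∈ G, mv ρ g x = x) → ∃ y, pull y = x
  lattice : ∀ y, pull y ∈ Λ → ∃ n : ℕ, 0 < n ∧ n • y ∈ M
  cone : ∀ y, y ∈ L ↔ pull y ∈ K
  descend : ∀ h : A, (∀ g ∈ G, h * g = g * h) → ∃ b : B, ∀ y, pull (mv σ b y) = mv ρ h (pull y)

end defs

/-- The data entering the cone conjecture for a variety (or pair) `X`: `N = N¹(X)_ℝ`, the lattice
`Λ` of classes of Cartier divisors, the group `A` of the conjecture (`Aut X`, ...) acting on `N` by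
`act`, and the cone `K` (`Nef(X)^e`, ...). -/
structure Variety where
  N : Type
  [normed : NormedAddCommGroup N]
  [space : NormedSpace ℝ N]
  [fd : FiniteDimensional ℝ N]
  Λ : AddSubgroup N
  A : Type
  [grp : Group A]
  act : LinAct A N
  K : Set N
  lattice : IsLat Λ
  stable_lattice : Stable act (Λ : Set N)
  cone : IsCone K
  stable_cone : Stable act K
  interior_nonempty : (interior K).Nonempty
  degree : HasDegree Λ K

attribute [instance] Variety.normed Variety.space Variety.fd Variety.grp

/-- **The cone conjecture** for `X` -/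
def Variety.Q1 (X : Variety) : Prop := FundDomain X.act X.Λ X.K

/-- `Y` is the quotient of `X` by the finite group `G` of automorphisms -/
def Variety.IsQuotient (X : Variety) (G : Subgroup X.A) (Y : Variety) : Prop :=
  ∃ pull : Y.N → X.N, IsQuot X.act X.Λ X.K G Y.act Y.Λ Y.K pull

/-- `X` is a product of the `F i`: `p i : N¹(F i) → N¹(X)` are the pull-back maps, `N¹(X)` and its
cone are the products of those of the `F i`, and products of automorphisms of the factors act on
`X`. -/
structure Variety.IsProd {I : Type} [Fintype I] (F : I → Variety) (X : Variety)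
    (p : ∀ i, (F i).N → X.N) : Prop where
  linear : ∀ i, IsLinearMap ℝ (p i)
  bijective : Function.Bijective (fun x : ∀ i, (F i).N => ∑ i, p i (x i))
  lattice : ∀ i, ∀ v ∈ (F i).Λ, p i v ∈ X.Λ
  cone : ∀ x : ∀ i, (F i).N, ∑ i, p i (x i) ∈ X.K ↔ ∀ i, x i ∈ (F i).K
  auto : ∀ a : ∀ i, (F i).A, ∃ b : X.A, ∀ i v, mv X.act b (p i v) = p i (mv (F i).act (a i) v)

/-- `X` is a product of the `F i` -/
def Variety.IsProduct {I : Type} [Fintype I] (F : I → Variety) (X : Variety) : Prop :=
  ∃ p : ∀ i, (F i).N → X.N, Variety.IsProd F X p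

namespace Variety

/-- internal form of the data -/
def toDat (X : Variety) : Dat where
  N := X.N
  Λ := X.Λ
  A := X.A
  act := X.act
  K := X.K
  lattice := X.lattice
  act_lattice := X.stable_lattice
  zero_mem := X.cone.1
  add_mem := X.cone.2.1
  smul_mem := X.cone.2.2
  act_mem := X.stable_cone
  interior_nonempty := X.interior_nonempty
  degree := X.degree

theorem triv_iff (X : Variety) (a : X.A) : Triv X.act a ↔ X.act a = 1 :=
  ⟨fun h => LinearEquiv.ext h, fun h v => by rw [mv, h]; rfl⟩

theorem q1_iff (X : Variety) : X.Q1 ↔ X.toDat.ConeConjecture := by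
  constructor
  · rintro ⟨E, hE, hK, hd⟩
    exact ⟨E, hE, hK, fun a ha => hd a (fun h => ha ((X.triv_iff a).1 h))⟩
  · rintro ⟨E, hE, hK, hd⟩
    exact ⟨E, hE, hK, fun a ha => hd a (fun h => ha ((X.triv_iff a).2 h))⟩

theorem kerCond (X : Variety) (h : KerCond X.act) : X.toDat.KernelCondition := by
  obtain ⟨D, hD, h1, ⟨h2, h3, h4⟩, S, hS⟩ := h
  exact ⟨D, hD, fun d hd => (X.triv_iff d).1 (h1 d hd), h2, h3, h4, S,
    fun a ha => hS a ((X.triv_iff a).2 ha)⟩

theorem isQuotient {X : Variety} {G : Subgroup X.A} {Y : Variety} (h : X.IsQuotient G Y) :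
    Nonempty (Dat.IsQuotient X.toDat G Y.toDat) := by
  obtain ⟨pull, h⟩ := h
  exact ⟨{
    pull := h.linear.mk' pull
    injective := h.injective
    invariant := h.invariant
    surjective := h.surjective
    lattice := fun y hy => by
      obtain ⟨n, hn, hn'⟩ := h.lattice y hy
      exact ⟨n, hn, by rw [Nat.cast_smul_eq_nsmul ℝ]; exact hn'⟩
    cone := h.cone
    descend := h.descend }⟩

theorem isProduct {I : Type} [Fintype I] [DecidableEq I] {F : I → Variety} {X : Variety}
    (h : Variety.IsProduct F X) : Nonempty (Dat.IsProduct (fun i => (F i).toDat) X.toDat) := by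
  obtain ⟨p, h⟩ := h
  let L : (∀ i, (F i).N) →ₗ[ℝ] X.N :=
    ∑ i, ((h.linear i).mk' (p i)) ∘ₗ LinearMap.proj i
  have hL : ∀ x, L x = ∑ i, p i (x i) := by
    intro x
    simp [L]
  have hbij : Function.Bijective L := by
    have : (L : (∀ i, (F i).N) → X.N) = fun x => ∑ i, p i (x i) := funext hL
    rw [this]; exact h.bijective
  let e : (∀ i, (F i).N) ≃ₗ[ℝ] X.N := LinearEquiv.ofBijective L hbij
  have he : ∀ x, e x = ∑ i, p i (x i) := hL
  exact ⟨{
    iso := e
    lattice := by
      intro i v hv
      have : e (Pi.single i v) = p i v := by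
        rw [he, Finset.sum_eq_single i]
        · rw [Pi.single_eq_same]
        · intro j _ hj
          rw [Pi.single_eq_of_ne hj]
          exact (h.linear j).map_zero
        · intro hi; exact absurd (Finset.mem_univ i) hi
      exact (congrArg (fun z => z ∈ X.Λ) this).mpr (h.lattice i v hv)
    cone := by
      intro x
      have := h.cone x
      rw [← he] at this
      exact this
    auto := by
      intro a
      obtain ⟨b, hb⟩ := h.auto a
      refine ⟨b, fun x => ?_⟩
      have e1 : X.act b (e x) = e (fun i => mv (F i).act (a i) (x i)) := by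
        rw [he, he, map_sum]
        exact Finset.sum_congr rfl (fun i _ => hb i (x i))
      exact e1 }⟩

theorem main {I : Type} [Fintype I] (F : I → Variety) (X : Variety) (P : Variety.IsProduct F X)
    (hK : KerCond X.act) (G : Subgroup X.A) [Finite G] (Y : Variety) (Q : X.IsQuotient G Y)
    (hF : ∀ i, (F i).Q1) : Y.Q1 := by
  classical
  obtain ⟨P'⟩ := isProduct P
  obtain ⟨Q'⟩ := isQuotient Q
  rw [q1_iff]
  have hG : @Finite (G : Subgroup X.toDat.A) := ‹Finite G›
  exact @Dat.main I _ _ (fun i => (F i).toDat) X.toDat P' (X.kerCond hK) G hG Y.toDat Q'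
    (fun i => (q1_iff _).1 (hF i))

end Variety

end Pool.Agent.TH30.MK.Pres
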