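import Pool.Agent.TH30.MK.Pres

/-!
# From the absolute to the relative cone conjecture
-/

namespace Pool.Agent.TH30.MK

open Set

set_option linter.unusedSectionVars false

variable {V : Type*} [NormedAddCommGroup V] [NormedSpace ℝ V] [FiniteDimensional ℝ V]
variable {Λ : AddSubgroup V} {C : Set V} {Γ : Subgroup (V ≃ₗ[ℝ] V)} {ξ : V →ₗ[ℝ] ℝ}

namespace Core

theorem inv_apply {γ : V ≃ₗ[ℝ] V} (y : V) : (γ⁻¹ : V ≃ₗ[ℝ] V) (γ y) = y := by
  rw [← LinearEquiv.mul_apply, inv_mul_cancel]; rfl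

theorem apply_inv {γ : V ≃ₗ[ℝ] V} (y : V) : γ ((γ⁻¹ : V ≃ₗ[ℝ] V) y) = y := by
  rw [← LinearEquiv.mul_apply, mul_inv_cancel]; rfl

/-- the orbit of a lattice point has finitely many points in a rational polyhedral cone -/
theorem finite_orbit (h : Core Λ C Γ ξ) (E : Finset V) (hE : ∀ e ∈ E, e ∈ Λ ∧ e ∈ closure C)
    {w : V} (hwE : w ∈ cone E) (hwC : w ∈ C) {φ : V} (hφ : φ ∈ Λ) :
    {y : V | y ∈ cone E ∧ ∃ γ ∈ Γ, γ y = φ}.Finite := by
  classical
  have hR := h.finite_minElts E hE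
  have hF := h.finite_pts (ξ φ)
  refine (Set.Finite.image2 (fun (β : V ≃ₗ[ℝ] V) (z : V) => (β⁻¹ : V ≃ₗ[ℝ] V) z) hR hF).subset ?_
  rintro y ⟨hy, γ, hγ, hγy⟩
  have hycl : y ∈ closure C := h.cone_clos (fun e he => (hE e he).2) hy
  have hyΛ : y ∈ Λ := by
    have := h.mapΛ γ⁻¹ (Γ.inv_mem hγ) φ hφ
    rw [← hγy, inv_apply] at this
    exact this
  have hx : ∀ n : ℕ, y + ((n : ℝ) + 1)⁻¹ • w ∈ C := fun n =>
    h.clos_add_mem hycl (h.smul _ (by positivity) _ hwC)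
  have hxE : ∀ n : ℕ, y + ((n : ℝ) + 1)⁻¹ • w ∈ cone E := fun n =>
    cone_add hy (cone_smul (by positivity) hwE)
  choose g hg hmin using fun n => h.exists_min (hx n)
  have hmem : ∀ n, g n ∈ MinElts C Γ ξ E := fun n => ⟨hg n, _, hx n, hxE n, hmin n⟩
  haveI : Finite (MinElts C Γ ξ E) := hR
  obtain ⟨⟨β, hβ⟩, hinf⟩ := Finite.exists_infinite_fiber
    (fun n => (⟨g n, hmem n⟩ : MinElts C Γ ξ E))
  have hinf' : Set.Infinite {n : ℕ | g n = β} := by
    rw [← Set.infinite_coe_iff]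
    convert hinf using 2
    ext n
    simp [Subtype.ext_iff]
  have hle : ξ (β y) ≤ ξ φ := by
    have hlim0 : Filter.Tendsto (fun n : ℕ => ((n : ℝ) + 1)⁻¹) Filter.atTop (nhds 0) := by
      have := tendsto_one_div_add_atTop_nhds_zero_nat (𝕜 := ℝ)
      simpa [one_div] using this
    have hlim : Filter.Tendsto
        (fun n : ℕ => ξ φ + ((n : ℝ) + 1)⁻¹ * (ξ (γ w) - ξ (β w)) - ξ (β y))
        Filter.atTop (nhds (ξ φ + 0 * (ξ (γ w) - ξ (β w)) - ξ (β y))) :=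
      ((hlim0.mul_const _).const_add _).sub_const _
    have hfr : ∃ᶠ n : ℕ in Filter.atTop,
        0 ≤ ξ φ + ((n : ℝ) + 1)⁻¹ * (ξ (γ w) - ξ (β w)) - ξ (β y) := by
      rw [Filter.frequently_atTop]
      intro a
      obtain ⟨n, hn, hn'⟩ := hinf'.exists_gt a
      refine ⟨n, hn'.le, ?_⟩
      have hgn : g n = β := hn
      have h1 := hmin n γ hγ
      rw [hgn] at h1
      simp only [map_add, map_smul, smul_eq_mul, hγy] at h1
      linarith
    have := isClosed_Ici.mem_of_frequently_of_tendsto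
      (show ∃ᶠ n : ℕ in Filter.atTop, ξ φ + ((n : ℝ) + 1)⁻¹ * (ξ (γ w) - ξ (β w)) - ξ (β y)
        ∈ Set.Ici (0 : ℝ) from hfr) hlim
    rw [Set.mem_Ici] at this
    linarith
  refine ⟨β, hβ, β y, ⟨h.mapΛ β hβ.1 y hyΛ, h.clos_map hβ.1 hycl, hle⟩, ?_⟩
  exact inv_apply y

/-- the stabiliser of a lattice point `φ` of the closure of `C` acts on `C + ℝ φ` with a rational
polyhedral cone whose translates cover modulo `φ` -/
theorem relative_cover (h : Core Λ C Γ ξ) (hsp : C ⊆ plus Λ C) (E : Finset V)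
    (hE : ∀ e ∈ E, e ∈ Λ ∧ e ∈ closure C) {w : V} (hwE : w ∈ E) (hwC : w ∈ C)
    (hcov : ∀ x ∈ C, ∃ γ ∈ Γ, ∃ y ∈ cone E, γ y = x) {φ : V} (hφ : φ ∈ Λ)
    (hφ' : φ ∈ closure C) :
    ∃ E' : Finset V, (∀ e ∈ E', ∃ γ ∈ Γ, ∃ e' ∈ E, e = γ e') ∧
      ∀ x ∈ C, ∃ η ∈ Γ, η φ = φ ∧ ∃ t : ℝ, ∃ z ∈ cone E', η z = x + t • φ := by
  classical
  have hO := h.finite_orbit E hE (cone_of_mem hwE) hwC hφ
  have hsel : ∀ y : V, ∃ γ ∈ Γ, (∃ γ' ∈ Γ, γ' y = φ) → γ y = φ := by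
    intro y
    by_cases hy : ∃ γ' ∈ Γ, γ' y = φ
    · obtain ⟨γ', h1, h2⟩ := hy
      exact ⟨γ', h1, fun _ => h2⟩
    · exact ⟨1, Γ.one_mem, fun h => absurd h hy⟩
  choose g hg hgφ using hsel
  refine ⟨(hO.toFinset ×ˢ E).image (fun p => g p.1 p.2), ?_, ?_⟩
  · intro e he
    obtain ⟨⟨y, e'⟩, hp, rfl⟩ := Finset.mem_image.1 he
    exact ⟨g y, hg y, e', (Finset.mem_product.1 hp).2, rfl⟩
  · intro x hx
    obtain ⟨F, hF, hxF⟩ := hsp hx
    set E1 : Finset V := E ∪ insert φ F with hE1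
    have hE1' : ∀ e ∈ E1, e ∈ Λ ∧ e ∈ closure C := by
      intro e he
      rcases Finset.mem_union.1 he with h1 | h1
      · exact hE e h1
      · rcases Finset.mem_insert.1 h1 with h2 | h2
        · rw [h2]; exact ⟨hφ, hφ'⟩
        · exact hF e h2
    have hclos : ∀ n : ℕ, ((n : ℝ) + 1) • φ ∈ closure C := fun n =>
      h.clos_smul (by positivity) hφ'
    have hseq : ∀ n : ℕ, x + ((n : ℝ) + 1) • φ ∈ C := fun n => by
      rw [add_comm]; exact h.clos_add_mem (hclos n) hx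
    have hseq1 : ∀ n : ℕ, x + ((n : ℝ) + 1) • φ ∈ cone E1 := fun n => by
      refine cone_add (cone_mono ?_ hxF) (cone_smul (by positivity) (cone_of_mem ?_))
      · intro e he; simp [hE1, he]
      · simp [hE1]
    have hsel : ∀ n : ℕ, ∃ γ ∈ Γ, ∃ y ∈ cone E, γ y = x + ((n : ℝ) + 1) • φ :=
      fun n => hcov _ (hseq n)
    choose γs hγs y hy hγy using hsel
    have hfin := h.siegel E1 hE1'
    have hmem : ∀ n, γs n ∈ {γ : V ≃ₗ[ℝ] V | γ ∈ Γ ∧ ∃ y ∈ C, y ∈ cone E1 ∧ γ y ∈ cone E1} := by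
      intro n
      refine ⟨hγs n, y n, ?_, ?_, ?_⟩
      · apply h.map_inv_mem (hγs n)
        rw [hγy]; exact hseq n
      · exact cone_mono (Finset.subset_union_left) (hy n)
      · rw [hγy]; exact hseq1 n
    haveI : Finite {γ : V ≃ₗ[ℝ] V | γ ∈ Γ ∧ ∃ y ∈ C, y ∈ cone E1 ∧ γ y ∈ cone E1} := hfin
    obtain ⟨⟨γ, hγ⟩, hinf⟩ := Finite.exists_infinite_fiber (fun n => (⟨γs n, hmem n⟩ :
      {γ : V ≃ₗ[ℝ] V | γ ∈ Γ ∧ ∃ y ∈ C, y ∈ cone E1 ∧ γ y ∈ cone E1}))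
    have hinf' : Set.Infinite {n : ℕ | γs n = γ} := by
      rw [← Set.infinite_coe_iff]
      convert hinf using 2
      ext n
      simp [Subtype.ext_iff]
    have hφγ : (γ⁻¹ : V ≃ₗ[ℝ] V) φ ∈ cone E := by
      have hclosed : IsClosed (cone E) := by
        refine cone_closed E (LinearMap.toContinuousLinearMap ξ) (fun e he h0 => ?_)
        exact h.pos e (hE e he).2 h0
      have hcont : Continuous (fun v : V => (γ⁻¹ : V ≃ₗ[ℝ] V) v) :=
        LinearMap.continuous_of_finiteDimensional ((γ⁻¹ : V ≃ₗ[ℝ] V) : V →ₗ[ℝ] V)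
      have hlim0 : Filter.Tendsto (fun n : ℕ => ((n : ℝ) + 1)⁻¹) Filter.atTop (nhds 0) := by
        have := tendsto_one_div_add_atTop_nhds_zero_nat (𝕜 := ℝ)
        simpa [one_div] using this
      have h1 : Filter.Tendsto (fun n : ℕ => φ + ((n : ℝ) + 1)⁻¹ • x) Filter.atTop
          (nhds (φ + (0 : ℝ) • x)) :=
        Filter.Tendsto.const_add φ (Filter.Tendsto.smul_const hlim0 x)
      rw [zero_smul, add_zero] at h1
      have hlim : Filter.Tendsto (fun n : ℕ => (γ⁻¹ : V ≃ₗ[ℝ] V) (φ + ((n : ℝ) + 1)⁻¹ • x))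
          Filter.atTop (nhds ((γ⁻¹ : V ≃ₗ[ℝ] V) φ)) := (hcont.tendsto φ).comp h1
      refine hclosed.mem_of_frequently_of_tendsto ?_ hlim
      rw [Filter.frequently_atTop]
      intro a
      obtain ⟨n, hn, hn'⟩ := hinf'.exists_gt a
      refine ⟨n, hn'.le, ?_⟩
      have hgn : γs n = γ := hn
      have e1 : φ + ((n : ℝ) + 1)⁻¹ • x = ((n : ℝ) + 1)⁻¹ • (x + ((n : ℝ) + 1) • φ) := by
        have : ((n : ℝ) + 1) ≠ 0 := by positivity
        rw [smul_add, smul_smul, inv_mul_cancel₀ this, one_smul, add_comm]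
      rw [e1, ← hγy n, hgn, map_smul, inv_apply]
      exact cone_smul (by positivity) (hy n)
    set y0 : V := (γ⁻¹ : V ≃ₗ[ℝ] V) φ with hy0
    have hy0O : y0 ∈ {y : V | y ∈ cone E ∧ ∃ γ ∈ Γ, γ y = φ} := ⟨hφγ, γ, hγ.1, apply_inv φ⟩
    have hgy0 : g y0 y0 = φ := hgφ y0 ⟨γ, hγ.1, apply_inv φ⟩
    obtain ⟨n, hn⟩ := hinf'.nonempty
    have hgn : γs n = γ := hn
    refine ⟨γ * (g y0)⁻¹, Γ.mul_mem hγ.1 (Γ.inv_mem (hg y0)), ?_, (n : ℝ) + 1, g y0 (y n), ?_, ?_⟩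
    · rw [LinearEquiv.mul_apply]
      have : (g y0)⁻¹ φ = y0 := by
        conv_lhs => rw [← hgy0]
        exact inv_apply y0
      rw [this]; exact apply_inv φ
    · obtain ⟨c, hc, hyc⟩ := hy n
      rw [hyc, map_sum]
      refine cone_sum _ _ (fun e he => ?_)
      rw [map_smul]
      refine cone_smul (hc e he) (cone_of_mem ?_)
      exact Finset.mem_image.2 ⟨(y0, e), Finset.mem_product.2 ⟨hO.mem_toFinset.2 hy0O, he⟩, rfl⟩
    · rw [LinearEquiv.mul_apply, inv_apply, ← hgn, hγy]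

end Core

namespace Dat

theorem conj_of' {X : Dat} (h1 : X.K ⊆ plus X.Λ (interior X.K)) (h2 : X.OpenCovered) :
    X.ConeConjecture := by
  obtain ⟨ξ, h⟩ := X.exists_core
  obtain ⟨E, hE, hcov⟩ := h2
  obtain ⟨E3, hE3, hK, hdis⟩ := h.domain X.lattice (K := X.K) h1
    X.zero_mem X.add_mem X.smul_mem (by
      rintro _ ⟨a, rfl⟩ x hx
      exact X.act_mem a x hx) E hE (by
      intro x hx
      obtain ⟨a, y, hy, hyx⟩ := hcov x hx
      exact ⟨X.act a, ⟨a, rfl⟩, y, hy, hyx⟩)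
  refine ⟨E3, hE3, ?_, fun a ha => hdis _ ⟨a, rfl⟩ ha⟩
  rw [hK]
  ext x
  simp only [Set.mem_iUnion, MonoidHom.mem_range]
  constructor
  · rintro ⟨_, ⟨a, rfl⟩, hx⟩; exact ⟨a, hx⟩
  · rintro ⟨a, hx⟩; exact ⟨_, ⟨a, rfl⟩, hx⟩

end Dat

namespace Pres

/-- `R` is the relative version of `X` for a contraction `X → Z`: `q : N¹(X) → N¹(X/Z)`, and `φ` is
the pull-back of an ample class of `Z`.
* nef effective classes of `X` are nef effective over `Z`;
* every class ample over `Z` is the image of an ample class;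
* `Nef(X/Z)^e` is contained in the cone spanned by the integral classes which are nef over `Z`;
* up to finitely many elements, the automorphisms of `X` which fix `φ` act on `N¹(X/Z)` through
  automorphisms over `Z`. -/
structure IsRel (X R : Variety) (q : X.N → R.N) (φ : X.N) : Prop where
  linear : IsLinearMap ℝ q
  int_class : φ ∈ X.Λ
  nef_class : φ ∈ X.K
  map_class : q φ = 0
  lattice : ∀ v ∈ X.Λ, q v ∈ R.Λ
  cone : ∀ x ∈ X.K, q x ∈ R.K
  ample : ∀ r ∈ interior R.K, ∃ x ∈ interior X.K, q x = r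
  rational : R.K ⊆ plus R.Λ (interior R.K)
  group : ∃ S : Finset X.A, ∀ a : X.A, mv X.act a φ = φ →
    ∃ s ∈ S, ∃ b : R.A, ∀ x, q (mv X.act a x) = mv R.act b (q (mv X.act s x))

theorem map_cone {V W : Type*} [NormedAddCommGroup V] [NormedSpace ℝ V] [NormedAddCommGroup W]
    [NormedSpace ℝ W] {f : V → W} (hf : IsLinearMap ℝ f) {E : Finset V} {T : Finset W}
    (hT : ∀ e ∈ E, f e ∈ MK.cone T) {z : V} (hz : z ∈ MK.cone E) : f z ∈ MK.cone T := by
  obtain ⟨c, hc, rfl⟩ := hz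
  have e1 : f (∑ e ∈ E, c e • e) = ∑ e ∈ E, c e • f e := by
    have l : ∀ v, f v = (hf.mk' f) v := fun v => rfl
    rw [l, map_sum]
    exact Finset.sum_congr rfl (fun e _ => by rw [map_smul, ← l])
  rw [e1]
  exact cone_sum _ _ (fun e he => cone_smul (hc e he) (hT e he))

theorem relative {X R : Variety} {q : X.N → R.N} {φ : X.N} (h : IsRel X R q φ) (hX : X.Q1) :
    R.Q1 := by
  classical
  rw [Variety.q1_iff] at hX ⊢
  have hcovd := Dat.covered_of_conj hX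
  have hrat := Dat.ratSpanned_of_covered hcovd
  obtain ⟨E, hE, hcov⟩ := hcovd
  obtain ⟨ξ, hc⟩ := X.toDat.exists_core
  obtain ⟨w, hw, hwC⟩ := hc.exists_lat
  have hE0 : ∀ e ∈ insert w E, e ∈ X.Λ ∧ e ∈ X.K := by
    intro e he
    rcases Finset.mem_insert.1 he with h1 | h1
    · rw [h1]; exact ⟨hw, interior_subset hwC⟩
    · exact hE e h1
  obtain ⟨E', hE', hrel⟩ := hc.relative_cover (by
      intro x hx
      obtain ⟨F, hF, hxF⟩ := hrat x (interior_subset hx)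
      exact ⟨F, fun e he => ⟨(hF e he).1, X.toDat.subset_clos (hF e he).2⟩, hxF⟩)
    (insert w E) (fun e he => ⟨(hE0 e he).1, X.toDat.subset_clos (hE0 e he).2⟩)
    (Finset.mem_insert_self w E) hwC (by
      intro x hx
      obtain ⟨a, y, hy, hyx⟩ := hcov x (interior_subset hx)
      exact ⟨_, ⟨a, rfl⟩, y, cone_mono (Finset.subset_insert w E) hy, hyx⟩)
    h.int_class (X.toDat.subset_clos h.nef_class)
  have hE'2 : ∀ e ∈ E', e ∈ X.Λ ∧ e ∈ X.K := by
    intro e he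
    obtain ⟨_, ⟨a, rfl⟩, e', he', rfl⟩ := hE' e he
    exact ⟨X.toDat.act_lattice a _ (hE0 e' he').1, X.toDat.act_mem a _ (hE0 e' he').2⟩
  obtain ⟨S, hS⟩ := h.group
  apply Dat.conj_of' (X := R.toDat) h.rational
  refine ⟨(S ×ˢ E').image (fun p => q (mv X.act p.1 p.2)), ?_, ?_⟩
  · intro e he
    obtain ⟨⟨s, e'⟩, hp, rfl⟩ := Finset.mem_image.1 he
    have he' := hE'2 e' (Finset.mem_product.1 hp).2
    exact ⟨h.lattice _ (X.stable_lattice s e' he'.1), h.cone _ (X.stable_cone s e' he'.2)⟩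
  · intro r hr
    obtain ⟨x, hx, rfl⟩ := h.ample r hr
    obtain ⟨_, ⟨a, rfl⟩, haφ, t, z, hz, haz⟩ := hrel x hx
    obtain ⟨s, hs, b, hb⟩ := hS a haφ
    refine ⟨b, q (mv X.act s z), ?_, ?_⟩
    · have hlin : IsLinearMap ℝ (fun v => q (mv X.act s v)) :=
        ((h.linear.mk' q) ∘ₗ (X.act s : X.N →ₗ[ℝ] X.N)).isLinear
      exact map_cone hlin (fun e he => cone_of_mem (Finset.mem_image.2
        ⟨(s, e), Finset.mem_product.2 ⟨hs, he⟩, rfl⟩)) hz
    · have e2 : mv R.act b (q (mv X.act s z)) = q (mv X.act a z) := (hb z).symm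
      have e3 : q (mv X.act a z) = q x := by
        have : mv X.act a z = x + t • φ := haz
        rw [this, h.linear.map_add, h.linear.map_smul, h.map_class, smul_zero, add_zero]
      exact e2.trans e3

end Pres

end Pool.Agent.TH30.MK
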