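import Mathlib

/-!
# Reduction theory for a convex cone with a lattice (elementary form)

`V` is a finite-dimensional real vector space, `Λ` a lattice in it, `C` an open convex cone,
`Γ` a group of linear automorphisms preserving `Λ` and `C`, and `ξ` a linear form, integral on `Λ`
and positive on the closure of `C` minus the origin.  The main result is the Siegel property
`Core.siegel`: for finitely many lattice points in the closure of `C`, only finitely many `γ ∈ Γ`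
move some point of the cone spanned by them which lies in `C` to another such point.
-/

namespace Pool.Agent.TH30.MK

open Set

set_option linter.unusedSectionVars false
set_option linter.style.haveILetI false

variable {V : Type*} [NormedAddCommGroup V] [NormedSpace ℝ V]

/-- the convex cone spanned by a finite set of vectors -/
def cone (E : Finset V) : Set V :=
  {x | ∃ c : V → ℝ, (∀ e ∈ E, 0 ≤ c e) ∧ x = ∑ e ∈ E, c e • e}

/-- the standing hypotheses -/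
structure Core (Λ : AddSubgroup V) (C : Set V) (Γ : Subgroup (V ≃ₗ[ℝ] V)) (ξ : V →ₗ[ℝ] ℝ) :
    Prop where
  fin : ∀ r : ℝ, {v : V | v ∈ Λ ∧ ‖v‖ ≤ r}.Finite
  span : Submodule.span ℝ (Λ : Set V) = ⊤
  opn : IsOpen C
  ne : C.Nonempty
  add : ∀ x ∈ C, ∀ y ∈ C, x + y ∈ C
  smul : ∀ t : ℝ, 0 < t → ∀ x ∈ C, t • x ∈ C
  mapΛ : ∀ γ ∈ Γ, ∀ v ∈ Λ, γ v ∈ Λ
  mapC : ∀ γ ∈ Γ, ∀ x ∈ C, γ x ∈ C
  int : ∀ v ∈ Λ, ∃ n : ℤ, ξ v = n
  pos : ∀ x ∈ closure C, x ≠ 0 → 0 < ξ x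

variable [FiniteDimensional ℝ V]

variable {Λ : AddSubgroup V} {C : Set V} {Γ : Subgroup (V ≃ₗ[ℝ] V)} {ξ : V →ₗ[ℝ] ℝ}

namespace Core

theorem near (h : Core Λ C Γ ξ) {x : V} (hx : x ∈ C) (v : V) :
    ∃ δ : ℝ, 0 < δ ∧ ∀ t : ℝ, |t| ≤ δ → x + t • v ∈ C := by
  have hc : Continuous (fun t : ℝ => x + t • v) := by fun_prop
  have ho : IsOpen ((fun t : ℝ => x + t • v) ⁻¹' C) := h.opn.preimage hc
  have h0 : (0 : ℝ) ∈ ((fun t : ℝ => x + t • v) ⁻¹' C) := by simpa using hx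
  obtain ⟨ε, hε, hb⟩ := Metric.isOpen_iff.1 ho 0 h0
  refine ⟨ε / 2, by positivity, fun t ht => ?_⟩
  have : t ∈ Metric.ball (0 : ℝ) ε := by
    rw [Metric.mem_ball, dist_zero_right, Real.norm_eq_abs]
    linarith
  exact hb this

theorem exists_lat (h : Core Λ C Γ ξ) : ∃ v ∈ Λ, v ∈ C := by
  obtain ⟨x, hx⟩ := h.ne
  have hs : ⊤ ≤ Submodule.span ℝ (Λ : Set V) := by rw [h.span]
  let b := Module.Basis.ofSpan hs
  have hb : ∀ i, b i ∈ Λ := fun i =>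
    Module.Basis.ofSpan_subset hs (Set.mem_range_self i)
  haveI : Finite ((linearIndepOn_empty ℝ (id : V → V)).extend (empty_subset (Λ : Set V))) :=
    Module.Finite.finite_basis b
  haveI := Fintype.ofFinite ((linearIndepOn_empty ℝ (id : V → V)).extend (empty_subset (Λ : Set V)))
  obtain ⟨r, hr, hball⟩ := Metric.isOpen_iff.1 h.opn x hx
  set M : ℝ := ∑ i, ‖b i‖ with hM
  have hM0 : 0 ≤ M := Finset.sum_nonneg (fun i _ => norm_nonneg _)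
  obtain ⟨N, hN⟩ := exists_nat_gt (M / r)
  have hN0 : (0 : ℝ) < N := lt_of_le_of_lt (by positivity) hN
  let v : V := ∑ i, (⌊(N : ℝ) * b.repr x i⌋ : ℤ) • b i
  have hv : v ∈ Λ := AddSubgroup.sum_mem _ (fun i _ => AddSubgroup.zsmul_mem _ (hb i) _)
  have key : ‖x - (N : ℝ)⁻¹ • v‖ < r := by
    have e1 : x - (N : ℝ)⁻¹ • v
        = ∑ i, (b.repr x i - (N : ℝ)⁻¹ * (⌊(N : ℝ) * b.repr x i⌋ : ℝ)) • b i := by
      have e2 : x = ∑ i, b.repr x i • b i := (b.sum_repr x).symm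
      calc x - (N : ℝ)⁻¹ • v = (∑ i, b.repr x i • b i) - (N : ℝ)⁻¹ • v := by rw [← e2]
        _ = _ := by
          simp only [v, Finset.smul_sum, ← Finset.sum_sub_distrib, sub_smul]
          refine Finset.sum_congr rfl (fun i _ => ?_)
          rw [← Int.cast_smul_eq_zsmul ℝ, smul_smul]
    rw [e1]
    have e3 : ∀ i, ‖(b.repr x i - (N : ℝ)⁻¹ * (⌊(N : ℝ) * b.repr x i⌋ : ℝ)) • b i‖
        ≤ (N : ℝ)⁻¹ * ‖b i‖ := by
      intro i
      rw [norm_smul]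
      refine mul_le_mul_of_nonneg_right ?_ (norm_nonneg _)
      have f1 := Int.floor_le ((N : ℝ) * b.repr x i)
      have f2 := Int.lt_floor_add_one ((N : ℝ) * b.repr x i)
      have f3 : b.repr x i - (N : ℝ)⁻¹ * (⌊(N : ℝ) * b.repr x i⌋ : ℝ)
          = (N : ℝ)⁻¹ * ((N : ℝ) * b.repr x i - (⌊(N : ℝ) * b.repr x i⌋ : ℝ)) := by
        field_simp
      rw [f3, Real.norm_eq_abs, abs_mul, abs_of_pos (inv_pos.2 hN0)]
      have f4 : |(N : ℝ) * b.repr x i - (⌊(N : ℝ) * b.repr x i⌋ : ℝ)| ≤ 1 := by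
        rw [abs_le]; constructor <;> linarith
      calc (N : ℝ)⁻¹ * |(N : ℝ) * b.repr x i - (⌊(N : ℝ) * b.repr x i⌋ : ℝ)|
          ≤ (N : ℝ)⁻¹ * 1 := mul_le_mul_of_nonneg_left f4 (le_of_lt (inv_pos.2 hN0))
        _ = (N : ℝ)⁻¹ := mul_one _
    calc ‖∑ i, (b.repr x i - (N : ℝ)⁻¹ * (⌊(N : ℝ) * b.repr x i⌋ : ℝ)) • b i‖
        ≤ ∑ i, ‖(b.repr x i - (N : ℝ)⁻¹ * (⌊(N : ℝ) * b.repr x i⌋ : ℝ)) • b i‖ :=
          norm_sum_le _ _
      _ ≤ ∑ i, (N : ℝ)⁻¹ * ‖b i‖ := Finset.sum_le_sum (fun i _ => e3 i)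
      _ = (N : ℝ)⁻¹ * M := by rw [← Finset.mul_sum]
      _ < r := by
        rw [div_lt_iff₀ hr] at hN
        rw [inv_mul_lt_iff₀ hN0]
        linarith
  have hmem : (N : ℝ)⁻¹ • v ∈ C := by
    apply hball
    rw [Metric.mem_ball, dist_comm, dist_eq_norm]
    exact key
  refine ⟨v, hv, ?_⟩
  have := h.smul N hN0 _ hmem
  rwa [smul_smul, mul_inv_cancel₀ hN0.ne', one_smul] at this

theorem span_lat (h : Core Λ C Γ ξ) : Submodule.span ℝ {v : V | v ∈ Λ ∧ v ∈ C} = ⊤ := by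
  rw [eq_top_iff, ← h.span, Submodule.span_le]
  intro v hv
  obtain ⟨w, hw, hwC⟩ := h.exists_lat
  obtain ⟨δ, hδ, hd⟩ := h.near hwC v
  obtain ⟨N, hN⟩ := exists_nat_gt (1 / δ)
  have hN0 : (0 : ℝ) < N := lt_of_le_of_lt (by positivity) hN
  have h1 : w + (N : ℝ)⁻¹ • v ∈ C := by
    apply hd
    rw [abs_of_pos (inv_pos.2 hN0)]
    rw [div_lt_iff₀ hδ] at hN
    rw [inv_le_comm₀ hN0 hδ, ← one_div, div_le_iff₀ hδ]
    linarith
  have h2 : (N : ℝ) • w + v ∈ C := by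
    have := h.smul N hN0 _ h1
    rwa [smul_add, smul_smul, mul_inv_cancel₀ hN0.ne', one_smul] at this
  have h3 : (N : ℝ) • w ∈ C := h.smul N hN0 _ hwC
  have h4 : (N : ℝ) • w ∈ Λ := by
    rw [Nat.cast_smul_eq_nsmul ℝ]
    exact Λ.nsmul_mem hw N
  have h5 : v = ((N : ℝ) • w + v) - (N : ℝ) • w := by abel
  rw [h5]
  exact Submodule.sub_mem _ (Submodule.subset_span ⟨Λ.add_mem h4 hv, h2⟩)
    (Submodule.subset_span ⟨h4, h3⟩)

theorem exists_basis (h : Core Λ C Γ ξ) :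
    ∃ (n : ℕ) (b : Module.Basis (Fin n) ℝ V), ∀ i, b i ∈ Λ ∧ b i ∈ C := by
  have hs : ⊤ ≤ Submodule.span ℝ {v : V | v ∈ Λ ∧ v ∈ C} := by rw [h.span_lat]
  let b := Module.Basis.ofSpan hs
  haveI : Finite ((linearIndepOn_empty ℝ (id : V → V)).extend
      (empty_subset {v : V | v ∈ Λ ∧ v ∈ C})) := Module.Finite.finite_basis b
  haveI := Fintype.ofFinite ((linearIndepOn_empty ℝ (id : V → V)).extend
      (empty_subset {v : V | v ∈ Λ ∧ v ∈ C}))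
  have hb : ∀ i, b i ∈ {v : V | v ∈ Λ ∧ v ∈ C} := fun i =>
    Module.Basis.ofSpan_subset hs (Set.mem_range_self i)
  refine ⟨_, b.reindex (Fintype.equivFin _), fun i => ?_⟩
  rw [Module.Basis.reindex_apply]
  exact hb _

theorem clos_smul (h : Core Λ C Γ ξ) {t : ℝ} (ht : 0 < t) {x : V} (hx : x ∈ closure C) :
    t • x ∈ closure C :=
  map_mem_closure (f := fun y : V => t • y) (by fun_prop) hx (fun y hy => h.smul t ht y hy)

theorem clos_map (h : Core Λ C Γ ξ) {γ : V ≃ₗ[ℝ] V} (hγ : γ ∈ Γ) {x : V} (hx : x ∈ closure C) :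
    γ x ∈ closure C :=
  map_mem_closure (f := fun y : V => γ y)
    (LinearMap.continuous_of_finiteDimensional (γ : V →ₗ[ℝ] V)) hx (fun y hy => h.mapC γ hγ y hy)

theorem clos_add (h : Core Λ C Γ ξ) {x y : V} (hx : x ∈ closure C) (hy : y ∈ closure C) :
    x + y ∈ closure C :=
  map_mem_closure₂ (f := fun a b : V => a + b) (by fun_prop) hx hy (fun a ha b hb => h.add a ha b hb)

theorem zero_mem_clos (h : Core Λ C Γ ξ) : (0 : V) ∈ closure C := by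
  obtain ⟨x, hx⟩ := h.ne
  have hc : Continuous (fun t : ℝ => t • x) := by fun_prop
  have h0 : (0 : ℝ) ∈ closure (Set.Ioi (0 : ℝ)) := by
    rw [closure_Ioi]; simp
  have := map_mem_closure (f := fun t : ℝ => t • x) (t := C) hc h0
    (fun t ht => h.smul t ht x hx)
  simpa using this

theorem nonneg (h : Core Λ C Γ ξ) {x : V} (hx : x ∈ closure C) : 0 ≤ ξ x := by
  by_cases h0 : x = 0
  · rw [h0, map_zero]
  · exact (h.pos x hx h0).le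

theorem exists_m (h : Core Λ C Γ ξ) : ∃ m : ℝ, 0 < m ∧ ∀ x ∈ closure C, m * ‖x‖ ≤ ξ x := by
  have hξ : Continuous ξ := LinearMap.continuous_of_finiteDimensional ξ
  haveI : ProperSpace V := FiniteDimensional.proper ℝ V
  have hcomp : IsCompact (closure C ∩ Metric.sphere (0 : V) 1) :=
    (isCompact_sphere (0 : V) 1).inter_left isClosed_closure
  by_cases hne : (closure C ∩ Metric.sphere (0 : V) 1).Nonempty
  · obtain ⟨z, ⟨hz, hz1⟩, hmin⟩ := hcomp.exists_isMinOn hne hξ.continuousOn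
    have hzn : ‖z‖ = 1 := by simpa using hz1
    have hz0 : z ≠ 0 := by
      intro h0; rw [h0, norm_zero] at hzn; norm_num at hzn
    refine ⟨ξ z, h.pos z hz hz0, fun x hx => ?_⟩
    by_cases hx0 : x = 0
    · rw [hx0]; simp
    · have hn : 0 < ‖x‖ := norm_pos_iff.2 hx0
      have hmem : ‖x‖⁻¹ • x ∈ closure C ∩ Metric.sphere (0 : V) 1 := by
        refine ⟨h.clos_smul (inv_pos.2 hn) hx, ?_⟩
        simp [norm_smul, hn.ne']
      have := hmin hmem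
      simp only [map_smul, smul_eq_mul, mem_ofPred_eq] at this
      rw [le_inv_mul_iff₀ hn] at this
      linarith
  · refine ⟨1, one_pos, fun x hx => ?_⟩
    by_cases hx0 : x = 0
    · rw [hx0]; simp
    · exfalso
      apply hne
      have hn : 0 < ‖x‖ := norm_pos_iff.2 hx0
      refine ⟨‖x‖⁻¹ • x, h.clos_smul (inv_pos.2 hn) hx, ?_⟩
      simp [norm_smul, hn.ne']

theorem finite_pts (h : Core Λ C Γ ξ) (c : ℝ) :
    {y : V | y ∈ Λ ∧ y ∈ closure C ∧ ξ y ≤ c}.Finite := by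
  obtain ⟨m, hm, hmm⟩ := h.exists_m
  refine (h.fin (c / m)).subset ?_
  rintro y ⟨h1, h2, h3⟩
  refine ⟨h1, ?_⟩
  rw [le_div_iff₀ hm]
  have := hmm y h2
  linarith

theorem finite_forms (h : Core Λ C Γ ξ) {x : V} (hx : x ∈ C) (c : ℝ) :
    {η : V →ₗ[ℝ] ℝ | (∀ v ∈ Λ, ∃ n : ℤ, η v = n) ∧ (∀ v ∈ C, 0 ≤ η v) ∧ η x ≤ c}.Finite := by
  obtain ⟨κ, b, hb⟩ := h.exists_basis
  have hδ : ∀ i : Fin κ, ∃ δ : ℝ, 0 < δ ∧ x + (-δ) • b i ∈ C := by
    intro i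
    obtain ⟨δ, hδ, hd⟩ := h.near hx (b i)
    exact ⟨δ, hδ, hd (-δ) (by rw [abs_neg, abs_of_pos hδ])⟩
  choose δ hδ hd using hδ
  have hfin : (Set.pi univ (fun i : Fin κ => {r : ℝ | ∃ n : ℤ, r = n ∧ 0 ≤ r ∧ r ≤ c / δ i})).Finite := by
    refine Set.Finite.pi (fun i => ?_)
    refine ((Set.finite_Icc (0 : ℤ) ⌊c / δ i⌋).image (fun n : ℤ => (n : ℝ))).subset ?_
    rintro r ⟨n, rfl, h0, h1⟩
    refine ⟨n, ⟨by exact_mod_cast h0, ?_⟩, rfl⟩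
    exact Int.le_floor.2 h1
  refine Set.Finite.of_injOn (f := fun η : V →ₗ[ℝ] ℝ => fun i : Fin κ => η (b i)) ?_ ?_ hfin
  · rintro η ⟨h1, h2, h3⟩
    rw [Set.mem_univ_pi]
    intro i
    obtain ⟨n, hn⟩ := h1 (b i) (hb i).1
    refine ⟨n, hn, h2 _ (hb i).2, ?_⟩
    have h4 := h2 _ (hd i)
    rw [map_add, map_smul, smul_eq_mul] at h4
    rw [le_div_iff₀ (hδ i)]
    linarith
  · intro η _ η' _ heq
    exact b.ext (fun i => congrFun heq i)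

/-- only finitely many elements of `Γ` have a bounded value `ξ (γ x)` at a given point of `C` -/
theorem finite_bound (h : Core Λ C Γ ξ) {x : V} (hx : x ∈ C) (c : ℝ) :
    {γ : V ≃ₗ[ℝ] V | γ ∈ Γ ∧ ξ (γ x) ≤ c}.Finite := by
  obtain ⟨κ, b, hb⟩ := h.exists_basis
  have h1 := h.finite_forms hx c
  refine Set.Finite.of_finite_fibers (fun γ : V ≃ₗ[ℝ] V => ξ ∘ₗ (γ : V →ₗ[ℝ] V))
    (h1.subset ?_) ?_
  · rintro _ ⟨γ, ⟨hγ, hc⟩, rfl⟩
    refine ⟨fun v hv => h.int _ (h.mapΛ γ hγ v hv), fun v hv => ?_, hc⟩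
    exact h.nonneg (subset_closure (h.mapC γ hγ v hv))
  · rintro η -
    have hfin : (Set.pi univ (fun i : Fin κ => {y : V | y ∈ Λ ∧ y ∈ closure C ∧ ξ y ≤ η (b i)})).Finite :=
      Set.Finite.pi (fun i => h.finite_pts _)
    refine Set.Finite.of_injOn (f := fun γ : V ≃ₗ[ℝ] V => fun i : Fin κ => γ (b i)) ?_ ?_ hfin
    · rintro γ ⟨⟨hγ, -⟩, hη⟩
      rw [Set.mem_univ_pi]
      intro i
      refine ⟨h.mapΛ γ hγ _ (hb i).1, subset_closure (h.mapC γ hγ _ (hb i).2), ?_⟩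
      have : ξ ∘ₗ (γ : V →ₗ[ℝ] V) = η := hη
      rw [← this]
      simp
    · intro γ _ γ' _ heq
      apply LinearEquiv.toLinearMap_injective
      exact b.ext (fun i => congrFun heq i)

theorem exists_min (h : Core Λ C Γ ξ) {x : V} (hx : x ∈ C) :
    ∃ α ∈ Γ, ∀ β ∈ Γ, ξ (α x) ≤ ξ (β x) := by
  have hf := h.finite_bound hx (ξ x)
  have hne : {γ : V ≃ₗ[ℝ] V | γ ∈ Γ ∧ ξ (γ x) ≤ ξ x}.Nonempty := ⟨1, Γ.one_mem, le_refl _⟩
  obtain ⟨α, ⟨hα, hα'⟩, hmin⟩ := Set.exists_min_image _ (fun γ : V ≃ₗ[ℝ] V => ξ (γ x)) hf hne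
  refine ⟨α, hα, fun β hβ => ?_⟩
  by_cases hb : ξ (β x) ≤ ξ x
  · exact hmin β ⟨hβ, hb⟩
  · exact hα'.trans (not_le.1 hb).le

/-- the elements of `Γ` for which the form `ξ ∘ γ` is minimal at some point of `C` in `cone E` -/
def MinElts (C : Set V) (Γ : Subgroup (V ≃ₗ[ℝ] V)) (ξ : V →ₗ[ℝ] ℝ) (E : Finset V) :
    Set (V ≃ₗ[ℝ] V) :=
  {γ | γ ∈ Γ ∧ ∃ x ∈ C, x ∈ cone E ∧ ∀ β ∈ Γ, ξ (γ x) ≤ ξ (β x)}

theorem finite_minElts_supp (h : Core Λ C Γ ξ) (S : Finset V)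
    (hS : ∀ e ∈ S, e ∈ Λ ∧ e ∈ closure C) :
    {γ : V ≃ₗ[ℝ] V | γ ∈ Γ ∧ ∃ c : V → ℝ, (∀ e ∈ S, 0 < c e) ∧ (∑ e ∈ S, c e • e) ∈ C ∧
      ∀ β ∈ Γ, ξ (γ (∑ e ∈ S, c e • e)) ≤ ξ (β (∑ e ∈ S, c e • e))}.Finite := by
  classical
  set R := {γ : V ≃ₗ[ℝ] V | γ ∈ Γ ∧ ∃ c : V → ℝ, (∀ e ∈ S, 0 < c e) ∧ (∑ e ∈ S, c e • e) ∈ C ∧
      ∀ β ∈ Γ, ξ (γ (∑ e ∈ S, c e • e)) ≤ ξ (β (∑ e ∈ S, c e • e))} with hR
  have hval : ∀ γ ∈ Γ, ∀ e ∈ S, ((⌊ξ (γ e)⌋₊ : ℕ) : ℝ) = ξ (γ e) := by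
    intro γ hγ e he
    have h1 : 0 ≤ ξ (γ e) := h.nonneg (h.clos_map hγ (hS e he).2)
    obtain ⟨n, hn⟩ := h.int _ (h.mapΛ γ hγ e (hS e he).1)
    have hn0 : 0 ≤ n := by
      rw [hn] at h1; exact_mod_cast h1
    obtain ⟨k, rfl⟩ := Int.eq_ofNat_of_zero_le hn0
    rw [hn]
    simp
  have hsum : ∀ (γ : V ≃ₗ[ℝ] V) (c : V → ℝ), ξ (γ (∑ e ∈ S, c e • e)) = ∑ e ∈ S, c e * ξ (γ e) := by
    intro γ c
    simp [map_sum]
  rcases R.eq_empty_or_nonempty with hemp | ⟨γ₀, hγ₀, c₀, hc₀, hx₀, -⟩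
  · rw [hemp]; exact Set.finite_empty
  refine Set.Finite.of_finite_fibers
    (fun γ : V ≃ₗ[ℝ] V => fun e : {e // e ∈ S} => ⌊ξ (γ (e : V))⌋₊) ?_ ?_
  · have hanti : IsAntichain (· ≤ ·)
        ((fun γ : V ≃ₗ[ℝ] V => fun e : {e // e ∈ S} => ⌊ξ (γ (e : V))⌋₊) '' R) := by
      rintro _ ⟨γ, ⟨hγ, -⟩, rfl⟩ _ ⟨γ', ⟨hγ', c', hc', hx', hmin'⟩, rfl⟩ hne hle
      apply hne
      have h1 : ∀ e ∈ S, ξ (γ e) ≤ ξ (γ' e) := by
        intro e he
        rw [← hval γ hγ e he, ← hval γ' hγ' e he]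
        exact_mod_cast hle ⟨e, he⟩
      have h2 := hmin' γ hγ
      rw [hsum, hsum] at h2
      have h3 : ∀ e ∈ S, c' e * ξ (γ e) ≤ c' e * ξ (γ' e) := fun e he =>
        mul_le_mul_of_nonneg_left (h1 e he) (hc' e he).le
      have h4 : ∑ e ∈ S, c' e * ξ (γ e) = ∑ e ∈ S, c' e * ξ (γ' e) :=
        le_antisymm (Finset.sum_le_sum h3) h2
      have h5 := (Finset.sum_eq_sum_iff_of_le h3).1 h4
      funext e
      have h6 := h5 e.1 e.2
      have h7 : ξ (γ (e : V)) = ξ (γ' (e : V)) := mul_left_cancel₀ (hc' e.1 e.2).ne' h6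
      simp only [h7]
    exact hanti.finite_of_partiallyWellOrderedOn (Set.isPWO_of_wellQuasiOrderedLE _)
  · rintro v -
    refine (h.finite_bound hx₀ (∑ e ∈ S.attach, c₀ e.1 * (v e : ℝ))).subset ?_
    rintro γ ⟨⟨hγ, -⟩, hv⟩
    refine ⟨hγ, ?_⟩
    rw [hsum, ← Finset.sum_attach]
    refine le_of_eq (Finset.sum_congr rfl (fun e _ => ?_))
    have : (fun e : {e // e ∈ S} => ⌊ξ (γ (e : V))⌋₊) = v := hv
    rw [← this]
    simp only
    rw [hval γ hγ e.1 e.2]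

theorem finite_minElts (h : Core Λ C Γ ξ) (E : Finset V)
    (hE : ∀ e ∈ E, e ∈ Λ ∧ e ∈ closure C) : (MinElts C Γ ξ E).Finite := by
  classical
  refine (Set.Finite.biUnion (s := (E.powerset : Set (Finset V))) (Finset.finite_toSet _)
    (fun S hS => h.finite_minElts_supp S (fun e he => hE e ?_))).subset ?_
  · exact (Finset.mem_powerset.1 (by simpa using hS)) he
  · rintro γ ⟨hγ, x, hxC, ⟨c, hc, rfl⟩, hmin⟩
    rw [Set.mem_iUnion₂]
    have hs : ∑ e ∈ E.filter (fun e => 0 < c e), c e • e = ∑ e ∈ E, c e • e := by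
      refine Finset.sum_filter_of_ne (fun e he hne => ?_)
      rcases (hc e he).lt_or_eq with h1 | h1
      · exact h1
      · exfalso; apply hne; rw [← h1, zero_smul]
    refine ⟨E.filter (fun e => 0 < c e), by
      rw [Finset.mem_coe, Finset.mem_powerset]; exact Finset.filter_subset _ _, hγ, c, fun e he => (Finset.mem_filter.1 he).2, ?_, ?_⟩
    · rw [hs]; exact hxC
    · rw [hs]; exact hmin

/-- **Siegel property** -/
theorem siegel (h : Core Λ C Γ ξ) (E : Finset V) (hE : ∀ e ∈ E, e ∈ Λ ∧ e ∈ closure C) :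
    {γ : V ≃ₗ[ℝ] V | γ ∈ Γ ∧ ∃ y ∈ C, y ∈ cone E ∧ γ y ∈ cone E}.Finite := by
  have hR := h.finite_minElts E hE
  refine (Set.Finite.image2 (fun α β : V ≃ₗ[ℝ] V => α⁻¹ * β) hR hR).subset ?_
  rintro γ ⟨hγ, y, hy, hyE, hγE⟩
  have hγy : γ y ∈ C := h.mapC γ hγ y hy
  obtain ⟨α, hα, hmin⟩ := h.exists_min hγy
  refine ⟨α, ⟨hα, γ y, hγy, hγE, hmin⟩, α * γ, ⟨Γ.mul_mem hα hγ, y, hy, hyE, fun β hβ => ?_⟩, ?_⟩
  · have := hmin (β * γ⁻¹) (Γ.mul_mem hβ (Γ.inv_mem hγ))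
    have e1 : (β * γ⁻¹) (γ y) = β y := by
      rw [LinearEquiv.mul_apply]
      congr 1
      rw [← LinearEquiv.mul_apply, inv_mul_cancel]
      rfl
    rw [e1] at this
    rwa [LinearEquiv.mul_apply]
  · simp

end Core

end Pool.Agent.TH30.MK
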